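import Pool.Agent.H45.VN.Defs

/-!
# The polynomials `ap` and `bp`

`q = card k = p ^ (2 m - 1)`, `m ≥ 2`, `p` prime, `CharP k p`. Write `u = uu k p`, `M = p ^ m`, `M' = p ^ (m - 1)`.
PROOF. `u * ap β = C β * u + ∑_{l < m} u ^ (p ^ l)` and
`u * bp β = C (β ^ M') * u ^ M' - ∑_{l < m - 1} u ^ (p ^ l)` (`p ^ l - 1 + 1 = p ^ l`). Telescoping:
`u ^ (p ^ l) = X ^ (p ^ (l + 1)) - X ^ (p ^ l)` (char `p`), so `∑_{l < 2 m - 1} u ^ (p ^ l) = X ^ q - X`.
`ident`: `(u * ap β) ^ M' = C (β ^ M') * u ^ M' + ∑_{l < m} u ^ (p ^ (l + m - 1))` (Frobenius additive,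
`add_pow_char_pow`, `sum_pow_char_pow`), and `m - 1 ≤ l + m - 1 ≤ 2 m - 2`, so
`(u * ap β) ^ M' - u * bp β = ∑_{l < 2 m - 1} u ^ (p ^ l) = X ^ q - X`.
`ap_prime`, `bp_prime`: `u(x) = 0`; the term `l = 0` of the sums is `u ^ 0 = 1`, the others vanish (`m - 1 ≥ 1`).
Degrees: `natDegree u = p`, the leading terms are `u ^ (M' - 1)` (times `1`, resp. `β ^ M'`), `(M' - 1) p = M - p`.
Squarefree: derivative of `u * ap β` is `- C (β + 1)` (derivative of `u` is `-1`, of `u ^ (p ^ l)`, `l ≥ 1`, is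
`0`), so `u * ap β` is separable for `β ≠ -1`; derivative of `u * bp β` is `1` (`M' = p ^ (m - 1)`, `m ≥ 2`).
Factors of a squarefree polynomial are squarefree and coprime to each other.
`coprime_ab`: a common irreducible factor `π` of `ap β` and `bp β` divides `(u ap) ^ M' - u bp = X ^ q - X =
∏ (X - C x)` (`prod_X_sub_C_univ` in `H35/VQ/Exact`), so `π` has a root `x ∈ k`; `ap β` vanishes at `x`, so `x ^ p = x`
(good), but then the value is `β + 1 ≠ 0`.
`eval_pow`: evaluate `ident` at `x ∈ k` (`FiniteField.pow_card`).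
-/

set_option linter.unusedSectionVars false

namespace Pool.Agent.H45.VN

open Finset Polynomial Pool.Agent.H35.VQ Pool.Agent.H45.VS

variable {k : Type} [Field k] [Fintype k] [DecidableEq k]

private theorem uap_eq (p m : ℕ) (hp : p.Prime) (β : k) :
    uu k p * ap p m β = C β * uu k p + ∑ l ∈ range m, (uu k p) ^ p ^ l := by
  unfold ap
  rw [mul_add, mul_comm (uu k p) (C β), Finset.mul_sum]
  congr 1
  refine Finset.sum_congr rfl fun l _ => ?_
  have h : 0 < p ^ l := pow_pos hp.pos l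
  rw [← pow_succ', Nat.sub_add_cancel h]

private theorem ubp_eq (p m : ℕ) (hp : p.Prime) (β : k) :
    uu k p * bp p m β = C (β ^ p ^ (m - 1)) * (uu k p) ^ p ^ (m - 1) - ∑ l ∈ range (m - 1), (uu k p) ^ p ^ l := by
  unfold bp
  have h0 : 0 < p ^ (m - 1) := pow_pos hp.pos _
  rw [mul_sub, Finset.mul_sum]
  congr 1
  · have : (uu k p) ^ p ^ (m - 1) = uu k p * (uu k p) ^ (p ^ (m - 1) - 1) := by
      rw [← pow_succ', Nat.sub_add_cancel h0]
    rw [this]
    ring
  · refine Finset.sum_congr rfl fun l _ => ?_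
    have h : 0 < p ^ l := pow_pos hp.pos l
    rw [← pow_succ', Nat.sub_add_cancel h]

private theorem uu_pow (p : ℕ) (hp : p.Prime) [CharP k p] (l : ℕ) :
    (uu k p) ^ p ^ l = X ^ p ^ (l + 1) - X ^ p ^ l := by
  haveI : Fact p.Prime := ⟨hp⟩
  unfold uu
  rw [sub_pow_char_pow, ← pow_mul, pow_succ']

private theorem tele (p : ℕ) (hp : p.Prime) [CharP k p] (n : ℕ) :
    ∑ l ∈ range n, (uu k p) ^ p ^ l = X ^ p ^ n - X := by
  induction n with
  | zero => simp
  | succ n ih =>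
    rw [Finset.sum_range_succ, ih, uu_pow p hp]
    ring

theorem ident (p m : ℕ) (hp : p.Prime) [CharP k p] (hm : 2 ≤ m)
    (hc : Fintype.card k = p ^ (2 * m - 1)) (β : k) :
    (uu k p * ap p m β) ^ p ^ (m - 1) - uu k p * bp p m β = X ^ Fintype.card k - X := by
  haveI : Fact p.Prime := ⟨hp⟩
  haveI : ExpChar k[X] p := expChar_prime _ p
  rw [uap_eq p m hp, ubp_eq p m hp, add_pow_char_pow, sum_pow_char_pow, mul_pow, ← C_pow, hc, ← tele p hp (2 * m - 1)]
  have e : 2 * m - 1 = (m - 1) + m := by omega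
  rw [e, Finset.sum_range_add]
  have e2 : ∑ i ∈ range m, ((uu k p) ^ p ^ i) ^ p ^ (m - 1) = ∑ x ∈ range m, (uu k p) ^ p ^ (m - 1 + x) := by
    refine Finset.sum_congr rfl fun l _ => ?_
    rw [← pow_mul, ← pow_add, add_comm]
  rw [e2]
  ring

theorem eval_pow (p m : ℕ) (hp : p.Prime) [CharP k p] (hm : 2 ≤ m)
    (hc : Fintype.card k = p ^ (2 * m - 1)) (β x : k) :
    (x ^ p - x) * (bp p m β).eval x = ((x ^ p - x) * (ap p m β).eval x) ^ p ^ (m - 1) := by
  have h := congrArg (Polynomial.eval x) (ident p m hp hm hc β)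
  have hu : (uu k p).eval x = x ^ p - x := by simp [uu]
  rw [eval_sub, Polynomial.eval_pow, eval_mul, eval_mul, hu, eval_sub, Polynomial.eval_pow, eval_X, FiniteField.pow_card, sub_self] at h
  exact (sub_eq_zero.1 h).symm

private theorem uu_eval_zero (p : ℕ) (x : k) (hx : x ^ p = x) : (uu k p).eval x = 0 := by
  simp [uu, hx]

private theorem sum_eval (p n : ℕ) (hp : p.Prime) (hn : 1 ≤ n) (x : k) (hx : x ^ p = x) :
    (∑ l ∈ range n, (uu k p) ^ (p ^ l - 1)).eval x = 1 := by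
  rw [eval_finsetSum, Finset.sum_eq_single 0]
  · simp
  · intro l _ hl
    rw [Polynomial.eval_pow, uu_eval_zero p x hx, zero_pow]
    have : 1 < p ^ l := Nat.one_lt_pow hl hp.one_lt
    omega
  · intro h
    exact absurd (Finset.mem_range.2 (by omega)) h

theorem ap_prime (p m : ℕ) (hp : p.Prime) (hm : 2 ≤ m) (β x : k) (hx : x ^ p = x) :
    (ap p m β).eval x = β + 1 := by
  unfold ap
  rw [eval_add, eval_C, sum_eval p m hp (by omega) x hx]

theorem bp_prime (p m : ℕ) (hp : p.Prime) (hm : 2 ≤ m) (β x : k) (hx : x ^ p = x) :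
    (bp p m β).eval x = -1 := by
  unfold bp
  have h : 1 < p ^ (m - 1) := Nat.one_lt_pow (by omega) hp.one_lt
  rw [eval_sub, eval_mul, eval_C, Polynomial.eval_pow, uu_eval_zero p x hx, zero_pow (by omega), mul_zero,
    sum_eval p (m - 1) hp (by omega) x hx, zero_sub]

theorem uu_natDegree (p : ℕ) (hp : p.Prime) : (uu k p).natDegree = p :=
  FiniteField.X_pow_card_sub_X_natDegree_eq k hp.one_lt

private theorem pow_natDegree' (p N : ℕ) (hp : p.Prime) : ((uu k p) ^ N).natDegree = N * p := by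
  rw [natDegree_pow, uu_natDegree p hp]

private theorem sum_natDegree_le (p n : ℕ) (hp : p.Prime) :
    (∑ l ∈ range (n + 1), (uu k p) ^ (p ^ l - 1)).natDegree ≤ (p ^ n - 1) * p := by
  refine natDegree_sum_le_of_forall_le _ _ fun l hl => ?_
  rw [pow_natDegree' p _ hp]
  have h : p ^ l ≤ p ^ n := Nat.pow_le_pow_right hp.pos (by have := Finset.mem_range.1 hl; omega)
  exact Nat.mul_le_mul_right _ (by omega)

private theorem deg_num (p m : ℕ) (hm : 2 ≤ m) : (p ^ (m - 1) - 1) * p = p ^ m - p := by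
  obtain ⟨n, rfl⟩ : ∃ n, m = n + 1 := ⟨m - 1, by omega⟩
  rw [Nat.sub_mul, one_mul, Nat.add_sub_cancel, pow_succ]

private theorem deg_lt (p m : ℕ) (hp : p.Prime) (hm : 2 ≤ m) :
    (p ^ (m - 2) - 1) * p < (p ^ (m - 1) - 1) * p := by
  have h1 : p ^ (m - 2) < p ^ (m - 1) := Nat.pow_lt_pow_right hp.one_lt (by omega)
  have h2 : 0 < p ^ (m - 2) := pow_pos hp.pos _
  exact Nat.mul_lt_mul_of_pos_right (by omega) hp.pos

theorem ap_natDegree (p m : ℕ) (hp : p.Prime) (hm : 2 ≤ m) (β : k) :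
    (ap p m β).natDegree = p ^ m - p := by
  obtain ⟨n, rfl⟩ : ∃ n, m = n + 2 := ⟨m - 2, by omega⟩
  have h1 : ap p (n + 2) β = (uu k p) ^ (p ^ (n + 1) - 1) + (C β + ∑ l ∈ range (n + 1), (uu k p) ^ (p ^ l - 1)) := by
    unfold ap
    rw [Finset.sum_range_succ]
    ring
  have hd := deg_lt p (n + 2) hp hm
  have e1 : n + 2 - 2 = n := by omega
  have e2 : n + 2 - 1 = n + 1 := by omega
  rw [e1, e2] at hd
  have h2 : (C β + ∑ l ∈ range (n + 1), (uu k p) ^ (p ^ l - 1) : k[X]).natDegree ≤ (p ^ n - 1) * p := by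
    refine (natDegree_add_le _ _).trans (max_le ?_ (sum_natDegree_le p n hp))
    rw [natDegree_C]
    exact Nat.zero_le _
  rw [h1, natDegree_add_eq_left_of_natDegree_lt, pow_natDegree' p _ hp, ← deg_num p (n + 2) hm, e2]
  rw [pow_natDegree' p _ hp]
  omega

theorem bp_natDegree (p m : ℕ) (hp : p.Prime) (hm : 2 ≤ m) (β : k) (hβ : β ≠ 0) :
    (bp p m β).natDegree = p ^ m - p := by
  have hβ' : β ^ p ^ (m - 1) ≠ 0 := pow_ne_zero _ hβ
  have h0 : (C (β ^ p ^ (m - 1)) * (uu k p) ^ (p ^ (m - 1) - 1)).natDegree = (p ^ (m - 1) - 1) * p := by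
    rw [natDegree_C_mul hβ', pow_natDegree' p _ hp]
  have h1 : (∑ l ∈ range (m - 1), (uu k p) ^ (p ^ l - 1)).natDegree ≤ (p ^ (m - 2) - 1) * p := by
    have := sum_natDegree_le (k := k) p (m - 2) hp
    have e : m - 2 + 1 = m - 1 := by omega
    rw [e] at this
    exact this
  have hd := deg_lt p m hp hm
  unfold bp
  rw [natDegree_sub_eq_left_of_natDegree_lt, h0, deg_num p m hm]
  rw [h0]
  omega

private theorem deriv_uu (p : ℕ) [CharP k p] : derivative (uu k p) = -1 := by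
  unfold uu
  rw [derivative_sub, derivative_X_pow, derivative_X, CharP.cast_eq_zero]
  simp

private theorem deriv_pow (p l : ℕ) [CharP k p] (hl : l ≠ 0) : derivative ((uu k p) ^ p ^ l) = 0 := by
  rw [derivative_pow]
  have : ((p ^ l : ℕ) : k) = 0 := by
    rw [Nat.cast_pow, CharP.cast_eq_zero, zero_pow hl]
  rw [this]
  simp

private theorem deriv_sum (p n : ℕ) [CharP k p] (hn : 1 ≤ n) :
    derivative (∑ l ∈ range n, (uu k p) ^ p ^ l) = -1 := by
  rw [derivative_sum, Finset.sum_eq_single 0]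
  · rw [pow_zero, pow_one, deriv_uu]
  · intro l _ hl
    exact deriv_pow p l hl
  · intro h
    exact absurd (Finset.mem_range.2 (by omega)) h

private theorem sqf_of_deriv (f : k[X]) (c : k) (hc : c ≠ 0) (h : derivative f = C c) : Squarefree f := by
  apply Separable.squarefree
  unfold Separable
  rw [h]
  refine ⟨0, C c⁻¹, ?_⟩
  rw [zero_mul, zero_add, ← C_mul, inv_mul_cancel₀ hc, C_1]

theorem sq_uap (p m : ℕ) (hp : p.Prime) [CharP k p] (hm : 2 ≤ m) (β : k) (hβ : β ≠ -1) :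
    Squarefree (uu k p * ap p m β) := by
  refine sqf_of_deriv _ (-(β + 1)) ?_ ?_
  · intro h
    apply hβ
    linear_combination -h
  · rw [uap_eq p m hp, derivative_add, deriv_sum p m (by omega), derivative_mul, derivative_C, deriv_uu]
    simp only [C_neg, C_add, C_1]
    ring

theorem sq_ubp (p m : ℕ) (hp : p.Prime) [CharP k p] (hm : 2 ≤ m) (β : k) :
    Squarefree (uu k p * bp p m β) := by
  refine sqf_of_deriv _ 1 one_ne_zero ?_
  rw [ubp_eq p m hp, derivative_sub, deriv_sum p (m - 1) (by omega), derivative_mul, derivative_C,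
    deriv_pow p (m - 1) (by omega), C_1]
  ring

private theorem cop_of_sq {f g : k[X]} (h : Squarefree (f * g)) : IsCoprime f g :=
  (squarefree_mul_iff.1 h).1.isCoprime

theorem coprime_ua (p m : ℕ) (hp : p.Prime) [CharP k p] (hm : 2 ≤ m) (β : k) (hβ : β ≠ -1) :
    IsCoprime (uu k p) (ap p m β) := cop_of_sq (sq_uap p m hp hm β hβ)

theorem coprime_ub (p m : ℕ) (hp : p.Prime) [CharP k p] (hm : 2 ≤ m) (β : k) :
    IsCoprime (uu k p) (bp p m β) := cop_of_sq (sq_ubp p m hp hm β)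

theorem coprime_ab (p m : ℕ) (hp : p.Prime) [CharP k p] (hm : 2 ≤ m)
    (hc : Fintype.card k = p ^ (2 * m - 1)) (β : k) (hβ : β ≠ -1) (hg : Good p m β) :
    IsCoprime (ap p m β) (bp p m β) := by
  apply isCoprime_of_irreducible_dvd
  · rintro ⟨h, -⟩
    have h1 := ap_prime p m hp hm β 0 (zero_pow hp.ne_zero)
    rw [h, eval_zero] at h1
    apply hβ
    linear_combination -h1
  · intro z hz h1 h2
    have h3 : z ∣ X ^ Fintype.card k - X := by
      rw [← ident p m hp hm hc β]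
      refine dvd_sub ?_ (h2.mul_left _)
      exact (h1.mul_left _).trans (dvd_pow_self _ (pow_pos hp.pos _).ne')
    rw [← prod_X_sub_C_univ] at h3
    obtain ⟨x, -, hx⟩ := (hz.prime.dvd_finsetProd_iff _).1 h3
    have h4 : Associated z (X - C x) := hz.associated_of_dvd (irreducible_X_sub_C x) hx
    have h5 : X - C x ∣ ap p m β := h4.symm.dvd.trans h1
    have h6 : (ap p m β).eval x = 0 := (dvd_iff_isRoot.1 h5)
    by_cases hxp : x ^ p = x
    · rw [ap_prime p m hp hm β x hxp] at h6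
      apply hβ
      linear_combination h6
    · exact hg x hxp h6

end Pool.Agent.H45.VN
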