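import Pool.Agent.H45.VN.Defs

/-!
# The curves

PROOF. `asm_flip`: `f = f₀ * P` is squarefree of degree `2 g + 1`; `oddHyp'` and `oddHyp'_numPoints` of
`H35/VQ/Exact2` (any leading coefficient; `f.coeff (2 g + 2) = 0` gives one point at infinity), `chi_mul` of
`H45/VS/Sq`.
`even_model2`: as `even_model` in `H45/VS/ModE` (proved there), with `G` in the place of `derivative h` and without
monicity: `f = h ^ 2 * f₀ + h * G`, degree `2 deg h + 2 g₀ + 1 = 2 g + 1` with leading coefficient
`h.leadingCoeff ^ 2 ≠ 0`. At a root `x` of `h` in the algebraic closure: `y = 0` and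
`derivative f (x) = derivative h (x) * G (x) ≠ 0` (`h` is separable: squarefree over a perfect field; `h`, `G` coprime).
Points: one at infinity, one over each root of `h` in `k`, `1 + tau (f₀ + G / h)` over the other `x`.
-/

namespace Pool.Agent.H45.VN

open Finset Polynomial Pool.Agent.H35.VQ Pool.Agent.H45.VS

variable {k : Type} [Field k] [Fintype k] [DecidableEq k]

theorem asm_flip (hk : (2 : k) ≠ 0) (g : ℕ) (f0 P : k[X]) (h0 : Squarefree f0) (hP : Squarefree P)
    (hc : IsCoprime P f0) (hf : f0 ≠ 0) (hP0 : P ≠ 0) (hd : f0.natDegree + P.natDegree = 2 * g + 1) :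
    ∃ C : Hyp k g, (C.numPoints : ℝ) = Fintype.card k + 1 +
      ∑ x, chi (f0.eval x) * chi (P.eval x) := by
  have hr : ringChar k ≠ 2 := by
    intro h
    apply hk
    have h1 : CharP k 2 := ringChar.of_eq h
    have h2 := CharP.cast_eq_zero k 2
    exact_mod_cast h2
  have hdeg : (f0 * P).natDegree = 2 * g + 1 := by
    rw [Polynomial.natDegree_mul hf hP0, hd]
  have hsq : Squarefree (f0 * P) := by
    rw [squarefree_mul_iff]
    exact ⟨hc.symm.isRelPrime, h0, hP⟩
  refine ⟨oddHyp' hk g (f0 * P) (by omega) (by omega) hsq, ?_⟩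
  rw [oddHyp'_numPoints hk hr g (f0 * P) (by omega) (by omega) hsq,
    Polynomial.coeff_eq_zero_of_natDegree_lt (by omega), chi_zero, Finset.sum_add_distrib,
    Finset.sum_const, Finset.card_univ, nsmul_eq_mul, mul_one, zero_add]
  have h3 : ∀ x : k, chi ((f0 * P).eval x) = chi (f0.eval x) * chi (P.eval x) := by
    intro x
    rw [Polynomial.eval_mul, chi_mul]
  rw [Finset.sum_congr rfl fun x _ => h3 x]
  ring

theorem even_model2 (h2 : (2 : k) = 0) (g0 g : ℕ) (hg : 1 ≤ g) (f0 : k[X]) (hm : f0.Monic)
    (hd : f0.natDegree = 2 * g0 + 1) (h G : k[X]) (hsq : Squarefree h) (hc : IsCoprime h G)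
    (hG : G.degree < h.degree) (hhd : g0 + h.natDegree = g) :
    ∃ C : Hyp k g, (C.numPoints : ℝ) = Fintype.card k + 1 +
      ∑ x ∈ Finset.univ.filter (fun x : k => h.eval x ≠ 0),
        tau (f0.eval x + G.eval x / h.eval x) := by
  have h2K : (2 : AlgebraicClosure k) = 0 := by
    rw [← map_ofNat (algebraMap k (AlgebraicClosure k)) 2, h2, map_zero]
  have hh0 : h ≠ 0 := by
    rintro rfl
    exact absurd hG (by simp)
  set f : k[X] := h * (h * f0 + G) with hf
  have hf' : f = h ^ 2 * f0 + h * G := by rw [hf]; ring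
  have hdeg1 : (h ^ 2 * f0).natDegree = 2 * g + 1 := by
    rw [Polynomial.natDegree_mul (pow_ne_zero 2 hh0) hm.ne_zero, Polynomial.natDegree_pow, hd]
    omega
  have hdeg2 : (h * G).natDegree < 2 * g + 1 := by
    have e1 := Polynomial.natDegree_mul_le (p := h) (q := G)
    have e2 : G.natDegree ≤ h.natDegree := Polynomial.natDegree_le_natDegree hG.le
    omega
  have hfdeg : f.natDegree = 2 * g + 1 := by
    rw [hf', Polynomial.natDegree_add_eq_left_of_natDegree_lt (by rw [hdeg1]; exact hdeg2), hdeg1]
  have hc1 : f.coeff (2 * g + 1) ≠ 0 := by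
    rw [hf', Polynomial.coeff_add, Polynomial.coeff_eq_zero_of_natDegree_lt hdeg2, add_zero, ← hdeg1]
    exact Polynomial.leadingCoeff_ne_zero.2 (mul_ne_zero (pow_ne_zero 2 hh0) hm.ne_zero)
  have hc2 : f.coeff (2 * g + 2) = 0 := Polynomial.coeff_eq_zero_of_natDegree_lt (by omega)
  have hh1 : h.coeff (g + 1) = 0 := Polynomial.coeff_eq_zero_of_natDegree_lt (by omega)
  have hsep : IsCoprime h (derivative h) := PerfectField.separable_iff_squarefree.2 hsq
  let CC : Hyp k g :=
    { h := h
      f := f
      deg_h := by omega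
      deg_f := by omega
      smooth := by
        intro x y hxy
        by_contra hcon
        push Not at hcon
        obtain ⟨h3, h4⟩ := hcon
        rw [h2K, zero_mul, zero_add] at h3
        rw [hf, map_mul, h3, zero_mul, zero_mul, add_zero] at hxy
        have hy : y = 0 := eq_zero_of_pow_eq_zero hxy
        rw [hy, mul_zero, hf, Polynomial.derivative_mul, map_add, map_mul, map_mul, map_add, map_mul,
          h3, zero_mul, zero_mul, add_zero, zero_add] at h4
        rcases mul_eq_zero.1 h4.symm with h5 | h5
        · obtain ⟨a, b, hab⟩ := hsep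
          have h6 := congrArg (aeval x) hab
          rw [map_add, map_mul, map_mul, h5, h3] at h6
          simp at h6
        · obtain ⟨a, b, hab⟩ := hc
          have h6 := congrArg (aeval x) hab
          rw [map_add, map_mul, map_mul, h5, h3] at h6
          simp at h6
      smooth_infty := by
        intro w hw
        right
        rw [hh1, hc2, map_zero, zero_mul, add_zero] at hw
        have hw0 : w = 0 := eq_zero_of_pow_eq_zero hw
        rw [hw0, mul_zero]
        intro h7
        apply hc1
        apply (algebraMap k (AlgebraicClosure k)).injective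
        rw [map_zero]
        first | exact h7 | exact h7.symm }
  refine ⟨CC, ?_⟩
  unfold Hyp.numPoints
  rw [card_affine]
  have h1 : Nat.card {w : k // w ^ 2 + CC.h.coeff (g + 1) * w = CC.f.coeff (2 * g + 2)} = 1 := by
    rw [Nat.card_eq_one_iff_unique]
    constructor
    · constructor
      rintro ⟨w, hw⟩ ⟨w', hw'⟩
      have e1 : w ^ 2 + h.coeff (g + 1) * w = f.coeff (2 * g + 2) := hw
      have e2 : w' ^ 2 + h.coeff (g + 1) * w' = f.coeff (2 * g + 2) := hw'
      rw [hh1, hc2, zero_mul, add_zero] at e1 e2
      rw [Subtype.mk.injEq, eq_zero_of_pow_eq_zero e1, eq_zero_of_pow_eq_zero e2]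
    · refine ⟨⟨0, ?_⟩⟩
      change (0 : k) ^ 2 + h.coeff (g + 1) * 0 = f.coeff (2 * g + 2)
      rw [hc2]
      simp
  rw [h1]
  push_cast
  have h5 : ∀ x : k, ((Finset.univ.filter fun y : k =>
      y ^ 2 + CC.h.eval x * y = CC.f.eval x).card : ℝ) =
      1 + if h.eval x ≠ 0 then tau (f0.eval x + G.eval x / h.eval x) else 0 := by
    intro x
    have hev : f.eval x = h.eval x * (h.eval x * f0.eval x + G.eval x) := by
      rw [hf]
      simp
    by_cases hx : h.eval x = 0
    · rw [if_neg (by simpa using hx), add_zero]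
      have h6 : (Finset.univ.filter fun y : k => y ^ 2 + CC.h.eval x * y = CC.f.eval x) = {0} := by
        ext y
        rw [Finset.mem_filter, Finset.mem_singleton]
        change (y ∈ Finset.univ ∧ y ^ 2 + h.eval x * y = f.eval x) ↔ _
        rw [hev, hx, zero_mul, zero_mul, add_zero]
        constructor
        · rintro ⟨_, h7⟩
          exact eq_zero_of_pow_eq_zero h7
        · rintro rfl
          exact ⟨Finset.mem_univ _, by simp⟩
      rw [h6]
      simp
    · rw [if_pos hx, add_comm, ← card_twist (h.eval x) _ hx]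
      congr 2
      refine Finset.filter_congr fun y _ => ?_
      have h7 : f.eval x = h.eval x ^ 2 * (f0.eval x + G.eval x / h.eval x) := by
        rw [hev]
        field_simp
      change (y ^ 2 + h.eval x * y = f.eval x) ↔ _
      rw [h7]
  rw [Finset.sum_congr rfl fun x _ => h5 x, Finset.sum_add_distrib, ← Finset.sum_filter]
  simp only [Finset.sum_const, Finset.card_univ, nsmul_eq_mul, mul_one]
  ring

end Pool.Agent.H45.VN
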