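import Pool.Agent.H45.VN.OddQ

/-!
# The base polynomial without rational zeros

PROOF. As `base_odd` in `H45/VS/Base`: `exists_vector q' g' _ _ t ht` of `H35/VQ/Approx` with
`q' = card k - |T|`, gives `M`, `a`, `R` with `2 M + 1 ≤ g'`, so `4 M + 2 |T| + 4 ≤ 2 g' + 2 |T| + 2 ≤ d`;
`exists_odd_pre2`; `24 (R + 1) ≤ 24 * 14401 * (q' / min g' q') ≤ 600 ^ 2 (q' / min g' q')`.
-/

namespace Pool.Agent.H45.VN

open Finset Polynomial Pool.Agent.H35.VQ Pool.Agent.H45.VS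

variable {k : Type} [Field k] [Fintype k] [DecidableEq k]

theorem base2 (hk : (2 : k) ≠ 0) (hq : 25 ≤ Fintype.card k) (T : Finset k) (v : k → k)
    (hv : ∀ x ∈ T, v x ≠ 0) (tw : k → ℝ) (htw : ∀ x, x ∉ T → tw x = 1 ∨ tw x = -1) (d g' : ℕ)
    (hg' : 1 ≤ g') (hd : 2 * g' + 2 * T.card + 2 ≤ d) (hT : T.card + 2 ≤ Fintype.card k) (t : ℝ)
    (ht : |t| ≤ √((min g' (Fintype.card k - T.card) : ℕ) *
      ((Fintype.card k - T.card : ℕ) : ℝ)) / 3) :
    ∃ f : k[X], f.Monic ∧ f.natDegree = d ∧ Squarefree f ∧ (∀ x ∈ T, f.eval x = v x) ∧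
      (∀ x, f.eval x ≠ 0) ∧
      |∑ x ∈ Tᶜ, tw x * chi (f.eval x) - t| ≤ 600 * √(((Fintype.card k - T.card : ℕ) : ℝ) /
        (min g' (Fintype.card k - T.card) : ℕ)) := by
  obtain ⟨M, a, R, hM, ha, hpos, hj, hR0, hR, -⟩ :=
    exists_vector (Fintype.card k - T.card) g' (by omega) hg' t ht
  have hr : ringChar k ≠ 2 := by
    intro h
    apply hk
    have := ringChar.Nat.cast_ringChar (R := k)
    rw [h] at this
    exact_mod_cast this
  obtain ⟨f, hm, hdd, hs, hf, hz, hb⟩ := exists_odd_pre2 hr hq T v hv tw htw d M (by omega) t a ha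
    (Fintype.card k - T.card) rfl hpos R hR0 hj
  refine ⟨f, hm, hdd, hs, hf, hz, ?_⟩
  apply abs_le_of_sq_le_sq _ (by positivity)
  rw [mul_pow, Real.sq_sqrt (by positivity)]
  have h1 : (1 : ℝ) ≤ ((Fintype.card k - T.card : ℕ) : ℝ) /
      (min g' (Fintype.card k - T.card) : ℕ) := by
    rw [le_div_iff₀ (by exact_mod_cast (by omega : 0 < min g' (Fintype.card k - T.card))),
      one_mul]
    exact_mod_cast min_le_right _ _
  linarith

end Pool.Agent.H45.VN
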