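import Pool.Agent.H45.VN.APol

/-!
# Counting the exceptional `β`

PROOF. `card_bad`: if `β` is not good there is `x ∈ k` with `z = x ^ p - x ≠ 0` and
`β = - ∑_{l < m} z ^ (p ^ l - 1)` (`(ap p m β).eval x = β + ∑ z ^ (p ^ l - 1)`). So the number of bad `β` is at most the
number of nonzero values `z` of the additive map `x ↦ x ^ p - x`, whose kernel has `p` elements (the roots of
`X ^ p - X`, all in `k`: `card k - ` image: `card image * p = q`; e.g. the kernel is the image of `ZMod p`, or use
`X ^ p - X ∣ X ^ q - X`; alternatively count the bad `β` with the fibres: each `z` is taken `p` times, namely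
`x + c`, `c ∈ ZMod p`). Hence `p (bad + 1) ≤ q`.
`card_kill_a`: if `(ap p m β).comp (X - C a)` and `f` are not coprime, they have a common root `ρ` in the
algebraic closure (`Polynomial.isCoprime_iff_aeval_ne_zero_of_isAlgClosed`-type lemma), and
`β = - ∑_{l < m} (y ^ p - y) ^ (p ^ l - 1)`, `y = ρ - a`, is determined by `ρ`: at most `natDegree f` such `β`
(`Polynomial.card_roots'`).
`card_kill_b`: the same; `(bp p m β)(y) = β ^ M' w ^ (M' - 1) - ∑_{l < m - 1} w ^ (p ^ l - 1)`, `w = y ^ p - y`; if `w = 0`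
this is `-1 ≠ 0` (`M' ≥ 2`); otherwise `β ^ M'` is determined by `ρ`, hence `β` (`x ↦ x ^ (p ^ (m - 1))` is injective
in characteristic `p`).
-/

namespace Pool.Agent.H45.VN

open Finset Polynomial Pool.Agent.H35.VQ Pool.Agent.H45.VS

variable {k : Type} [Field k] [Fintype k] [DecidableEq k]

theorem card_cs (p m : ℕ) (hp : p.Prime) [CharP k p] (hm : 1 ≤ m)
    (hc : Fintype.card k = p ^ m) (a : k) : (cs p a).card = p := by
  have := Fact.mk hp
  have h1 : (cs p a).card = (Finset.univ.filter fun z : k => z ^ p = z).card := by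
    refine card_bij' (fun x _ => x - a) (fun z _ => z + a) ?_ ?_ ?_ ?_
    · intro x hx
      exact mem_filter.2 ⟨mem_univ _, (mem_filter.1 hx).2⟩
    · intro z hz
      refine mem_filter.2 ⟨mem_univ _, ?_⟩
      rw [add_sub_cancel_right]
      exact (mem_filter.1 hz).2
    · intro x _
      exact sub_add_cancel x a
    · intro z _
      exact add_sub_cancel_right z a
  rw [h1]
  apply le_antisymm
  · have h2 : (Finset.univ.filter fun z : k => z ^ p = z) ⊆ (X ^ p - X : k[X]).roots.toFinset := by
      intro z hz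
      rw [Multiset.mem_toFinset, mem_roots (FiniteField.X_pow_card_sub_X_ne_zero k hp.one_lt)]
      simp [(mem_filter.1 hz).2]
    calc _ ≤ _ := card_le_card h2
      _ ≤ (X ^ p - X : k[X]).roots.card := Multiset.toFinset_card_le _
      _ ≤ (X ^ p - X : k[X]).natDegree := card_roots' _
      _ = p := FiniteField.X_pow_card_sub_X_natDegree_eq k hp.one_lt
  · have h2 : ((Finset.univ : Finset (ZMod p)).image (ZMod.castHom (dvd_refl p) k)) ⊆
        (Finset.univ.filter fun z : k => z ^ p = z) := by
      intro z hz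
      obtain ⟨c, -, rfl⟩ := mem_image.1 hz
      refine mem_filter.2 ⟨mem_univ _, ?_⟩
      rw [← map_pow, ZMod.pow_card]
    have h3 := card_le_card h2
    rw [card_image_of_injective _ (RingHom.injective _), card_univ, ZMod.card] at h3
    exact h3

open Classical in
theorem card_bad (p m : ℕ) (hp : p.Prime) [CharP k p] (hm : 2 ≤ m)
    (hc : Fintype.card k = p ^ (2 * m - 1)) :
    p * ((Finset.univ.filter fun β : k => ¬ Good p m β).card + 1) ≤ Fintype.card k := by
  have := Fact.mk hp
  have h1 : Fintype.card k = ∑ z ∈ (Finset.univ : Finset k).image (fun x => x ^ p - x), p := by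
    rw [← card_univ, card_eq_sum_card_image (fun x : k => x ^ p - x)]
    refine sum_congr rfl fun z hz => ?_
    obtain ⟨a, -, rfl⟩ := mem_image.1 hz
    refine Eq.trans ?_ (card_cs p (2 * m - 1) hp (by omega) hc a)
    congr 1
    ext x
    simp only [cs, mem_filter, mem_univ, true_and]
    rw [sub_pow_char]
    constructor
    · intro h
      linear_combination h
    · intro h
      linear_combination h
  rw [sum_const, smul_eq_mul, mul_comm] at h1
  rw [h1]
  refine Nat.mul_le_mul_left p ?_
  have h2 : (Finset.univ.filter fun β : k => ¬ Good p m β) ⊆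
      (((Finset.univ : Finset k).image (fun x => x ^ p - x)).erase 0).image
        (fun z => - ∑ l ∈ range m, z ^ (p ^ l - 1)) := by
    intro β hβ
    have h3 := (mem_filter.1 hβ).2
    unfold Good at h3
    push Not at h3
    obtain ⟨x, hx, h4⟩ := h3
    rw [mem_image]
    refine ⟨x ^ p - x, ?_, ?_⟩
    · rw [mem_erase]
      exact ⟨sub_ne_zero.2 hx, mem_image.2 ⟨x, mem_univ _, rfl⟩⟩
    · have h5 : (ap p m β).eval x = β + ∑ l ∈ range m, (x ^ p - x) ^ (p ^ l - 1) := by
        simp [ap, uu, eval_finsetSum]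
      rw [h4] at h5
      linear_combination h5
  have h0 : (0 : k) ∈ (Finset.univ : Finset k).image (fun x => x ^ p - x) := by
    rw [mem_image]
    exact ⟨0, mem_univ _, by rw [zero_pow hp.ne_zero, sub_zero]⟩
  have h6 := (card_le_card h2).trans card_image_le
  rw [card_erase_of_mem h0] at h6
  have h7 : 0 < ((Finset.univ : Finset k).image (fun x => x ^ p - x)).card :=
    card_pos.2 ⟨0, h0⟩
  omega

private theorem Cnt_root {f g : k[X]} (h : ¬ IsCoprime f g) :
    ∃ ρ : AlgebraicClosure k, aeval ρ f = 0 ∧ aeval ρ g = 0 := by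
  rw [isCoprime_iff_aeval_ne_zero_of_isAlgClosed k (AlgebraicClosure k)] at h
  push Not at h
  exact h

open Classical in
private theorem Cnt_gen (P : k → Prop) [DecidablePred P] (f : k[X]) (hf : f ≠ 0)
    (φ : k → AlgebraicClosure k) (hφ : Function.Injective φ)
    (g : AlgebraicClosure k → AlgebraicClosure k)
    (h : ∀ β, P β → ∃ ρ : AlgebraicClosure k, aeval ρ f = 0 ∧ φ β = g ρ) :
    (Finset.univ.filter P).card ≤ f.natDegree := by
  have h1 : (Finset.univ.filter P).image φ ⊆
      ((f.map (algebraMap k (AlgebraicClosure k))).roots.toFinset).image g := by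
    intro z hz
    obtain ⟨β, hβ, rfl⟩ := mem_image.1 hz
    obtain ⟨ρ, h2, h3⟩ := h β (mem_filter.1 hβ).2
    rw [h3]
    refine mem_image_of_mem g ?_
    rw [Multiset.mem_toFinset, mem_roots (Polynomial.map_ne_zero hf), IsRoot.def, eval_map_algebraMap]
    exact h2
  calc (Finset.univ.filter P).card = ((Finset.univ.filter P).image φ).card :=
        (card_image_of_injective _ hφ).symm
    _ ≤ _ := card_le_card h1
    _ ≤ _ := card_image_le
    _ ≤ (f.map (algebraMap k (AlgebraicClosure k))).roots.card := Multiset.toFinset_card_le _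
    _ ≤ (f.map (algebraMap k (AlgebraicClosure k))).natDegree := card_roots' _
    _ = f.natDegree := natDegree_map _

open Classical in
theorem card_kill_a (p m : ℕ) (hp : p.Prime) [CharP k p] (hm : 2 ≤ m) (f : k[X]) (hf : f ≠ 0)
    (a : k) :
    (Finset.univ.filter fun β : k => ¬ IsCoprime ((ap p m β).comp (X - C a)) f).card ≤
      f.natDegree := by
  refine Cnt_gen _ f hf (algebraMap k (AlgebraicClosure k)) (RingHom.injective _)
    (fun ρ => - ∑ l ∈ range m, ((ρ - algebraMap k (AlgebraicClosure k) a) ^ p -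
      (ρ - algebraMap k (AlgebraicClosure k) a)) ^ (p ^ l - 1)) ?_
  intro β hβ
  obtain ⟨ρ, h1, h2⟩ := Cnt_root hβ
  refine ⟨ρ, h2, ?_⟩
  have h3 : aeval ρ ((ap p m β).comp (X - C a)) = algebraMap k (AlgebraicClosure k) β +
      ∑ l ∈ range m, ((ρ - algebraMap k (AlgebraicClosure k) a) ^ p -
      (ρ - algebraMap k (AlgebraicClosure k) a)) ^ (p ^ l - 1) := by
    rw [aeval_comp]
    simp [ap, uu]
  rw [h1] at h3
  linear_combination - h3

open Classical in
theorem card_kill_b (p m : ℕ) (hp : p.Prime) [CharP k p] (hm : 2 ≤ m) (f : k[X]) (hf : f ≠ 0)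
    (a : k) :
    (Finset.univ.filter fun β : k => ¬ IsCoprime ((bp p m β).comp (X - C a)) f).card ≤
      f.natDegree := by
  have := Fact.mk hp
  have hinj : Function.Injective
      (fun β : k => algebraMap k (AlgebraicClosure k) (β ^ p ^ (m - 1))) := by
    intro b c hbc
    have h1 : b ^ p ^ (m - 1) = c ^ p ^ (m - 1) := (algebraMap k (AlgebraicClosure k)).injective hbc
    have h2 : (b - c) ^ p ^ (m - 1) = 0 := by
      rw [sub_pow_char_pow, h1, sub_self]
    exact sub_eq_zero.1 (pow_eq_zero_iff (pow_pos hp.pos _).ne' |>.1 h2)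
  refine Cnt_gen _ f hf _ hinj
    (fun ρ => (∑ l ∈ range (m - 1), ((ρ - algebraMap k (AlgebraicClosure k) a) ^ p -
      (ρ - algebraMap k (AlgebraicClosure k) a)) ^ (p ^ l - 1)) /
      ((ρ - algebraMap k (AlgebraicClosure k) a) ^ p -
      (ρ - algebraMap k (AlgebraicClosure k) a)) ^ (p ^ (m - 1) - 1)) ?_
  intro β hβ
  obtain ⟨ρ, h1, h2⟩ := Cnt_root hβ
  refine ⟨ρ, h2, ?_⟩
  set w : AlgebraicClosure k := (ρ - algebraMap k (AlgebraicClosure k) a) ^ p -
      (ρ - algebraMap k (AlgebraicClosure k) a) with hw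
  have h3 : aeval ρ ((bp p m β).comp (X - C a)) =
      algebraMap k (AlgebraicClosure k) (β ^ p ^ (m - 1)) * w ^ (p ^ (m - 1) - 1) -
      ∑ l ∈ range (m - 1), w ^ (p ^ l - 1) := by
    rw [aeval_comp]
    simp [bp, uu, hw]
  rw [h1] at h3
  have hM : 2 ≤ p ^ (m - 1) := by
    calc 2 ≤ p := hp.two_le
      _ = p ^ 1 := (pow_one p).symm
      _ ≤ p ^ (m - 1) := Nat.pow_le_pow_right hp.pos (by omega)
  have hw0 : w ≠ 0 := by
    intro h0
    rw [h0, zero_pow (by omega), mul_zero] at h3
    have h4 : ∑ l ∈ range (m - 1), (0 : AlgebraicClosure k) ^ (p ^ l - 1) = 1 := by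
      rw [sum_eq_single_of_mem 0 (mem_range.2 (by omega))]
      · simp
      · intro l _ hl
        have : 2 ≤ p ^ l := by
          calc 2 ≤ p := hp.two_le
            _ = p ^ 1 := (pow_one p).symm
            _ ≤ p ^ l := Nat.pow_le_pow_right hp.pos (Nat.one_le_iff_ne_zero.2 hl)
        exact zero_pow (by omega)
    rw [h4] at h3
    simp at h3
  show algebraMap k (AlgebraicClosure k) (β ^ p ^ (m - 1)) = _
  rw [eq_div_iff (pow_ne_zero _ hw0)]
  linear_combination - h3

end Pool.Agent.H45.VN
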