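import Mathlib
import Pool.Agent.H45.VS.Comb

/-!
# Subset sums of odd numbers

PROOF. `comb_subset`: `j = Nat.log 2 (p + 1) ≥ 2`, `B = 2 ^ j - 1`, so `2 ^ j ≤ p + 1 < 2 ^ (j + 1)`, `B` odd, `B ≤ p`,
`2 B ≥ p`. The numbers: `2 ^ i - 1` for `1 ≤ i ≤ j - 1`, then `j` times `1`, then `E / B` times `B`:
`J = (j - 1) + j + E / B` (index type `Fin (j - 1) ⊕ Fin j ⊕ Fin (E / B)`, transported to `Fin J`). Sum:
`(2 ^ j - 2) - (j - 1) + j + (E / B) B ≤ p + E`. For `m ≤ E` write `m = m₁ B + m₀`, `m₀ < B`, `m₁ ≤ E / B`,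
`m₀ = ∑_{i < j} β_i 2 ^ i` with `β_i ∈ {0, 1}` (`exists_bits` in `H45/VS/Comb`): `m₀ = ∑_{i=1}^{j-1} β_i (2 ^ i - 1) + ∑_{i<j} β_i`;
take the `2 ^ i - 1` with `β_i = 1`, `∑ β_i` of the ones and `m₁` of the `B`.
`(E / B) p ≤ 2 (E / B) B ≤ 2 E` gives the bound for `J p`.
-/

namespace Pool.Agent.H45.VN

open Finset

private theorem transport {S : Type} [Fintype S] {J : ℕ} (e : Fin J ≃ S) (v : S → ℤ) (P : S → Bool) :
    ∑ i ∈ Finset.univ.filter (fun i => P (e i) = true), v (e i) = ∑ x, if P x then v x else 0 := by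
  rw [Finset.sum_filter]
  exact Equiv.sum_comp e (fun x => if P x = true then v x else 0)

private theorem geo (k : ℕ) : ∑ i : Fin k, (2 : ℤ) ^ ((i : ℕ) + 1) = 2 ^ (k + 1) - 2 := by
  induction k with
  | zero => simp
  | succ k ih =>
    rw [Fin.sum_univ_castSucc]
    simp only [Fin.val_castSucc, Fin.val_last]
    rw [ih, pow_succ _ (k + 1)]
    ring

private theorem cut (n m : ℕ) (hm : m ≤ n) (B : ℤ) :
    (∑ l : Fin n, if decide ((l : ℕ) < m) = true then B else 0) = m * B := by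
  rw [Fin.sum_univ_eq_sum_range (fun l => if decide (l < m) = true then B else 0) n]
  simp only [decide_eq_true_eq]
  rw [← Finset.sum_filter]
  have : (Finset.range n).filter (fun l => l < m) = Finset.range m := by
    ext l
    simp only [Finset.mem_filter, Finset.mem_range]
    omega
  rw [this, Finset.sum_const, Finset.card_range, nsmul_eq_mul]

theorem comb_subset (p E : ℕ) (hp : 3 ≤ p) :
    ∃ (J : ℕ) (b : Fin J → ℤ), J * p ≤ 2 * Nat.log 2 (p + 1) * p + 2 * E ∧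
      (∀ i, Odd (b i) ∧ 1 ≤ b i ∧ b i ≤ p) ∧ ∑ i, b i ≤ p + E ∧
      ∀ m : ℕ, m ≤ E → ∃ I : Finset (Fin J), ∑ i ∈ I, b i = m := by
  obtain ⟨k, hk⟩ : ∃ k, Nat.log 2 (p + 1) = k + 1 := by
    have h : 2 ≤ Nat.log 2 (p + 1) := by
      apply Nat.le_log_of_pow_le (by norm_num)
      omega
    exact ⟨Nat.log 2 (p + 1) - 1, by omega⟩
  have hlow : 2 ^ (k + 1) ≤ p + 1 := by
    rw [← hk]
    exact Nat.pow_log_le_self 2 (by omega)
  have hup : p + 1 < 2 ^ (k + 2) := by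
    have := Nat.lt_pow_succ_log_self (b := 2) (by norm_num) (p + 1)
    rwa [hk] at this
  obtain ⟨B, hB⟩ : ∃ B : ℕ, 2 ^ (k + 1) = B + 1 := ⟨2 ^ (k + 1) - 1, by
    have : 0 < 2 ^ (k + 1) := by positivity
    omega⟩
  have hB1 : 1 ≤ B := by
    have h2 : 2 ≤ 2 ^ (k + 1) := by
      rw [pow_succ]
      have : 1 ≤ 2 ^ k := Nat.one_le_two_pow
      omega
    omega
  have hBp : B ≤ p := by omega
  have hpB : p ≤ 2 * B := by
    rw [pow_succ, hB] at hup
    omega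
  have hBz : (2 : ℤ) ^ (k + 1) = B + 1 := by exact_mod_cast hB
  have hcard : Fintype.card (Fin k ⊕ (Fin (k + 1) ⊕ Fin (E / B))) = k + (k + 1 + E / B) := by
    simp only [Fintype.card_sum, Fintype.card_fin]
  let e : Fin (k + (k + 1 + E / B)) ≃ Fin k ⊕ (Fin (k + 1) ⊕ Fin (E / B)) :=
    (Fintype.equivFinOfCardEq hcard).symm
  let v : Fin k ⊕ (Fin (k + 1) ⊕ Fin (E / B)) → ℤ :=
    Sum.elim (fun i => 2 ^ ((i : ℕ) + 1) - 1) (Sum.elim (fun _ => 1) (fun _ => (B : ℤ)))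
  have hBodd : Odd (B : ℤ) := by
    refine ⟨2 ^ k - 1, ?_⟩
    have : (2 : ℤ) ^ (k + 1) = 2 ^ k * 2 := pow_succ _ _
    linarith
  have hv : ∀ x, Odd (v x) ∧ 1 ≤ v x ∧ v x ≤ p := by
    have hp1 : (1 : ℤ) ≤ p := by exact_mod_cast (by omega : 1 ≤ p)
    have hBp' : (B : ℤ) ≤ p := by exact_mod_cast hBp
    rintro (i | i | l)
    · simp only [v, Sum.elim_inl]
      have h3 : (2 : ℤ) ^ ((i : ℕ) + 1) ≤ 2 ^ (k + 1) := pow_le_pow_right₀ (by norm_num) (by omega)
      have h4 : (1 : ℤ) ≤ 2 ^ (i : ℕ) := one_le_pow₀ (by norm_num)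
      have h5 : (2 : ℤ) ^ ((i : ℕ) + 1) = 2 ^ (i : ℕ) * 2 := pow_succ _ _
      refine ⟨⟨2 ^ (i : ℕ) - 1, by rw [h5]; ring⟩, by linarith, by linarith⟩
    · simp only [v, Sum.elim_inl, Sum.elim_inr]
      exact ⟨odd_one, le_rfl, hp1⟩
    · simp only [v, Sum.elim_inr]
      exact ⟨hBodd, by exact_mod_cast hB1, hBp'⟩
  have hdiv : E / B * B ≤ E := Nat.div_mul_le_self E B
  refine ⟨k + (k + 1 + E / B), fun i => v (e i), ?_, fun i => hv (e i), ?_, ?_⟩
  · rw [hk]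
    have h1 : E / B * p ≤ 2 * E := by
      calc E / B * p ≤ E / B * (2 * B) := Nat.mul_le_mul_left _ hpB
        _ = 2 * (E / B * B) := by ring
        _ ≤ 2 * E := Nat.mul_le_mul_left _ hdiv
    nlinarith
  · rw [Equiv.sum_comp e v, Fintype.sum_sum_type, Fintype.sum_sum_type]
    have h1 : ∑ i : Fin k, v (Sum.inl i) = 2 ^ (k + 1) - 2 - k := by
      show ∑ i : Fin k, ((2 : ℤ) ^ ((i : ℕ) + 1) - 1) = _
      rw [Finset.sum_sub_distrib, geo]
      simp
    have h2 : ∑ i : Fin (k + 1), v (Sum.inr (Sum.inl i)) = k + 1 := by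
      show ∑ i : Fin (k + 1), (1 : ℤ) = _
      simp
    have h3 : ∑ i : Fin (E / B), v (Sum.inr (Sum.inr i)) = ((E / B : ℕ) : ℤ) * B := by
      show ∑ i : Fin (E / B), (B : ℤ) = _
      rw [Finset.sum_const, Finset.card_univ, Fintype.card_fin, nsmul_eq_mul]
    rw [h1, h2, h3]
    have h4 : ((E / B : ℕ) : ℤ) * B ≤ E := by exact_mod_cast hdiv
    have hBp' : (B : ℤ) ≤ p := by exact_mod_cast hBp
    linarith
  · intro m hm
    have hm0 : m % B < 2 ^ (k + 1) := by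
      have := Nat.mod_lt m (by omega : 0 < B)
      omega
    have hm1 : m / B ≤ E / B := Nat.div_le_div_right hm
    obtain ⟨β, hβ⟩ := Pool.Agent.H45.VS.exists_bits (k + 1) (m % B) hm0
    have hβ' : (∑ i : Fin (k + 1), if β i then (2 : ℤ) ^ (i : ℕ) else 0) = ((m % B : ℕ) : ℤ) := by
      have := congrArg (Nat.cast : ℕ → ℤ) hβ
      rw [← this, Nat.cast_sum]
      exact Finset.sum_congr rfl fun i _ => by split_ifs <;> simp
    refine ⟨Finset.univ.filter (fun i =>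
      (Sum.elim (fun i : Fin k => β i.succ) (Sum.elim β (fun l : Fin (E / B) => decide ((l : ℕ) < m / B)))) (e i)
        = true), ?_⟩
    rw [transport e v, Fintype.sum_sum_type, Fintype.sum_sum_type]
    have h1 : (∑ i : Fin k, if β i.succ then (2 : ℤ) ^ ((i : ℕ) + 1) - 1 else 0) +
        (∑ i : Fin (k + 1), if β i then (1 : ℤ) else 0) = ((m % B : ℕ) : ℤ) := by
      rw [← hβ', Fin.sum_univ_succ, Fin.sum_univ_succ (n := k) (f := fun i => if β i then (2 : ℤ) ^ (i : ℕ) else 0)]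
      simp only [Fin.val_zero, pow_zero, Fin.val_succ]
      rw [add_left_comm, ← Finset.sum_add_distrib]
      congr 1
      refine Finset.sum_congr rfl fun i _ => ?_
      split_ifs <;> ring
    show (∑ i : Fin k, if β i.succ then (2 : ℤ) ^ ((i : ℕ) + 1) - 1 else 0) +
        ((∑ i : Fin (k + 1), if β i then (1 : ℤ) else 0) +
          ∑ l : Fin (E / B), if decide ((l : ℕ) < m / B) = true then (B : ℤ) else 0) = m
    rw [← add_assoc, h1, cut _ _ hm1]
    have h2 : B * (m / B) + m % B = m := Nat.div_add_mod m B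
    have h3 : (m : ℤ) = B * ((m / B : ℕ) : ℤ) + ((m % B : ℕ) : ℤ) := by exact_mod_cast h2.symm
    rw [h3]
    ring

end Pool.Agent.H45.VN
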