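import Pool.Agent.H45.VN.Cnt

/-!
# Disjoint cosets of the prime field and values with prescribed coset sums

PROOF. `exists_cosets`: induction on `J`: the union of `J` cosets has at most `J p < card k` elements
(`card_cs`), so there is `a` outside it; `cs p a` is disjoint from `cs p a'` if `a ∉ cs p a'` (if `x` is in both then
`a - a' = (x - a') - (x - a)` is fixed by `z ↦ z ^ p`, `sub_pow_char`).
`exists_patN`: as `exists_pat` in `H45/VS/Pat`: in each coset choose `(p + b i) / 2` of the `p` elements for the value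
`u`, the other elements get `w` (the cosets are disjoint, so this defines one function; outside: `w`).
`flip_sum`: split the sum over the disjoint union of the cosets and its complement; for `x` in the coset `i`
the product is `ε i` (the other factors are `1`), outside it is `1`.
-/

namespace Pool.Agent.H45.VN

open Finset Polynomial Pool.Agent.H35.VQ Pool.Agent.H45.VS

variable {k : Type} [Field k] [Fintype k] [DecidableEq k]

private theorem cosn_mem (p : ℕ) (a x : k) : x ∈ cs p a ↔ (x - a) ^ p = x - a := by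
  unfold cs
  rw [Finset.mem_filter]
  exact ⟨fun h => h.2, fun h => ⟨Finset.mem_univ _, h⟩⟩

private theorem cosn_disj (p : ℕ) (hp : p.Prime) [CharP k p] (a a' : k) (h : a ∉ cs p a') :
    Disjoint (cs p a) (cs p a') := by
  have := Fact.mk hp
  rw [Finset.disjoint_left]
  intro x hx hx'
  apply h
  rw [cosn_mem] at hx hx' ⊢
  have e : a - a' = (x - a') - (x - a) := by ring
  rw [e, sub_pow_char, hx, hx']

private theorem cosn_uniq (p J : ℕ) (a : Fin J → k)
    (hdis : ∀ i j, i ≠ j → Disjoint (cs p (a i)) (cs p (a j))) {x : k} {i j : Fin J}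
    (hi : x ∈ cs p (a i)) (hj : x ∈ cs p (a j)) : i = j := by
  by_contra hij
  exact (Finset.disjoint_left.1 (hdis i j hij)) hi hj

theorem self_mem_cs (p : ℕ) (hp : p.Prime) (a : k) : a ∈ cs p a := by
  rw [cosn_mem, sub_self, zero_pow hp.ne_zero]

theorem exists_cosets (p m : ℕ) (hp : p.Prime) [CharP k p] (hm : 1 ≤ m)
    (hc : Fintype.card k = p ^ m) (J : ℕ) (hJ : (J + 1) * p ≤ Fintype.card k) :
    ∃ a : Fin (J + 1) → k, ∀ i j, i ≠ j → Disjoint (cs p (a i)) (cs p (a j)) := by
  have key : ∀ n : ℕ, n * p ≤ Fintype.card k →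
      ∃ a : Fin n → k, ∀ i j, i ≠ j → Disjoint (cs p (a i)) (cs p (a j)) := by
    intro n
    induction n with
    | zero => exact fun _ => ⟨fun i => i.elim0, fun i => i.elim0⟩
    | succ n ih =>
      intro hn
      have hp0 := hp.pos
      rw [Nat.succ_mul] at hn
      obtain ⟨a, ha⟩ := ih (by omega)
      have h1 : (Finset.univ.biUnion fun i => cs p (a i)).card ≤ n * p := by
        refine (Finset.card_biUnion_le).trans ?_
        rw [Finset.sum_congr rfl fun i _ => card_cs p m hp hm hc (a i)]
        simp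
      obtain ⟨c, hc'⟩ : ∃ c : k, c ∉ Finset.univ.biUnion fun i => cs p (a i) := by
        by_contra h
        push Not at h
        have h2 : (Finset.univ.biUnion fun i => cs p (a i)) = Finset.univ := by
          ext x
          exact ⟨fun _ => Finset.mem_univ _, fun _ => h x⟩
        rw [h2, Finset.card_univ] at h1
        omega
      have hc2 : ∀ i, Disjoint (cs p c) (cs p (a i)) := by
        intro i
        refine cosn_disj p hp c (a i) fun h => hc' ?_
        exact Finset.mem_biUnion.2 ⟨i, Finset.mem_univ _, h⟩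
      refine ⟨Fin.cons c a, ?_⟩
      intro i j
      refine Fin.cases ?_ (fun i => ?_) i
      · refine Fin.cases (fun h => absurd rfl h) (fun j _ => ?_) j
        rw [Fin.cons_zero, Fin.cons_succ]
        exact hc2 j
      · refine Fin.cases (fun _ => ?_) (fun j h => ?_) j
        · rw [Fin.cons_zero, Fin.cons_succ]
          exact (hc2 i).symm
        · rw [Fin.cons_succ, Fin.cons_succ]
          exact ha i j fun e => h (by rw [e])
  exact key (J + 1) hJ

theorem exists_patN (p m : ℕ) (hp : p.Prime) [CharP k p] (hm : 1 ≤ m)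
    (hc : Fintype.card k = p ^ m) (J : ℕ) (a : Fin J → k)
    (hdis : ∀ i j, i ≠ j → Disjoint (cs p (a i)) (cs p (a j))) (F : k → ℝ) (u w : k) (hu : F u = 1)
    (hw : F w = -1) (b : Fin J → ℤ) (hb : ∀ i, |b i| ≤ p) (hb2 : ∀ i, Even (b i + p)) :
    ∃ v : k → k, (∀ x, v x = u ∨ v x = w) ∧ ∀ i, ∑ x ∈ cs p (a i), F (v x) = (b i : ℝ) := by
  classical
  have hA : ∀ i : Fin J, ∃ A : Finset k, A ⊆ cs p (a i) ∧ (2 * (A.card : ℤ) = p + b i) := by
    intro i
    have h1 := hb i
    rw [abs_le] at h1
    obtain ⟨r, hr⟩ := hb2 i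
    have h2 : r.toNat ≤ (cs p (a i)).card := by
      rw [card_cs p m hp hm hc]
      omega
    obtain ⟨A, hA, hAc⟩ := Finset.exists_subset_card_eq h2
    refine ⟨A, hA, ?_⟩
    rw [hAc]
    omega
  choose A hA1 hA2 using hA
  refine ⟨fun x => if ∃ i, x ∈ A i then u else w, ?_, ?_⟩
  · intro x
    dsimp only
    split_ifs
    · exact Or.inl rfl
    · exact Or.inr rfl
  · intro i
    have h3 : ∑ x ∈ cs p (a i), F (if ∃ j, x ∈ A j then u else w) =
        ∑ x ∈ cs p (a i), (2 * (if x ∈ A i then (1 : ℝ) else 0) - 1) := by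
      refine Finset.sum_congr rfl fun x hx => ?_
      have h4 : (∃ j, x ∈ A j) ↔ x ∈ A i := by
        constructor
        · rintro ⟨j, hj⟩
          rwa [cosn_uniq p J a hdis hx (hA1 j hj)]
        · exact fun h => ⟨i, h⟩
      by_cases h5 : x ∈ A i
      · rw [if_pos (h4.2 h5), if_pos h5, hu]
        norm_num
      · rw [if_neg (fun h => h5 (h4.1 h)), if_neg h5, hw]
        norm_num
    rw [h3, Finset.sum_sub_distrib, ← Finset.mul_sum, Finset.sum_ite_mem, Finset.sum_const,
      Finset.sum_const, Finset.inter_eq_right.2 (hA1 i), card_cs p m hp hm hc]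
    have h4 : (2 * (A i).card : ℝ) = p + b i := by exact_mod_cast hA2 i
    simp only [nsmul_eq_mul, mul_one]
    linarith

theorem flip_sum (p J : ℕ) (a : Fin J → k)
    (hdis : ∀ i j, i ≠ j → Disjoint (cs p (a i)) (cs p (a j))) (ε : Fin J → ℝ) (φ : k → ℝ) :
    ∑ x, φ x * (∏ i, if x ∈ cs p (a i) then ε i else 1) =
      ∑ x ∈ (Finset.univ.biUnion fun i => cs p (a i))ᶜ, φ x +
        ∑ i, ε i * ∑ x ∈ cs p (a i), φ x := by
  rw [← Finset.sum_add_sum_compl (Finset.univ.biUnion fun i => cs p (a i)), add_comm]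
  congr 1
  · refine Finset.sum_congr rfl fun x hx => ?_
    rw [Finset.mem_compl, Finset.mem_biUnion] at hx
    rw [Finset.prod_eq_one, mul_one]
    intro i _
    rw [if_neg fun h => hx ⟨i, Finset.mem_univ _, h⟩]
  · rw [Finset.sum_biUnion fun i _ j _ hij => hdis i j hij]
    refine Finset.sum_congr rfl fun i _ => ?_
    rw [Finset.mul_sum]
    refine Finset.sum_congr rfl fun x hx => ?_
    rw [Finset.prod_eq_single i, if_pos hx, mul_comm]
    · intro j _ hj
      exact if_neg fun h => hj (cosn_uniq p J a hdis h hx)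
    · exact fun h => absurd (Finset.mem_univ _) h

theorem card_union_cs (p m : ℕ) (hp : p.Prime) [CharP k p] (hm : 1 ≤ m)
    (hc : Fintype.card k = p ^ m) (J : ℕ) (a : Fin J → k)
    (hdis : ∀ i j, i ≠ j → Disjoint (cs p (a i)) (cs p (a j))) :
    (Finset.univ.biUnion fun i => cs p (a i)).card = J * p := by
  rw [Finset.card_biUnion fun i _ j _ hij => hdis i j hij,
    Finset.sum_congr rfl fun i _ => card_cs p m hp hm hc (a i)]
  simp

end Pool.Agent.H45.VN
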