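import Pool.Agent.H45.VS.Base
import Pool.Agent.H45.VS.Sq

/-!
# Flips of cosets of the prime field, `q = p ^ (2 m - 1)`

`L = uu * ap β` and `L♯ = uu * bp β` (`uu = X ^ p - X`) are the additive polynomials
`X ^ M - X + β (X ^ p - X)` and `X - X ^ M' + β ^ M' (X ^ M - X ^ M')`, `M = p ^ m`, `M' = p ^ (m - 1)`, and
`L♯(x) = L(x) ^ M'` for `x ∈ k`.
-/

namespace Pool.Agent.H45.VN

open Finset Polynomial Pool.Agent.H35.VQ Pool.Agent.H45.VS

variable {k : Type} [Field k] [Fintype k] [DecidableEq k]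

/-- the polynomial `X ^ p - X` -/
noncomputable def uu (k : Type) [Field k] (p : ℕ) : k[X] := X ^ p - X

/-- the cofactor of `L` -/
noncomputable def ap (p m : ℕ) (β : k) : k[X] := C β + ∑ l ∈ range m, (uu k p) ^ (p ^ l - 1)

/-- the cofactor of `L♯` -/
noncomputable def bp (p m : ℕ) (β : k) : k[X] :=
  C (β ^ p ^ (m - 1)) * (uu k p) ^ (p ^ (m - 1) - 1) - ∑ l ∈ range (m - 1), (uu k p) ^ (p ^ l - 1)

/-- `β` is good if `L` has no root in `k` outside the prime field -/
def Good (p m : ℕ) (β : k) : Prop := ∀ x : k, x ^ p ≠ x → (ap p m β).eval x ≠ 0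

/-- the coset of `a` modulo the prime field -/
def cs (p : ℕ) (a : k) : Finset k := Finset.univ.filter fun x => (x - a) ^ p = x - a

end Pool.Agent.H45.VN
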