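import Pool.Agent.H45.VN.Defs

/-!
# Zeros at several prescribed points

PROOF. As `unb0` in `H45/VS/FamB` (and `unbiased_zeros` in `H35/VQ/Poly`) with the set `A` in the place of
`{y, z}`: the product over `E = (D ∪ A).map (subtype embedding)`, `|E| ≤ n`, of
`ψ x a b = (if x ∈ A then (if a = 0 then 1 else 0) else 1) * (if x ∈ D then S x a b else 1)`, and `sum_fam`.
If `D = ∅` each factor is `(∑ a, ∑ b, ψ) / (2 q) = 1 / q`; if `u ∈ D` the factor of `u` is `0` by `h0` (`u ∉ A`) or
`h1` (`u ∈ A`).
-/

namespace Pool.Agent.H45.VN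

open Finset Polynomial Pool.Agent.H35.VQ Pool.Agent.H45.VS

variable {k : Type} [Field k] [Fintype k] [DecidableEq k]

omit [Field k] [Fintype k] [DecidableEq k] in
private theorem fc_map_disj (T : Finset k) (D : Finset {x : k // x ∉ T}) :
    Disjoint (D.map (Function.Embedding.subtype _)) T := by
  rw [Finset.disjoint_left]
  intro x hx
  rw [Finset.mem_map] at hx
  obtain ⟨y, _, rfl⟩ := hx
  exact y.2

omit [Field k] [Fintype k] [DecidableEq k] in
private theorem fc_mem (T : Finset k) (D : Finset {x : k // x ∉ T}) (x : {x : k // x ∉ T}) :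
    ((x : k) ∈ D.map (Function.Embedding.subtype _)) ↔ x ∈ D := by
  rw [Finset.mem_map]
  constructor
  · rintro ⟨u, hu, hux⟩
    have : u = x := Subtype.ext hux
    exact this ▸ hu
  · intro hx
    exact ⟨x, hx, rfl⟩

theorem unbA (T : Finset k) (v : k → k) (n : ℕ) (S : k → k → Bool → ℝ)
    (h0 : ∀ x, x ∉ T → ∑ a, ∑ b, S x a b = 0) (h1 : ∀ x, x ∉ T → ∑ b, S x 0 b = 0)
    (A D : Finset {x : k // x ∉ T}) (hD : D.card + A.card ≤ n) :
    ∑ ω : Sp k n, (∏ y ∈ A, if (fam T v ω.1).eval (y : k) = 0 then (1 : ℝ) else 0) *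
      mon D (esg T v S ω) =
      if D = ∅ then tot k n * (1 / (Fintype.card k : ℝ)) ^ A.card else 0 := by
  classical
  set E : Finset {x : k // x ∉ T} := D ∪ A with hE
  have hEc : E.card ≤ n := (Finset.card_union_le _ _).trans hD
  set ψ : k → k → Bool → ℝ := fun x a b =>
    (if x ∈ A.map (Function.Embedding.subtype _) then (if a = 0 then 1 else 0) else 1) *
      (if x ∈ D.map (Function.Embedding.subtype _) then S x a b else 1) with hψ
  have hmem := fc_mem T D
  have hmemA := fc_mem T A
  have hprod : ∀ ω : Sp k n, (∏ y ∈ A, if (fam T v ω.1).eval (y : k) = 0 then (1 : ℝ) else 0) *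
      mon D (esg T v S ω) =
      ∏ x ∈ E.map (Function.Embedding.subtype _), ψ x ((fam T v ω.1).eval x) (ω.2 x) := by
    intro ω
    rw [Finset.prod_map]
    simp only [hψ, Function.Embedding.coe_subtype]
    rw [Finset.prod_mul_distrib]
    congr 1
    · rw [← Finset.prod_subset (s₁ := A) (s₂ := E) Finset.subset_union_right]
      · refine Finset.prod_congr rfl fun x hx => ?_
        rw [if_pos ((hmemA x).2 hx)]
      · intro x _ hx
        rw [if_neg (fun h => hx ((hmemA x).1 h))]
    · rw [mon_eq_prod, ← Finset.prod_subset (s₁ := D) (s₂ := E) Finset.subset_union_left]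
      · refine Finset.prod_congr rfl fun x hx => ?_
        rw [if_pos ((hmem x).2 hx)]
        rfl
      · intro x _ hx
        rw [if_neg (fun h => hx ((hmem x).1 h))]
  rw [Finset.sum_congr rfl fun ω _ => hprod ω,
    sum_fam T v n (E.map (Function.Embedding.subtype _)) (fc_map_disj T E)
      (by rw [Finset.card_map]; exact hEc) ψ, Finset.prod_map]
  simp only [Function.Embedding.coe_subtype]
  have hq : (0 : ℝ) < Fintype.card k := by exact_mod_cast Fintype.card_pos
  by_cases hD0 : D = ∅
  · subst hD0
    rw [if_pos rfl]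
    have hE2 : E = A := by rw [hE, Finset.empty_union]
    have h3 : ∀ x ∈ E, (∑ a, ∑ b, ψ (x : k) a b) / (2 * (Fintype.card k : ℝ)) =
        1 / (Fintype.card k : ℝ) := by
      intro x hx
      rw [hE2] at hx
      have hx' := (hmemA x).2 hx
      have : ∑ a, ∑ b, ψ (x : k) a b = 2 := by
        simp only [hψ, hx', if_true]
        simp
      rw [this]
      field_simp
    rw [Finset.prod_congr rfl h3, Finset.prod_const, hE2]
  · obtain ⟨u, hu⟩ := Finset.nonempty_iff_ne_empty.2 hD0
    rw [if_neg hD0, Finset.prod_eq_zero (i := u) (Finset.mem_union_left _ hu), mul_zero]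
    have hu' := (hmem u).2 hu
    have : ∑ a, ∑ b, ψ (u : k) a b = 0 := by
      simp only [hψ]
      by_cases huy : (u : k) ∈ A.map (Function.Embedding.subtype _)
      · simp only [huy, if_true, hu']
        have h4 : ∀ a : k, ∑ b, (if a = 0 then (1 : ℝ) else 0) * S u a b =
            if a = 0 then ∑ b, S u 0 b else 0 := by
          intro a
          by_cases ha : a = 0
          · subst ha
            simp
          · simp [ha]
        rw [Finset.sum_congr rfl fun a _ => h4 a, h1 u u.2]
        simp
      · simp only [huy, if_false, hu', if_true, one_mul]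
        exact h0 u u.2
    rw [this, zero_div]

end Pool.Agent.H45.VN
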