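import Mathlib

/-!
# The choice of the parameters

Hypothesis `H`: `10 ^ 15 q ^ 2 (ℓ + 1) ^ 3 ≤ g ^ 3`, `ℓ = Nat.log 2 q`. Consequences: (a) `M = p ^ m` satisfies
`M ^ 3 = p ^ (3 m) ≤ p ^ (4 m - 2) = q ^ 2` (`m ≥ 2`), so `10 ^ 5 M (ℓ + 1) ≤ g`; (b) `10 ^ 15 q ^ 2 ≤ g ^ 3`, so
`q / √g ≤ g / 10 ^ 7.5 ≤ g / (3 * 10 ^ 7)`; (c) `g ≤ q` gives `q ≥ 10 ^ 15`, `g ≥ 10 ^ 5 q ^ (2 / 3) ≥ 10 ^ 15`.
PROOF of `num_oddN`. `E₀ = ⌈610 √(q / g)⌉`, `E₀ ≤ 610 √(q / g) + 1`. Let `M' = p ^ (m - 1)`, `M = p M'`,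
`M M' = q`, `M' ^ 2 = q / p ≤ q / 3`. `J M = (J p) M' ≤ 2 log₂(p + 1) M + 2 E₀ M' ≤ 2 (ℓ + 1) M + 1220 q / √(3 g) + 2 M' ≤
g / 50000 + g / 40000 + g / 50000 ≤ g / 1000` (with `p + 1 ≤ q`). So `100 J (M - p) ≤ g`, `J p ≤ J M ≤ g / 1000`,
`(J + 1) p ≤ q`; `g₀ ≥ 0.999 g`, `K ≤ g / 1000 + 1`, `g₀ - K - 2 ≥ 0.99 g`, `q - K ≥ 0.99 q`, `min ≥ 0.99 g` (`g ≤ q`), and
`600 √(q / (0.99 g)) ≤ 604 √(q / g) ≤ E₀`. Last claim: `√(min (q - K)) / 3 ≥ 0.99 √(g q) / 3 = 0.33 √(g q)` and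
`0.08 √(g q) ≥ p + 2 E₀`, since `p ≤ q ^ (1/3) ≤ √(g q) / 100`, `√(q / g) = √(g q) / g`.
PROOF of `num_twoN`. `p = 2`, `M = 2 ^ m`, `M ^ 2 = 2 q`, `E₀` as before, `J = E₀ + 1 ≤ 610 √(q / g) + 2`:
`8 J M ≤ 8 (610 √2 q / √g + 2 √(2 q)) ≤ g / 1000`. The rest is the same.
-/

namespace Pool.Agent.H45.VN

private lemma numN_base {p m q g l : ℕ} (hp2 : 2 ≤ p) (hm : 2 ≤ m) (hq : q = p ^ (2 * m - 1))
    (hg : 10 ^ 15 * q ^ 2 * (l + 1) ^ 3 ≤ g ^ 3) (hg2 : g ≤ q) :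
    10 ^ 5 * p ^ m * (l + 1) ≤ g ∧ 10 ^ 15 ≤ g ∧ 10 ^ 15 * q ^ 2 ≤ g ^ 3 := by
  have hp0 : 0 < p := by omega
  have h1 : (p ^ m) ^ 3 ≤ q ^ 2 := by
    rw [hq, ← pow_mul, ← pow_mul]
    exact Nat.pow_le_pow_right hp0 (by omega)
  have h2 : 10 ^ 5 * p ^ m * (l + 1) ≤ g := by
    refine (Nat.pow_le_pow_iff_left (by norm_num : 3 ≠ 0)).1 ?_
    calc (10 ^ 5 * p ^ m * (l + 1)) ^ 3 = 10 ^ 15 * (p ^ m) ^ 3 * (l + 1) ^ 3 := by ring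
      _ ≤ 10 ^ 15 * q ^ 2 * (l + 1) ^ 3 :=
          Nat.mul_le_mul_right _ (Nat.mul_le_mul_left _ h1)
      _ ≤ g ^ 3 := hg
  have h3 : 10 ^ 15 * q ^ 2 ≤ g ^ 3 :=
    le_trans (Nat.le_mul_of_pos_right _ (by positivity)) hg
  have hq0 : 0 < q := by rw [hq]; positivity
  refine ⟨h2, ?_, h3⟩
  have h4 : 10 ^ 15 * q ^ 2 ≤ g * q ^ 2 := by
    calc 10 ^ 15 * q ^ 2 ≤ g ^ 3 := h3
      _ = g * g ^ 2 := by ring
      _ ≤ g * q ^ 2 := Nat.mul_le_mul_left _ (Nat.pow_le_pow_left hg2 2)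
  exact Nat.le_of_mul_le_mul_right h4 (by positivity)

/-- `√(q / g) a ≤ g / c` if `c² q a² ≤ g³` -/
private lemma numN_prod {G Q a c : ℝ} (hG : 0 < G) (hQ : 0 ≤ Q) (ha : 0 ≤ a) (hc : 0 < c)
    (h : c ^ 2 * (Q * a ^ 2) ≤ G ^ 3) : √(Q / G) * a ≤ G / c := by
  have h0 : 0 ≤ √(Q / G) * a := mul_nonneg (Real.sqrt_nonneg _) ha
  refine (sq_le_sq₀ h0 (by positivity)).1 ?_
  rw [mul_pow, Real.sq_sqrt (by positivity), div_pow, div_mul_eq_mul_div, div_le_div_iff₀ hG (by positivity)]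
  calc Q * a ^ 2 * c ^ 2 = c ^ 2 * (Q * a ^ 2) := by ring
    _ ≤ G ^ 3 := h
    _ = G ^ 2 * G := by ring

private lemma numN_tail {q g mm a E0 : ℕ} (hg15 : 10 ^ 15 ≤ g) (hgq : g ≤ q) (h1 : 999 * g ≤ 1000 * mm)
    (h2 : 999 * q ≤ 1000 * a) (h3 : a ≤ q) (hE : 610 * √((q : ℝ) / g) ≤ E0)
    (hE' : (E0 : ℝ) ≤ 610 * √((q : ℝ) / g) + 1) :
    600 * √((a : ℝ) / mm) ≤ E0 ∧
      ∀ T0 t D : ℝ, |T0| ≤ √((g : ℝ) * q) / 4 → D ≤ g / 100000 + 2 * E0 → |t - T0| ≤ D →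
        |t| ≤ √((mm : ℝ) * a) / 3 := by
  have hG : (10 ^ 15 : ℝ) ≤ g := by exact_mod_cast hg15
  have hGQ : (g : ℝ) ≤ q := by exact_mod_cast hgq
  have h1R : (999 : ℝ) * g ≤ 1000 * mm := by exact_mod_cast h1
  have h2R : (999 : ℝ) * q ≤ 1000 * a := by exact_mod_cast h2
  have h3R : (a : ℝ) ≤ q := by exact_mod_cast h3
  have ha0 : (0 : ℝ) ≤ a := Nat.cast_nonneg a
  generalize (g : ℝ) = G at *
  generalize (q : ℝ) = Q at *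
  generalize (mm : ℝ) = N at *
  generalize (a : ℝ) = A at *
  generalize (E0 : ℝ) = E at *
  have hG0 : 0 < G := by linarith [show (0 : ℝ) < 10 ^ 15 by norm_num]
  have hQ0 : 0 < Q := by linarith
  have hN0 : 0 < N := by linarith
  set X := √(Q / G) with hX
  have hX0 : 0 ≤ X := Real.sqrt_nonneg _
  have hX2 : X ^ 2 = Q / G := Real.sq_sqrt (by positivity)
  constructor
  · have h4 : √(A / N) ≤ 61 / 60 * X := by
      refine Real.sqrt_le_iff.2 ⟨by positivity, ?_⟩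
      rw [mul_pow, hX2, mul_div_assoc', div_le_div_iff₀ hN0 hG0]
      have h5 : A * G ≤ Q * G := mul_le_mul_of_nonneg_right h3R hG0.le
      have h6 : Q * (999 * G) ≤ Q * (1000 * N) := mul_le_mul_of_nonneg_left h1R hQ0.le
      have h7 : 0 < Q * G := mul_pos hQ0 hG0
      linarith
    linarith
  · intro T0 t D hT0 hD ht
    set R := √(G * Q) with hR
    have hR2 : R ^ 2 = G * Q := Real.sq_sqrt (by positivity)
    have hR0 : 0 ≤ R := Real.sqrt_nonneg _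
    have hRG : G ≤ R := Real.le_sqrt_of_sq_le (by nlinarith)
    have hXR : X * G = R := by
      have h4 : (X * G) ^ 2 = R ^ 2 := by
        rw [mul_pow, hX2, hR2]
        field_simp
      exact (pow_left_inj₀ (by positivity) hR0 (by norm_num)).1 h4
    have h5 : X ≤ R / 10 ^ 15 := by
      rw [le_div_iff₀ (by norm_num), ← hXR]
      exact mul_le_mul_of_nonneg_left hG hX0
    have h6 : 0.999 * R ≤ √(N * A) := by
      refine Real.le_sqrt_of_sq_le ?_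
      rw [mul_pow, hR2]
      have h7 : (999 * G) * (999 * Q) ≤ (1000 * N) * (1000 * A) :=
        mul_le_mul h1R h2R (by positivity) (by positivity)
      linarith
    have h8 : |t| ≤ |T0| + |t - T0| := by
      calc |t| = |T0 + (t - T0)| := by ring_nf
        _ ≤ |T0| + |t - T0| := abs_add_le _ _
    have h9 : (10 ^ 15 : ℝ) ≤ R := hG.trans hRG
    have h10 : R / 10 ^ 15 ≤ R / 1000000 := by
      rw [div_le_div_iff₀ (by norm_num) (by norm_num)]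
      exact mul_le_mul_of_nonneg_left (by norm_num) hR0
    have h11 : (1000000000000000 : ℝ) ≤ R := by
      refine le_trans (by norm_num) h9
    linarith

theorem num_oddN (p m q g : ℕ) (hp3 : 3 ≤ p) (hm : 2 ≤ m) (hq : q = p ^ (2 * m - 1))
    (hg : 10 ^ 15 * q ^ 2 * (Nat.log 2 q + 1) ^ 3 ≤ g ^ 3) (hg2 : g ≤ q) :
    ∃ E0 : ℕ, ∀ J : ℕ, J * p ≤ 2 * Nat.log 2 (p + 1) * p + 2 * E0 →
      (J + 1) * p ≤ q ∧ J * (p ^ m - p) ≤ g ∧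
      ∀ K g0 : ℕ, K ≤ J * p + 1 → g ≤ g0 + J * (p ^ m - p) → g0 ≤ g →
        K + 3 ≤ g0 ∧ K + 2 ≤ q ∧
        600 * √(((q - K : ℕ) : ℝ) / (min (g0 - K - 2) (q - K) : ℕ)) ≤ E0 ∧
        ∀ T0 t : ℝ, |T0| ≤ √((g : ℝ) * q) / 4 → |t - T0| ≤ p + 2 * E0 →
          |t| ≤ √((min (g0 - K - 2) (q - K) : ℕ) * ((q - K : ℕ) : ℝ)) / 3 := by
  obtain ⟨b1, b2, b3⟩ := numN_base (by omega) hm hq hg hg2
  set E0 := ⌈610 * √((q : ℝ) / g)⌉₊ with hE0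
  have hX0 : 0 ≤ √((q : ℝ) / g) := Real.sqrt_nonneg _
  have hE : 610 * √((q : ℝ) / g) ≤ E0 := Nat.le_ceil _
  have hE' : (E0 : ℝ) ≤ 610 * √((q : ℝ) / g) + 1 := (Nat.ceil_lt_add_one (by positivity)).le
  refine ⟨E0, fun J hJ => ?_⟩
  -- `M = p M'`
  obtain ⟨n, rfl⟩ : ∃ n, m = n + 1 := ⟨m - 1, by omega⟩
  obtain ⟨a, ha⟩ : ∃ a, a = p ^ n := ⟨_, rfl⟩
  obtain ⟨M, hM⟩ : ∃ M, M = p ^ (n + 1) := ⟨_, rfl⟩
  have hMa : M = p * a := by rw [hM, ha, pow_succ]; ring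
  have hqa : q = p * a ^ 2 := by
    rw [hq, ha, ← pow_mul, show 2 * (n + 1) - 1 = n * 2 + 1 by omega, pow_succ]
    ring
  have ha1 : 1 ≤ a := by rw [ha]; exact Nat.one_le_pow _ _ (by omega)
  have hp1 : p ≤ M := by rw [hMa]; exact Nat.le_mul_of_pos_right p ha1
  have haM : a ≤ M := by rw [hMa]; exact Nat.le_mul_of_pos_left a (by omega)
  rw [← hM] at b1 ⊢
  have hlog : Nat.log 2 (p + 1) ≤ Nat.log 2 q := by
    refine Nat.log_mono_right ?_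
    have h1 : p ≤ a := by rw [ha]; exact Nat.le_self_pow (by omega) p
    have h2 : p * a ≤ p * (a * a) := Nat.mul_le_mul_left _ (Nat.le_mul_of_pos_right a ha1)
    have h3 : 3 * a ≤ p * a := Nat.mul_le_mul_right a hp3
    rw [hqa, pow_two]
    omega
  obtain ⟨l, hl⟩ : ∃ l, l = Nat.log 2 q := ⟨_, rfl⟩
  obtain ⟨L, hL⟩ : ∃ L, L = Nat.log 2 (p + 1) := ⟨_, rfl⟩
  rw [← hl] at b1
  rw [← hl, ← hL] at hlog
  rw [← hL] at hJ
  -- real inequalities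
  have hG : (10 ^ 15 : ℝ) ≤ g := by exact_mod_cast b2
  have hG0 : (0 : ℝ) < g := by linarith [show (0 : ℝ) < 10 ^ 15 by norm_num]
  have b3R : (10 ^ 15 : ℝ) * (q : ℝ) ^ 2 ≤ (g : ℝ) ^ 3 := by exact_mod_cast b3
  have b1R : (100000 : ℝ) * M * (l + 1) ≤ g := by
    have h : ((10 ^ 5 * M * (l + 1) : ℕ) : ℝ) ≤ g := by exact_mod_cast b1
    push_cast at h
    norm_num at h
    exact h
  have hpR : (3 : ℝ) ≤ p := by exact_mod_cast hp3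
  have hqaR : (q : ℝ) = p * (a : ℝ) ^ 2 := by exact_mod_cast hqa
  have haR : (0 : ℝ) ≤ a := Nat.cast_nonneg a
  have hXa : √((q : ℝ) / g) * a ≤ g / 50000000 := by
    refine numN_prod hG0 (Nat.cast_nonneg q) haR (by norm_num) ?_
    have h1 : 3 * (a : ℝ) ^ 2 ≤ q := by
      rw [hqaR]
      exact mul_le_mul_of_nonneg_right hpR (by positivity)
    have h2 : (q : ℝ) * (3 * (a : ℝ) ^ 2) ≤ q * q := mul_le_mul_of_nonneg_left h1 (Nat.cast_nonneg q)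
    have h3 : (q : ℝ) * q = (q : ℝ) ^ 2 := by ring
    have h4 : (0 : ℝ) ≤ (q : ℝ) ^ 2 := by positivity
    rw [h3] at h2
    have h5 : (1000000000000000 : ℝ) * (q : ℝ) ^ 2 ≤ (g : ℝ) ^ 3 := by
      refine le_trans (le_of_eq ?_) b3R
      norm_num
    have h6 : (50000000 : ℝ) ^ 2 * ((q : ℝ) * (a : ℝ) ^ 2) = 2500000000000000 * ((q : ℝ) * (a : ℝ) ^ 2) := by
      norm_num
    rw [h6]
    linarith
  have hJM : 20000 * (J * M) ≤ g := by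
    have h1 : ((J * p : ℕ) : ℝ) ≤ ((2 * L * p + 2 * E0 : ℕ) : ℝ) := by exact_mod_cast hJ
    push_cast at h1
    have h2 := mul_le_mul_of_nonneg_right h1 haR
    have h3 : (L : ℝ) * M ≤ l * M :=
      mul_le_mul_of_nonneg_right (by exact_mod_cast hlog) (Nat.cast_nonneg M)
    have h4 : (E0 : ℝ) * a ≤ (610 * √((q : ℝ) / g) + 1) * a := mul_le_mul_of_nonneg_right hE' haR
    have h5 : (M : ℝ) = p * a := by exact_mod_cast hMa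
    have h6 : (a : ℝ) ≤ M := by exact_mod_cast haM
    have h7 : (20000 : ℝ) * (J * M) ≤ g := by
      have e1 : (J : ℝ) * M = J * p * a := by rw [h5]; ring
      have e2 : (2 * (L : ℝ) * p + 2 * E0) * a = 2 * (L * M) + 2 * (E0 * a) := by rw [h5]; ring
      have e3 : (610 * √((q : ℝ) / g) + 1) * a = 610 * (√((q : ℝ) / g) * a) + a := by ring
      have e4 : (100000 : ℝ) * M * (l + 1) = 100000 * (l * M) + 100000 * M := by ring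
      rw [e4] at b1R
      rw [← e1, e2] at h2
      rw [e3] at h4
      linarith
    exact_mod_cast h7
  have hJp : J * p ≤ J * M := Nat.mul_le_mul_left J hp1
  have hJD : J * (M - p) ≤ J * M := Nat.mul_le_mul_left J (Nat.sub_le M p)
  have hMg : 10 ^ 5 * M ≤ g := by
    have : 10 ^ 5 * M * 1 ≤ 10 ^ 5 * M * (l + 1) := Nat.mul_le_mul_left _ (by omega)
    omega
  have hJp1 : (J + 1) * p = J * p + p := by ring
  rw [hJp1]
  generalize J * M = N at *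
  generalize J * p = P at *
  generalize J * (M - p) = D at *
  norm_num at b2 hMg
  refine ⟨by omega, by omega, fun K g0 hK hg0 hg0' => ?_⟩
  obtain ⟨mm, hmm⟩ : ∃ mm, mm = min (g0 - K - 2) (q - K) := ⟨_, rfl⟩
  obtain ⟨A, hA⟩ : ∃ A, A = q - K := ⟨_, rfl⟩
  have c1 : 999 * g ≤ 1000 * mm := by
    rcases min_choice (g0 - K - 2) (q - K) with h | h <;> rw [hmm, h] <;> omega
  have c2 : 999 * q ≤ 1000 * A := by omega
  have c3 : A ≤ q := by omega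
  rw [← hmm, ← hA]
  obtain ⟨d1, d2⟩ := numN_tail (by norm_num; omega) hg2 c1 c2 c3 hE hE'
  refine ⟨by omega, by omega, d1, fun T0 t hT0 ht => d2 T0 t _ hT0 ?_ ht⟩
  have hMgR : (100000 : ℝ) * M ≤ g := by exact_mod_cast hMg
  have hpMR : (p : ℝ) ≤ M := by exact_mod_cast hp1
  linarith

theorem num_twoN (m q g : ℕ) (hm : 2 ≤ m) (hq : q = 2 ^ (2 * m - 1))
    (hg : 10 ^ 15 * q ^ 2 * (Nat.log 2 q + 1) ^ 3 ≤ g ^ 3) (hg2 : g ≤ q) :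
    ∃ E0 : ℕ, 4 * (1 + (E0 + 1) * (2 * 2 ^ m - 2)) + 8 ≤ q ∧ (2 * (E0 + 1) + 1) * 2 ≤ q ∧
      (E0 + 1) * (2 * 2 ^ m - 2) + 2 ≤ g ∧
      ∀ K g0 : ℕ, K ≤ 4 * (E0 + 1) → g ≤ g0 + (E0 + 1) * (2 * 2 ^ m - 2) + 1 → g0 ≤ g →
        K + 1 ≤ g0 ∧ K + 2 ≤ q ∧
        241 * √(((q - K : ℕ) : ℝ) / (min (g0 - K) (q - K) : ℕ)) ≤ E0 ∧
        ∀ T0 t : ℝ, |T0| ≤ √((g : ℝ) * q) / 4 → |t - T0| ≤ E0 + 1 →
          |t| ≤ √((min (g0 - K) (q - K) : ℕ) * ((q - K : ℕ) : ℝ)) / 3 := by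
  obtain ⟨b1, b2, b3⟩ := numN_base (by omega) hm hq hg hg2
  set E0 := ⌈610 * √((q : ℝ) / g)⌉₊ with hE0
  have hX0 : 0 ≤ √((q : ℝ) / g) := Real.sqrt_nonneg _
  have hE : 610 * √((q : ℝ) / g) ≤ E0 := Nat.le_ceil _
  have hE' : (E0 : ℝ) ≤ 610 * √((q : ℝ) / g) + 1 := (Nat.ceil_lt_add_one (by positivity)).le
  refine ⟨E0, ?_⟩
  obtain ⟨M, hM⟩ : ∃ M, M = 2 ^ m := ⟨_, rfl⟩
  have hM2 : M ^ 2 = 2 * q := by
    rw [hq, hM, ← pow_mul, ← pow_succ']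
    congr 1
    omega
  have hM4 : 4 ≤ M := by
    rw [hM]
    calc 4 = 2 ^ 2 := by norm_num
      _ ≤ 2 ^ m := Nat.pow_le_pow_right (by norm_num) hm
  rw [← hM] at b1 ⊢
  obtain ⟨l, hl⟩ : ∃ l, l = Nat.log 2 q := ⟨_, rfl⟩
  rw [← hl] at b1
  have hG : (10 ^ 15 : ℝ) ≤ g := by exact_mod_cast b2
  have hG0 : (0 : ℝ) < g := by linarith [show (0 : ℝ) < 10 ^ 15 by norm_num]
  have b3R : (10 ^ 15 : ℝ) * (q : ℝ) ^ 2 ≤ (g : ℝ) ^ 3 := by exact_mod_cast b3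
  have hMg : 10 ^ 5 * M ≤ g := by
    have : 10 ^ 5 * M * 1 ≤ 10 ^ 5 * M * (l + 1) := Nat.mul_le_mul_left _ (by omega)
    omega
  have hMgR : (100000 : ℝ) * M ≤ g := by
    have h : ((10 ^ 5 * M : ℕ) : ℝ) ≤ g := by exact_mod_cast hMg
    push_cast at h
    norm_num at h
    exact h
  have hM2R : (M : ℝ) ^ 2 = 2 * q := by exact_mod_cast hM2
  have hMR : (0 : ℝ) ≤ M := Nat.cast_nonneg M
  have hXM : √((q : ℝ) / g) * M ≤ g / 20000000 := by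
    refine numN_prod hG0 (Nat.cast_nonneg q) hMR (by norm_num) ?_
    rw [hM2R]
    have h4 : (0 : ℝ) ≤ (q : ℝ) ^ 2 := by positivity
    have h5 : (q : ℝ) * (2 * q) = 2 * (q : ℝ) ^ 2 := by ring
    rw [h5]
    have h6 : (1000000000000000 : ℝ) * (q : ℝ) ^ 2 ≤ (g : ℝ) ^ 3 := by
      refine le_trans (le_of_eq ?_) b3R
      norm_num
    have h7 : (20000000 : ℝ) ^ 2 * (2 * (q : ℝ) ^ 2) = 800000000000000 * (q : ℝ) ^ 2 := by
      norm_num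
      ring
    rw [h7]
    linarith
  have hJM : 19000 * ((E0 + 1) * M) ≤ g := by
    have h4 : (E0 : ℝ) * M ≤ (610 * √((q : ℝ) / g) + 1) * M := mul_le_mul_of_nonneg_right hE' hMR
    have h7 : (19000 : ℝ) * ((E0 + 1) * M) ≤ g := by
      have e1 : ((E0 : ℝ) + 1) * M = E0 * M + M := by ring
      have e3 : (610 * √((q : ℝ) / g) + 1) * M = 610 * (√((q : ℝ) / g) * M) + M := by ring
      rw [e1]
      rw [e3] at h4
      linarith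
    exact_mod_cast h7
  have hJD : (E0 + 1) * (2 * M - 2) ≤ 2 * ((E0 + 1) * M) := by
    calc (E0 + 1) * (2 * M - 2) ≤ (E0 + 1) * (2 * M) := Nat.mul_le_mul_left _ (Nat.sub_le _ _)
      _ = 2 * ((E0 + 1) * M) := by ring
  have hEM : 4 * (E0 + 1) ≤ (E0 + 1) * M := by
    calc 4 * (E0 + 1) = (E0 + 1) * 4 := by ring
      _ ≤ (E0 + 1) * M := Nat.mul_le_mul_left _ hM4
  obtain ⟨N, hN⟩ : ∃ N, N = (E0 + 1) * M := ⟨_, rfl⟩
  obtain ⟨D, hD⟩ : ∃ D, D = (E0 + 1) * (2 * M - 2) := ⟨_, rfl⟩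
  rw [← hN] at hJM hJD hEM
  rw [← hD] at hJD ⊢
  norm_num at b2 hMg
  refine ⟨by omega, by omega, by omega, fun K g0 hK hg0 hg0' => ?_⟩
  obtain ⟨mm, hmm⟩ : ∃ mm, mm = min (g0 - K) (q - K) := ⟨_, rfl⟩
  obtain ⟨A, hA⟩ : ∃ A, A = q - K := ⟨_, rfl⟩
  have c1 : 999 * g ≤ 1000 * mm := by
    rcases min_choice (g0 - K) (q - K) with h | h <;> rw [hmm, h] <;> omega
  have c2 : 999 * q ≤ 1000 * A := by omega
  have c3 : A ≤ q := by omega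
  rw [← hmm, ← hA]
  obtain ⟨d1, d2⟩ := numN_tail (by norm_num; omega) hg2 c1 c2 c3 hE hE'
  refine ⟨by omega, by omega, ?_, fun T0 t hT0 ht => d2 T0 t _ hT0 ?_ ht⟩
  · have : 0 ≤ √((A : ℝ) / mm) := Real.sqrt_nonneg _
    linarith
  · have h1 : (0 : ℝ) ≤ E0 := Nat.cast_nonneg E0
    have h2 : (1000000000000000 : ℝ) ≤ g := by
      refine le_trans (by norm_num) hG
    linarith

end Pool.Agent.H45.VN
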