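import Pool.Agent.H45.VN.Cnt

/-!
# The flip polynomial of a coset, odd `p`

PROOF. Choose `β ∈ k` with `chi (-1 - β) = ε`, `β ≠ 0`, `Good p m β`, and `ap`, `bp` (composed with `X - C a`)
coprime to `f`: the first condition has `(q - 1) / 2` solutions, the others exclude at most
`1 + (q / p - 1) + 2 natDegree f ≤ q / 3 + 2 natDegree f` values (`card_bad`, `card_kill_a`, `card_kill_b`,
`p ≥ 3`), fewer than `(q - 1) / 2` since `12 natDegree f + 36 ≤ q`. `β ≠ -1` because `chi (-1 - β) ≠ 0`.
`F = (ap p m β * bp p m β).comp (X - C a)`. Degree `2 (p ^ m - p)`. Squarefree: `ap`, `bp` are squarefree (factors of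
`sq_uap`, `sq_ubp`) and coprime (`coprime_ab`); composition with `X - C a` preserves this (automorphism; see
`tt_squarefree` in `H45/VS/TPol`). At `x`, with `y = x - a`: if `y ^ p = y` the value is `(β + 1) (-1) = -1 - β`,
`chi = ε`. Otherwise `w = y ^ p - y ≠ 0` and `w ^ 2 F(x) = (w ap(y)) (w bp(y)) = (w ap(y)) ^ (p ^ (m - 1) + 1)`
(`eval_pow`), an even power (`p` odd) of a nonzero element (`Good`): `chi (F x) = 1`.
-/

namespace Pool.Agent.H45.VN

open Finset Polynomial Pool.Agent.H35.VQ Pool.Agent.H45.VS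

variable {k : Type} [Field k] [Fintype k] [DecidableEq k]

private theorem sep_comp (f : k[X]) (hf : f.Separable) (x₀ : k) :
    (f.comp (X - C x₀)).Separable := by
  have h : IsCoprime ((compRingHom (X - C x₀ : k[X])) f)
      ((compRingHom (X - C x₀ : k[X])) (derivative f)) :=
    IsCoprime.map hf (compRingHom (X - C x₀ : k[X]))
  have h2 : derivative (f.comp (X - C x₀)) = (derivative f).comp (X - C x₀) := by
    rw [derivative_comp]
    simp
  rw [Separable, h2]
  exact h

private theorem two_card (hk : ringChar k ≠ 2) (ε : ℝ) (hε : ε = 1 ∨ ε = -1) :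
    Fintype.card k - 1 = 2 * (Finset.univ.filter fun β : k => chi (-1 - β) = ε).card := by
  classical
  have hs : ∑ β : k, chi (-1 - β) = 0 := by
    rw [← sum_chi hk]
    exact Fintype.sum_equiv (Equiv.subLeft (-1 : k)) _ _ fun x => rfl
  have h1 : ∀ β : k, chi (-1 - β) ^ 2 + ε * chi (-1 - β) =
      2 * (if chi (-1 - β) = ε then 1 else 0) - (if β = -1 then 0 else 0) := by
    intro β
    by_cases h0 : (-1 - β : k) = 0
    · rw [h0, chi_zero]
      rcases hε with rfl | rfl <;> norm_num
    · have h2 := chi_sq h0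
      have h3 : (chi (-1 - β) - 1) * (chi (-1 - β) + 1) = 0 := by linear_combination h2
      rcases mul_eq_zero.1 h3 with h | h
      · have h4 : chi (-1 - β) = 1 := by linarith
        rw [h4]
        rcases hε with rfl | rfl <;> norm_num
      · have h4 : chi (-1 - β) = -1 := by linarith
        rw [h4]
        rcases hε with rfl | rfl <;> norm_num
  have h2 : ∑ β : k, chi (-1 - β) ^ 2 = (Fintype.card k : ℝ) - 1 := by
    have h3 : ∀ β : k, chi (-1 - β) ^ 2 = 1 - (if β = -1 then 1 else 0) := by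
      intro β
      by_cases h0 : β = -1
      · rw [if_pos h0, h0, sub_self, chi_zero]
        norm_num
      · rw [if_neg h0, sub_zero]
        exact chi_sq (fun h => h0 (sub_eq_zero.1 h).symm)
    rw [Finset.sum_congr rfl fun β _ => h3 β, Finset.sum_sub_distrib, Finset.sum_ite_eq' Finset.univ (-1 : k)]
    simp
  have h4 : ∑ β : k, (chi (-1 - β) ^ 2 + ε * chi (-1 - β)) =
      2 * ((Finset.univ.filter fun β : k => chi (-1 - β) = ε).card : ℝ) := by
    rw [Finset.sum_congr rfl fun β _ => h1 β]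
    simp only [ite_self, sub_zero]
    rw [← Finset.mul_sum, Finset.sum_boole]
  rw [Finset.sum_add_distrib, h2, ← Finset.mul_sum, hs, mul_zero, add_zero] at h4
  have h5 : ((Fintype.card k - 1 : ℕ) : ℝ) =
      ((2 * (Finset.univ.filter fun β : k => chi (-1 - β) = ε).card : ℕ) : ℝ) := by
    rw [Nat.cast_sub Fintype.card_pos, Nat.cast_one, h4, Nat.cast_mul]
    norm_num
  exact_mod_cast h5

private theorem chi_sq_one {a z w : k} (hz : z ≠ 0) (hw : w ≠ 0) (h : w ^ 2 * a = z ^ 2) : chi a = 1 := by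
  have h1 : a = (z / w) ^ 2 := by
    rw [div_pow, eq_div_iff (pow_ne_zero 2 hw)]
    linear_combination h
  rw [h1]
  unfold chi
  rw [quadraticChar_sq_one' (div_ne_zero hz hw)]
  norm_num

theorem exists_flip (p m : ℕ) (hp : p.Prime) (hp3 : 3 ≤ p) [CharP k p] (hm : 2 ≤ m)
    (hc : Fintype.card k = p ^ (2 * m - 1)) (f : k[X]) (hf : f ≠ 0)
    (hd : 12 * (f.natDegree + 3) ≤ Fintype.card k) (a : k) (ε : ℝ) (hε : ε = 1 ∨ ε = -1) :
    ∃ F : k[X], F.natDegree = 2 * p ^ m - 2 * p ∧ Squarefree F ∧ IsCoprime F f ∧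
      (∀ x, F.eval x ≠ 0) ∧ ∀ x, chi (F.eval x) = if x ∈ cs p a then ε else 1 := by
  classical
  have hk : ringChar k ≠ 2 := by
    rw [ringChar.eq k p]
    omega
  have hpm : p < p ^ m := by
    calc p = p ^ 1 := (pow_one p).symm
      _ < p ^ m := Nat.pow_lt_pow_right (by omega) (by omega)
  obtain ⟨β, hβS, hβB⟩ : ∃ β ∈ (Finset.univ.filter fun β : k => chi (-1 - β) = ε),
      β ∉ (((Finset.univ.filter fun β : k => ¬ Good p m β) ∪
        (Finset.univ.filter fun β : k => ¬ IsCoprime ((ap p m β).comp (X - C a)) f)) ∪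
        (Finset.univ.filter fun β : k => ¬ IsCoprime ((bp p m β).comp (X - C a)) f)) ∪ {0} := by
    apply Finset.exists_mem_notMem_of_card_lt_card
    have h1 := card_bad (k := k) p m hp hm hc
    have h2 := card_kill_a (k := k) p m hp hm f hf a
    have h3 := card_kill_b (k := k) p m hp hm f hf a
    have h4 := two_card hk ε hε
    have h5 := Finset.card_union_le (((Finset.univ.filter fun β : k => ¬ Good p m β) ∪
        (Finset.univ.filter fun β : k => ¬ IsCoprime ((ap p m β).comp (X - C a)) f)) ∪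
        (Finset.univ.filter fun β : k => ¬ IsCoprime ((bp p m β).comp (X - C a)) f)) {0}
    have h6 := Finset.card_union_le ((Finset.univ.filter fun β : k => ¬ Good p m β) ∪
        (Finset.univ.filter fun β : k => ¬ IsCoprime ((ap p m β).comp (X - C a)) f))
        (Finset.univ.filter fun β : k => ¬ IsCoprime ((bp p m β).comp (X - C a)) f)
    have h7 := Finset.card_union_le (Finset.univ.filter fun β : k => ¬ Good p m β)
        (Finset.univ.filter fun β : k => ¬ IsCoprime ((ap p m β).comp (X - C a)) f)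
    rw [Finset.card_singleton] at h5
    have h8 : 3 * ((Finset.univ.filter fun β : k => ¬ Good p m β).card + 1) ≤ Fintype.card k :=
      le_trans (Nat.mul_le_mul_right _ hp3) h1
    omega
  simp only [Finset.mem_union, Finset.mem_filter, Finset.mem_univ, true_and, Finset.mem_singleton,
    not_or, not_not] at hβS hβB
  obtain ⟨⟨⟨hG, hca⟩, hcb⟩, hβ0⟩ := hβB
  have hε0 : ε ≠ 0 := by
    rcases hε with rfl | rfl <;> norm_num
  have hβ1 : β ≠ -1 := by
    rintro rfl
    rw [sub_self, chi_zero] at hβS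
    exact hε0 hβS.symm
  have hda := ap_natDegree (k := k) p m hp hm β
  have hdb := bp_natDegree (k := k) p m hp hm β hβ0
  have ha0 : ap p m β ≠ 0 := by
    intro h
    rw [h, natDegree_zero] at hda
    omega
  have hb0 : bp p m β ≠ 0 := by
    intro h
    rw [h, natDegree_zero] at hdb
    omega
  have hval : ∀ x, ((ap p m β * bp p m β).comp (X - C a)).eval x ≠ 0 ∧
      chi (((ap p m β * bp p m β).comp (X - C a)).eval x) = if x ∈ cs p a then ε else 1 := by
    intro x
    have hev : ((ap p m β * bp p m β).comp (X - C a)).eval x =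
        (ap p m β).eval (x - a) * (bp p m β).eval (x - a) := by
      rw [eval_comp, eval_mul, eval_sub, eval_X, eval_C]
    have hmem : x ∈ cs p a ↔ (x - a) ^ p = x - a := by
      simp [cs]
    rw [hev]
    by_cases hy : (x - a) ^ p = x - a
    · rw [if_pos (hmem.2 hy), ap_prime p m hp hm β _ hy, bp_prime p m hp hm β _ hy]
      have h1 : (β + 1) * (-1) = -1 - β := by ring
      rw [h1]
      refine ⟨?_, hβS⟩
      intro h0
      rw [h0, chi_zero] at hβS
      exact hε0 hβS.symm
    · rw [if_neg fun h => hy (hmem.1 h)]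
      have hw : (x - a) ^ p - (x - a) ≠ 0 := sub_ne_zero.2 hy
      have hA := hG _ hy
      have hz : ((x - a) ^ p - (x - a)) * (ap p m β).eval (x - a) ≠ 0 := mul_ne_zero hw hA
      have he := eval_pow p m hp hm hc β (x - a)
      have hB : (bp p m β).eval (x - a) ≠ 0 := by
        intro h0
        rw [h0, mul_zero] at he
        exact pow_ne_zero _ hz he.symm
      refine ⟨mul_ne_zero hA hB, ?_⟩
      have hodd : Odd (p ^ (m - 1)) := by
        apply Odd.pow
        rcases hp.eq_two_or_odd' with h | h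
        · omega
        · exact h
      obtain ⟨r, hr⟩ := hodd
      refine chi_sq_one (z := (((x - a) ^ p - (x - a)) * (ap p m β).eval (x - a)) ^ (r + 1))
        (pow_ne_zero _ hz) hw ?_
      have h1 : (((x - a) ^ p - (x - a)) * (ap p m β).eval (x - a)) ^ p ^ (m - 1) *
          (((x - a) ^ p - (x - a)) * (ap p m β).eval (x - a)) =
          ((((x - a) ^ p - (x - a)) * (ap p m β).eval (x - a)) ^ (r + 1)) ^ 2 := by
        rw [hr, ← pow_succ, ← pow_mul]
        congr 1
        ring
      rw [← h1, ← he]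
      ring
  refine ⟨(ap p m β * bp p m β).comp (X - C a), ?_, ?_, ?_, fun x => (hval x).1, fun x => (hval x).2⟩
  · rw [natDegree_comp, natDegree_X_sub_C, mul_one, natDegree_mul ha0 hb0, hda, hdb]
    omega
  · have h1 : Squarefree (ap p m β) :=
      (sq_uap p m hp hm β hβ1).squarefree_of_dvd (Dvd.intro_left _ rfl)
    have h2 : Squarefree (bp p m β) :=
      (sq_ubp p m hp hm β).squarefree_of_dvd (Dvd.intro_left _ rfl)
    have h3 : Squarefree (ap p m β * bp p m β) :=
      squarefree_mul_iff.2 ⟨(coprime_ab p m hp hm hc β hβ1 hG).isRelPrime, h1, h2⟩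
    exact (sep_comp _ (PerfectField.separable_iff_squarefree.2 h3) a).squarefree
  · rw [mul_comp]
    exact IsCoprime.mul_left hca hcb

/-- several flips. PROOF: induction on `J` (`Fin.prod_univ_castSucc`), applying `exists_flip` with
`f * P` for the product `P` found so far. -/
theorem exists_flips (p m : ℕ) (hp : p.Prime) (hp3 : 3 ≤ p) [CharP k p] (hm : 2 ≤ m)
    (hc : Fintype.card k = p ^ (2 * m - 1)) (f : k[X]) (hf : f ≠ 0) (J : ℕ)
    (hd : 12 * (f.natDegree + J * (2 * p ^ m - 2 * p) + 3) ≤ Fintype.card k) (a : Fin J → k)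
    (ε : Fin J → ℝ) (hε : ∀ i, ε i = 1 ∨ ε i = -1) :
    ∃ P : k[X], P.natDegree = J * (2 * p ^ m - 2 * p) ∧ Squarefree P ∧ IsCoprime P f ∧
      (∀ x, P.eval x ≠ 0) ∧ ∀ x, chi (P.eval x) = ∏ i, if x ∈ cs p (a i) then ε i else 1 := by
  induction J with
  | zero =>
    refine ⟨1, by simp, squarefree_one, isCoprime_one_left, fun x => by simp, fun x => ?_⟩
    rw [eval_one, Fin.prod_univ_zero]
    unfold chi
    simp
  | succ J ih =>
    have e1 : (J + 1) * (2 * p ^ m - 2 * p) = J * (2 * p ^ m - 2 * p) + (2 * p ^ m - 2 * p) := by ring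
    rw [e1] at hd
    obtain ⟨P, hP1, hP2, hP3, hP4, hP5⟩ := ih (by omega) (fun i => a i.castSucc) (fun i => ε i.castSucc)
      fun i => hε _
    have hP0 : P ≠ 0 := hP2.ne_zero
    obtain ⟨F, hF1, hF2, hF3, hF4, hF5⟩ := exists_flip p m hp hp3 hm hc (f * P) (mul_ne_zero hf hP0)
      (by rw [natDegree_mul hf hP0, hP1]; omega) (a (Fin.last J)) (ε (Fin.last J)) (hε _)
    have hFf : IsCoprime F f := hF3.of_mul_right_left
    have hFP : IsCoprime F P := hF3.of_mul_right_right
    refine ⟨P * F, ?_, ?_, IsCoprime.mul_left hP3 hFf, ?_, ?_⟩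
    · rw [natDegree_mul hP0 hF2.ne_zero, hP1, hF1, e1]
    · exact squarefree_mul_iff.2 ⟨hFP.symm.isRelPrime, hP2, hF2⟩
    · intro x
      rw [eval_mul]
      exact mul_ne_zero (hP4 x) (hF4 x)
    · intro x
      rw [eval_mul, chi_mul, hP5, hF5, Fin.prod_univ_castSucc]

end Pool.Agent.H45.VN
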