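import Pool.Agent.H45.VN.Base2
import Pool.Agent.H45.VN.TOdd
import Pool.Agent.H45.VN.CombN
import Pool.Agent.H45.VN.CosN
import Pool.Agent.H45.VN.AsmN
import Pool.Agent.H45.VN.NumN

/-!
# Final assembly, odd `p`

PROOF. `q = card k`, `M = p ^ m`. `E₀` from `num_oddN`, `J`, `b` from `comb_subset p E₀`, `a : Fin (J + 1) → k` from
`exists_cosets`, `x₀ = a (Fin.last J)`, `a' i = a i.castSucc`. Let `e = 1` if `N` is even and `e = 0` if `N` is odd.
`T₁ = ⋃ i, cs p (a' i)` (`J p` elements), `T = T₁` or `T₁ ∪ {x₀}` (`x₀ ∉ T₁`: `self_mem_cs`, disjoint), `K = |T| = J p + e`.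
`v₁` from `exists_patN` (`F = chi`, `u = 1`, `w` a nonsquare, sums `b i`, odd like `p`), `v x = v₁ x / (x - x₀) ^ e` for
`x ∈ T₁`, `v x₀ = 1`; `tw x = chi (x - x₀)` if `e = 1`, `tw x = 1` if `e = 0`. `g₀ = g - J (M - p)`, `d = 2 g₀ + 1 - e`,
`g' = g₀ - K - 2`. `base2` with `t = T₀ - ∑ b + E₀`, `T₀ = N - (q + 1)`: `f₁`, `S = ∑ x ∈ Tᶜ, tw x * chi (f₁ x)`,
`|S - t| ≤ E₀` (`|t - T₀| ≤ ∑ b + E₀ ≤ p + 2 E₀`). `f₀ = (X - C x₀) ^ e * f₁`, squarefree (`f₁` has no zero), of degree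
`2 g₀ + 1`; `chi (f₀ x) = tw x * chi (f₁ x)` for `x ∉ T`, `= chi (v₁ x)` for `x ∈ T₁`, `f₀ x₀ = 0` if `e = 1`.
`Δ = S + ∑ b - T₀` is an integer with `0 ≤ Δ ≤ 2 E₀`. Parity: `S` is a sum of `q - J p - e` signs, the `b i` are odd:
`S + ∑ b ≡ q - J p - e + J ≡ 1 - e`, `T₀ = N - (q + 1) ≡ N ≡ 1 - e` mod 2 (`q`, `p` odd). So `Δ = 2 m'`, `m' ≤ E₀`,
`m' = ∑ i ∈ I, b i` for some `I`. `ε i = -1` for `i ∈ I`, `1` otherwise; `exists_flips` for `f₀`:
`12 (2 g₀ + 1 + J (2 M - 2 p) + 3) = 24 g + 48 ≤ q`. `asm_flip`: `f₀ * P` has degree `2 g₀ + 1 + J (2 M - 2 p) = 2 g + 1`, and by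
`flip_sum` the sum is `∑ x ∈ T₁ᶜ, chi (f₀ x) + ∑ i, ε i * b i = S + ∑ b - 2 ∑_{I} b = S + ∑ b - Δ = T₀` (the point `x₀`
contributes `chi 0 = 0` if `e = 1`).
-/

namespace Pool.Agent.H45.VN

open Finset Polynomial Pool.Agent.H35.VQ Pool.Agent.H45.VS

variable {k : Type} [Field k] [Fintype k] [DecidableEq k]

private theorem finon_chi_int (z : k) : chi z = ((quadraticChar k z : ℤ) : ℝ) := rfl

private theorem finon_chi_mul (x y : k) : chi (x * y) = chi x * chi y := by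
  rw [finon_chi_int, finon_chi_int, finon_chi_int, map_mul]
  push_cast
  ring

private theorem finon_chi_zero : chi (0 : k) = 0 := by
  rw [finon_chi_int, MulChar.map_zero]
  simp

private theorem finon_chi_one : chi (1 : k) = 1 := by
  rw [finon_chi_int, map_one]
  simp

private theorem finon_chi_pm (z : k) (hz : z ≠ 0) : quadraticChar k z = 1 ∨ quadraticChar k z = -1 :=
  quadraticChar_dichotomy hz

private theorem finon_even_sum {ι : Type*} (s : Finset ι) (f : ι → ℤ) (h : ∀ i ∈ s, Odd (f i)) :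
    Even (∑ i ∈ s, f i + s.card) := by
  classical
  induction s using Finset.induction_on with
  | empty => simp
  | insert a s ha ih =>
    rw [Finset.sum_insert ha, Finset.card_insert_of_notMem ha]
    have h1 := ih fun i hi => h i (Finset.mem_insert_of_mem hi)
    have h2 := h a (Finset.mem_insert_self a s)
    obtain ⟨c, hc⟩ := h1
    obtain ⟨d, hd⟩ := h2
    refine ⟨c + d + 1, ?_⟩
    push_cast
    linarith

omit [Fintype k] [DecidableEq k] in
private theorem finon_sqf (e : ℕ) (he : e = 0 ∨ e = 1) (x0 : k) (f : k[X]) (hf : Squarefree f)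
    (hz : f.eval x0 ≠ 0) : Squarefree ((X - C x0) ^ e * f) := by
  rcases he with rfl | rfl
  · rwa [pow_zero, one_mul]
  · rw [pow_one, squarefree_mul_iff]
    refine ⟨?_, (Polynomial.irreducible_X_sub_C x0).squarefree, hf⟩
    apply IsCoprime.isRelPrime
    rw [(Polynomial.irreducible_X_sub_C x0).coprime_iff_not_dvd, Polynomial.dvd_iff_isRoot]
    exact hz

theorem final_oddN (p m : ℕ) (hp : p.Prime) (hp3 : 3 ≤ p) [CharP k p] (hm : 2 ≤ m)
    (hc : Fintype.card k = p ^ (2 * m - 1)) (g : ℕ)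
    (hg : 10 ^ 15 * Fintype.card k ^ 2 * (Nat.log 2 (Fintype.card k) + 1) ^ 3 ≤ g ^ 3)
    (hg2 : 24 * g + 48 ≤ Fintype.card k) (N : ℕ)
    (hN : |(N : ℝ) - (Fintype.card k + 1)| ≤ √((g : ℝ) * Fintype.card k) / 4) :
    ∃ C : Hyp k g, C.numPoints = N := by
  classical
  have hr : ringChar k ≠ 2 := by
    rw [ringChar.eq k p]
    omega
  have hk : (2 : k) ≠ 0 := Ring.two_ne_zero hr
  have hm1 : 1 ≤ 2 * m - 1 := by omega
  have hpodd : Odd p := hp.odd_of_ne_two (by omega)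
  have hqodd : Odd (Fintype.card k) := by
    rw [hc]
    exact hpodd.pow
  obtain ⟨E0, hE⟩ := num_oddN p m (Fintype.card k) g hp3 hm hc hg (by omega)
  obtain ⟨J, b, hJp, hb, hbs, hbI⟩ := comb_subset p E0 hp3
  obtain ⟨hJ1, hJg, hnum⟩ := hE J hJp
  obtain ⟨a, ha⟩ := exists_cosets p (2 * m - 1) hp hm1 hc J hJ1
  obtain ⟨x0, hx0⟩ : ∃ x0, x0 = a (Fin.last J) := ⟨_, rfl⟩
  obtain ⟨a', ha'⟩ : ∃ a' : Fin J → k, a' = fun i => a i.castSucc := ⟨_, rfl⟩
  have hdis : ∀ i j, i ≠ j → Disjoint (cs p (a' i)) (cs p (a' j)) := by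
    intro i j hij
    rw [ha']
    exact ha _ _ fun h => hij (Fin.castSucc_injective J h)
  obtain ⟨T1, hT1⟩ : ∃ T1 : Finset k, T1 = Finset.univ.biUnion fun i => cs p (a' i) := ⟨_, rfl⟩
  have hT1c : T1.card = J * p := by
    rw [hT1]
    exact card_union_cs p (2 * m - 1) hp hm1 hc J a' hdis
  have hx0T : x0 ∉ T1 := by
    rw [hT1, Finset.mem_biUnion]
    rintro ⟨i, -, hi⟩
    have h1 : x0 ∈ cs p (a (Fin.last J)) := by
      rw [← hx0]
      exact self_mem_cs p hp x0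
    rw [ha'] at hi
    exact Finset.disjoint_left.1 (ha _ _ (Fin.castSucc_lt_last i).ne) hi h1
  obtain ⟨w, hw0, hw⟩ := exists_nonsq hr
  obtain ⟨v1, hv1u, hv1s⟩ := exists_patN p (2 * m - 1) hp hm1 hc J a' hdis chi (1 : k) w
    finon_chi_one hw b (fun i => by
      obtain ⟨-, h1, h2⟩ := hb i
      rw [abs_le]
      constructor <;> omega)
    (fun i => (hb i).1.add_odd (by exact_mod_cast hpodd))
  have hv10 : ∀ x, v1 x ≠ 0 := by
    intro x
    rcases hv1u x with h | h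
    · rw [h]
      exact one_ne_zero
    · rw [h]
      exact hw0
  obtain ⟨e, he, hNe⟩ : ∃ e : ℕ, (e = 0 ∨ e = 1) ∧ Odd (N + e) := by
    rcases Nat.even_or_odd N with h | h
    · exact ⟨1, Or.inr rfl, h.add_one⟩
    · exact ⟨0, Or.inl rfl, by simpa using h⟩
  obtain ⟨Xs, hXc, hXm⟩ : ∃ Xs : Finset k, Xs.card = e ∧ ∀ x, x ∈ Xs ↔ e = 1 ∧ x = x0 := by
    rcases he with rfl | rfl
    · exact ⟨∅, rfl, fun x => by simp⟩
    · exact ⟨{x0}, by simp, fun x => by simp⟩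
  have hdX : Disjoint T1 Xs := by
    rw [Finset.disjoint_left]
    intro x hx hx2
    rw [((hXm x).1 hx2).2] at hx
    exact hx0T hx
  obtain ⟨T, hT⟩ : ∃ T : Finset k, T = T1 ∪ Xs := ⟨_, rfl⟩
  have hTc : T.card = J * p + e := by
    rw [hT, Finset.card_union_of_disjoint hdX, hT1c, hXc]
  have hpe : ∀ x, x ∉ Xs → (x - x0) ^ e ≠ 0 := by
    intro x hx
    rcases he with rfl | rfl
    · rw [pow_zero]
      exact one_ne_zero
    · rw [pow_one]
      intro h
      exact hx ((hXm x).2 ⟨rfl, sub_eq_zero.1 h⟩)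
  have hpe0 : ∀ x, x ∈ Xs → (x - x0) ^ e = 0 := by
    intro x hx
    obtain ⟨h1, h2⟩ := (hXm x).1 hx
    rw [h1, h2, sub_self, pow_one]
  obtain ⟨v, hv⟩ : ∃ v : k → k, v = fun x => if x ∈ T1 then v1 x / (x - x0) ^ e else 1 := ⟨_, rfl⟩
  have hv0 : ∀ x ∈ T, v x ≠ 0 := by
    intro x _
    rw [hv]
    dsimp only
    split_ifs with h
    · exact div_ne_zero (hv10 x) (hpe x fun h2 => Finset.disjoint_left.1 hdX h h2)
    · exact one_ne_zero
  obtain ⟨D, hD⟩ : ∃ D, D = p ^ m - p := ⟨_, rfl⟩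
  have h2D : 2 * p ^ m - 2 * p = 2 * D := by omega
  rw [← hD] at hJg hnum
  obtain ⟨g0, hg0⟩ : ∃ g0, g = g0 + J * D := ⟨g - J * D, by omega⟩
  obtain ⟨hn1, hn2, hn3, hn4⟩ := hnum (J * p + e) g0 (by omega) hg0.le (by omega)
  obtain ⟨T0, hT0⟩ : ∃ T0 : ℝ, T0 = (N : ℝ) - (Fintype.card k + 1) := ⟨_, rfl⟩
  obtain ⟨Bz, hBz⟩ : ∃ Bz : ℤ, Bz = ∑ i, b i := ⟨_, rfl⟩
  have hB0 : 0 ≤ Bz := by
    rw [hBz]
    exact Finset.sum_nonneg fun i _ => by
      have := (hb i).2.1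
      omega
  have hBr0 : (0 : ℝ) ≤ Bz := by exact_mod_cast hB0
  have hBr : (Bz : ℝ) ≤ p + E0 := by
    rw [← hBz] at hbs
    exact_mod_cast hbs
  have ht := hn4 T0 (T0 - Bz + E0) (by rw [hT0]; exact hN) (by
    rw [show T0 - (Bz : ℝ) + E0 - T0 = E0 - Bz by ring, abs_le]
    have h1 : (0 : ℝ) ≤ E0 := by positivity
    have h2 : (0 : ℝ) ≤ p := by positivity
    constructor <;> linarith)
  obtain ⟨f1, hm0, hd0, hsq, hfv, hfz, hS⟩ := base2 hk (by omega) T v hv0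
    (fun x => chi ((x - x0) ^ e)) (by
      intro x hx
      have h1 : (x - x0) ^ e ≠ 0 := hpe x fun h => hx (by
        rw [hT]
        exact Finset.mem_union_right _ h)
      rw [finon_chi_int]
      rcases finon_chi_pm _ h1 with h | h
      · left
        rw [h]
        norm_num
      · right
        rw [h]
        norm_num) (2 * g0 + 1 - e) (g0 - (J * p + e) - 2) (by omega) (by rw [hTc]; omega)
    (by rw [hTc]; exact hn2) (T0 - Bz + E0) (by rw [hTc]; exact ht)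
  rw [hTc] at hS
  have hS' := hS.trans hn3
  obtain ⟨f0, hf0⟩ : ∃ f0 : k[X], f0 = (X - C x0) ^ e * f1 := ⟨_, rfl⟩
  have hev : ∀ x, f0.eval x = (x - x0) ^ e * f1.eval x := by
    intro x
    rw [hf0, Polynomial.eval_mul, Polynomial.eval_pow, Polynomial.eval_sub, Polynomial.eval_X, Polynomial.eval_C]
  have hsq0 : Squarefree f0 := by
    rw [hf0]
    exact finon_sqf e he x0 f1 hsq (hfz x0)
  have hf0m : f0.Monic := by
    rw [hf0]
    exact ((monic_X_sub_C x0).pow e).mul hm0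
  have hf0d : f0.natDegree = 2 * g0 + 1 := by
    rw [hf0, ((monic_X_sub_C x0).pow e).natDegree_mul hm0, (monic_X_sub_C x0).natDegree_pow,
      natDegree_X_sub_C, hd0]
    rcases he with rfl | rfl <;> omega
  have hchi : ∀ x, chi (f0.eval x) = chi ((x - x0) ^ e) * chi (f1.eval x) := by
    intro x
    rw [hev, finon_chi_mul]
  have hfT1 : ∀ x ∈ T1, f0.eval x = v1 x := by
    intro x hx
    rw [hev, hfv x (by rw [hT]; exact Finset.mem_union_left _ hx), hv]
    dsimp only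
    rw [if_pos hx, mul_div_cancel₀]
    exact hpe x fun h2 => Finset.disjoint_left.1 hdX hx h2
  obtain ⟨Sz, hSz⟩ : ∃ Sz : ℤ, Sz = ∑ x ∈ Tᶜ, quadraticChar k (f0.eval x) := ⟨_, rfl⟩
  have hSzr : (Sz : ℝ) = ∑ x ∈ Tᶜ, chi (f0.eval x) := by
    rw [hSz, Int.cast_sum]
    rfl
  have hSe : ∑ x ∈ Tᶜ, chi ((x - x0) ^ e) * chi (f1.eval x) = Sz := by
    rw [hSzr]
    exact Finset.sum_congr rfl fun x _ => (hchi x).symm
  rw [hSe] at hS'
  obtain ⟨hS1, hS2⟩ := abs_le.1 hS'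
  have hpar : Even (Sz + ((Tᶜ : Finset k).card : ℤ)) := by
    rw [hSz]
    refine finon_even_sum _ _ fun x hx => ?_
    have h1 : f0.eval x ≠ 0 := by
      rw [hev]
      refine mul_ne_zero (hpe x fun h => ?_) (hfz x)
      rw [Finset.mem_compl] at hx
      apply hx
      rw [hT]
      exact Finset.mem_union_right _ h
    rcases finon_chi_pm _ h1 with h | h
    · rw [h]
      decide
    · rw [h]
      decide
  have hcomp : ((Tᶜ : Finset k).card : ℤ) = Fintype.card k - (J * p + e) := by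
    rw [Finset.card_compl, hTc, Nat.cast_sub (by omega)]
    push_cast
    ring
  have hparB : Even (Bz + (J : ℤ)) := by
    rw [hBz]
    have := finon_even_sum (Finset.univ : Finset (Fin J)) b fun i _ => (hb i).1
    rwa [Finset.card_univ, Fintype.card_fin] at this
  obtain ⟨Δ, hΔ⟩ : ∃ Δ : ℤ, Δ = Sz + Bz - ((N : ℤ) - (Fintype.card k + 1)) := ⟨_, rfl⟩
  have hΔr : (Δ : ℝ) = Sz + Bz - T0 := by
    rw [hΔ, hT0]
    push_cast
    ring
  have hΔ0 : 0 ≤ Δ := by
    have h1 : (0 : ℝ) ≤ (Δ : ℝ) := by rw [hΔr]; linarith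
    exact_mod_cast h1
  have hΔE : Δ ≤ 2 * E0 := by
    have h1 : (Δ : ℝ) ≤ 2 * E0 := by rw [hΔr]; linarith
    exact_mod_cast h1
  have hΔe : Even Δ := by
    rw [hcomp] at hpar
    obtain ⟨c1, hc1⟩ := hpar
    obtain ⟨c2, hc2⟩ := hparB
    obtain ⟨c3, hc3⟩ := hNe
    obtain ⟨c4, hc4⟩ := hpodd
    have hc3' : (N : ℤ) + e = 2 * c3 + 1 := by exact_mod_cast hc3
    have hc4' : (p : ℤ) = 2 * c4 + 1 := by exact_mod_cast hc4
    refine ⟨c1 + c2 + J * c4 + (e : ℤ) - c3, ?_⟩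
    rw [hΔ]
    have h3 : (J : ℤ) * p = 2 * (J * c4) + J := by
      rw [hc4']
      ring
    linarith
  obtain ⟨m', hm'⟩ := hΔe
  have hm'0 : 0 ≤ m' := by omega
  obtain ⟨n', rfl⟩ := Int.eq_ofNat_of_zero_le hm'0
  obtain ⟨I, hI⟩ := hbI n' (by omega)
  obtain ⟨ε, hε⟩ : ∃ ε : Fin J → ℝ, ε = fun i => if i ∈ I then (-1 : ℝ) else 1 := ⟨_, rfl⟩
  obtain ⟨P, hP1, hP2, hP3, hP4, hP5⟩ := exists_flips p m hp hp3 hm hc f0 hf0m.ne_zero J (by
    rw [hf0d, h2D]
    have h1 : J * (2 * D) = 2 * (J * D) := by ring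
    omega) a' ε (by
    intro i
    rw [hε]
    dsimp only
    split_ifs
    · right; rfl
    · left; rfl)
  obtain ⟨C, hC⟩ := asm_flip hk g f0 P hsq0 hP2 hP3 hf0m.ne_zero hP2.ne_zero (by
    rw [hf0d, hP1, h2D]
    have h1 : J * (2 * D) = 2 * (J * D) := by ring
    omega)
  refine ⟨C, ?_⟩
  have hsum : ∑ x, chi (f0.eval x) * chi (P.eval x) = Sz + (Bz - Δ) := by
    rw [Finset.sum_congr rfl fun x _ => by rw [hP5 x], flip_sum p J a' hdis ε, ← hT1]
    congr 1
    · rw [hSzr]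
      symm
      apply Finset.sum_subset
      · intro x hx
        rw [Finset.mem_compl] at hx ⊢
        intro h
        apply hx
        rw [hT]
        exact Finset.mem_union_left _ h
      · intro x hx hx2
        have h1 : x ∈ Xs := by
          rw [Finset.mem_compl] at hx
          have h2 : x ∈ T := by
            by_contra h3
            exact hx2 (Finset.mem_compl.2 h3)
          rw [hT, Finset.mem_union] at h2
          exact h2.resolve_left hx
        rw [hev, hpe0 x h1, zero_mul, finon_chi_zero]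
    · have h1 : ∀ i : Fin J, ε i * ∑ x ∈ cs p (a' i), chi (f0.eval x) =
          (b i : ℝ) - 2 * (if i ∈ I then (b i : ℝ) else 0) := by
        intro i
        have h2 : ∑ x ∈ cs p (a' i), chi (f0.eval x) = (b i : ℝ) := by
          rw [← hv1s i]
          refine Finset.sum_congr rfl fun x hx => ?_
          rw [hfT1 x (by
            rw [hT1, Finset.mem_biUnion]
            exact ⟨i, Finset.mem_univ _, hx⟩)]
        rw [h2, hε]
        dsimp only
        split_ifs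
        · ring
        · ring
      rw [Finset.sum_congr rfl fun i _ => h1 i, Finset.sum_sub_distrib, ← Finset.mul_sum,
        Finset.sum_ite_mem, Finset.univ_inter]
      have h3 : (∑ i ∈ I, (b i : ℝ)) = n' := by
        have : ((∑ i ∈ I, b i : ℤ) : ℝ) = ((n' : ℤ) : ℝ) := by rw [hI]
        rw [Int.cast_sum] at this
        rw [this]
        simp
      rw [h3, hm', hBz]
      push_cast
      ring
  rw [hsum, hΔr] at hC
  have h1 : (C.numPoints : ℝ) = N := by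
    rw [hC, hT0]
    ring
  exact_mod_cast h1

end Pool.Agent.H45.VN
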