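import Pool.Agent.H45.VN.TTwo
import Pool.Agent.H45.VN.CosN
import Pool.Agent.H45.VN.AsmN
import Pool.Agent.H45.VN.NumN

/-!
# Final assembly, `p = 2`

PROOF. See also `FinE` in `H45/VS`. `q = card k = 2 ^ (2 m - 1)`, `M = 2 ^ m`, `E₀` from `num_twoN`, `J = E₀ + 1`.
`a : Fin (2 J + 1) → k` from `exists_cosets`, `x₀` the last one; first cosets `a i`, second cosets `a (J + i)`, `i < J`.
`e = 1` if `N` is even, `0` if odd. `T` = the union of the `2 J` cosets, `K = |T| = 4 J`; `v₁` from `exists_patN` with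
`F = tau`, `u = 0`, `w` with `tau w = -1`, coset sums `2` (first) and `0` (second). `sf x = (x - x₀)⁻¹` if `e = 1`, `0`
otherwise; `base_even` (`H45/VS/Base`) with values `v₁ x - sf x` on `T`, `g₀ = g - J (2 M - 2) - e`,
`t = T₀ - E₀ - 1`, `T₀ = N - (q + 1)`: `S = ∑ x ∈ Tᶜ, tau (f₀ x + sf x)`, `|S - t| ≤ E₀`. `S' = S - e * tau (f₀ x₀ + sf x₀)`
(`x₀ ∉ T`). `Δ = T₀ - S'` satisfies `0 ≤ Δ ≤ 2 E₀ + 2 = 2 J` and is even: `S'` is a sum of `q - 4 J - e` signs, `≡ e`,
and `T₀ ≡ N + 1 ≡ e`. `Δ = 2 m'`, `m' ≤ J`. Let `c i` be the SECOND coset for `i < m'` and the FIRST one for the other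
`i < J`; `exists_rams` with `h₀ = X - C x₀`, `G₀ = 1` (`e = 1`) or `h₀ = 1`, `G₀ = 0` (`e = 0`) kills the cosets `c i`, so the
first cosets with `i < m'` and the second ones with `i ≥ m'` remain, with total sum `2 m'`. `even_model2`:
`N = q + 1 + ∑_{h(x) ≠ 0} tau (f₀ x + G / h) = q + 1 + ∑_{h(x) ≠ 0} tau (f₀ x + sf x)` (`G₀ / h₀ = sf`)
`= q + 1 + S' + 2 m' = q + 1 + T₀`. Genus: `g₀ + e + J (2 M - 2) = g`.
-/

namespace Pool.Agent.H45.VN

open Finset Polynomial Pool.Agent.H35.VQ Pool.Agent.H45.VS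

variable {k : Type} [Field k] [Fintype k] [DecidableEq k]

private theorem ftn_tau_int (h2 : (2 : k) = 0) (a : k) : ∃ z : ℤ, tau a = 2 * z - 1 := by
  rcases tau_eq h2 a with h | h
  · exact ⟨1, by rw [h]; norm_num⟩
  · exact ⟨0, by rw [h]; norm_num⟩

private theorem ftn_tau_sum_int (h2 : (2 : k) = 0) (S : Finset k) (F : k → k) :
    ∃ z : ℤ, ∑ x ∈ S, tau (F x) = 2 * z - S.card := by
  choose z hz using fun x => ftn_tau_int h2 (F x)
  refine ⟨∑ x ∈ S, z x, ?_⟩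
  rw [Finset.sum_congr rfl fun x _ => hz x, Finset.sum_sub_distrib, ← Finset.mul_sum]
  push_cast
  simp

/-- the sum with the term at `x₀` removed if `e` -/
private theorem ftn_sum_rem (h2 : (2 : k) = 0) (S : Finset k) (x₀ : k) (h0 : x₀ ∈ S) (F : k → k)
    (e : Bool) (ε : ℕ) (hε : ε = if e then 1 else 0) (hS : Even S.card) :
    |∑ x ∈ S, tau (F x) - ∑ x ∈ S, (if e = true ∧ x = x₀ then 0 else tau (F x))| ≤ 1 ∧
      ∃ z : ℤ, ∑ x ∈ S, (if e = true ∧ x = x₀ then 0 else tau (F x)) = 2 * z + ε := by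
  obtain ⟨z, hz⟩ := ftn_tau_sum_int h2 S F
  obtain ⟨r, hr⟩ := hS
  rw [hr] at hz
  push_cast at hz
  cases e with
  | false =>
    simp only [Bool.false_eq_true, false_and, if_false] at hε ⊢
    refine ⟨by rw [sub_self, abs_zero]; exact zero_le_one, z - r, ?_⟩
    rw [hz, hε]
    push_cast
    ring
  | true =>
    simp only [true_and, if_true] at hε ⊢
    have h1 : ∑ x ∈ S, (if x = x₀ then 0 else tau (F x)) = ∑ x ∈ S, tau (F x) - tau (F x₀) := by
      rw [← Finset.sum_erase_add _ _ h0, if_pos rfl, add_zero,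
        ← Finset.sum_erase_add S (fun x => tau (F x)) h0, add_sub_cancel_right]
      refine Finset.sum_congr rfl fun x hx => ?_
      rw [if_neg (Finset.ne_of_mem_erase hx)]
    rw [h1, sub_sub_cancel]
    rcases tau_eq h2 (F x₀) with h | h
    · refine ⟨by rw [h, abs_one], z - r - 1, ?_⟩
      rw [h, hz, hε]
      push_cast
      ring
    · refine ⟨by rw [h, abs_neg, abs_one], z - r, ?_⟩
      rw [h, hz, hε]
      push_cast
      ring

omit [Fintype k] [DecidableEq k] in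
private theorem ftn_start (x₀ : k) (e : Bool) (ε : ℕ) (hε : ε = if e then 1 else 0) :
    ∃ h0 G0 : k[X], Squarefree h0 ∧ IsCoprime h0 G0 ∧ G0.degree < h0.degree ∧
      h0.natDegree = ε ∧ (∀ x, h0.eval x = 0 ↔ (e = true ∧ x = x₀)) ∧
      ∀ x, ¬ (e = true ∧ x = x₀) → G0.eval x / h0.eval x = if e then (x - x₀)⁻¹ else 0 := by
  cases e with
  | false =>
    refine ⟨1, 0, squarefree_one, isCoprime_one_left, ?_, ?_, ?_, ?_⟩
    · rw [degree_zero, degree_one]
      exact WithBot.bot_lt_coe 0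
    · rw [natDegree_one, hε]
      rfl
    · intro x
      simp
    · intro x _
      simp
  | true =>
    refine ⟨X - C x₀, 1, (irreducible_X_sub_C x₀).squarefree, isCoprime_one_right, ?_, ?_, ?_, ?_⟩
    · rw [degree_one, degree_X_sub_C]
      exact_mod_cast Nat.zero_lt_one
    · rw [natDegree_X_sub_C, hε]
      rfl
    · intro x
      simp [sub_eq_zero]
    · intro x _
      simp

/-- the coset of number `j` which is killed -/
private def ftn_idx (J m' : ℕ) (j : Fin J) : Fin (2 * J) :=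
  if (j : ℕ) < m' then ⟨J + j, by have := j.2; omega⟩ else ⟨j, by have := j.2; omega⟩

private theorem ftn_idx_val (J m' : ℕ) (j : Fin J) :
    ((ftn_idx J m' j : Fin (2 * J)) : ℕ) = if (j : ℕ) < m' then J + j else j := by
  unfold ftn_idx
  split_ifs <;> rfl

private theorem ftn_idx_inj (J m' : ℕ) (i j : Fin J) (h : ftn_idx J m' i = ftn_idx J m' j) :
    i = j := by
  have h1 := congrArg (fun z : Fin (2 * J) => (z : ℕ)) h
  simp only [ftn_idx_val] at h1
  have hi := i.2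
  have hj := j.2
  apply Fin.ext
  split_ifs at h1 <;> omega

open Classical in
private theorem ftn_comb (J m' : ℕ) (hm' : m' ≤ J) :
    ∑ i : Fin (2 * J), (if ∃ j, ftn_idx J m' j = i then (0 : ℝ) else 1) *
      (((if (i : ℕ) < J then 2 else 0 : ℤ)) : ℝ) = 2 * (m' : ℝ) := by
  have h1 : ∀ i : Fin (2 * J), (if ∃ j, ftn_idx J m' j = i then (0 : ℝ) else 1) *
      (((if (i : ℕ) < J then 2 else 0 : ℤ)) : ℝ) = if (i : ℕ) < m' then (2 : ℝ) else 0 := by
    intro i
    by_cases h2 : (i : ℕ) < m'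
    · have h3 : ¬ ∃ j, ftn_idx J m' j = i := by
        rintro ⟨j, hj⟩
        have h4 := congrArg (fun z : Fin (2 * J) => (z : ℕ)) hj
        simp only [ftn_idx_val] at h4
        split_ifs at h4 <;> omega
      rw [if_neg h3, if_pos (by omega), if_pos h2]
      norm_num
    · rw [if_neg h2]
      by_cases h3 : (i : ℕ) < J
      · have h4 : ∃ j, ftn_idx J m' j = i := by
          refine ⟨⟨i, h3⟩, ?_⟩
          apply Fin.ext
          rw [ftn_idx_val]
          exact if_neg h2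
        rw [if_pos h4, zero_mul]
      · rw [if_neg h3, Int.cast_zero, mul_zero]
  rw [Finset.sum_congr rfl fun i _ => h1 i,
    Fin.sum_univ_eq_sum_range (fun i => if i < m' then (2 : ℝ) else 0) (2 * J), ← Finset.sum_filter]
  have h2 : (Finset.range (2 * J)).filter (fun i => i < m') = Finset.range m' := by
    ext i
    rw [Finset.mem_filter, Finset.mem_range, Finset.mem_range]
    omega
  rw [h2, Finset.sum_const, Finset.card_range, nsmul_eq_mul, mul_comm]

theorem final_twoN (m : ℕ) [CharP k 2] (hm : 2 ≤ m)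
    (hc : Fintype.card k = 2 ^ (2 * m - 1)) (g : ℕ)
    (hg : 10 ^ 15 * Fintype.card k ^ 2 * (Nat.log 2 (Fintype.card k) + 1) ^ 3 ≤ g ^ 3)
    (hg2 : g ≤ Fintype.card k) (N : ℕ)
    (hN : |(N : ℝ) - (Fintype.card k + 1)| ≤ √((g : ℝ) * Fintype.card k) / 4) :
    ∃ C : Hyp k g, C.numPoints = N := by
  classical
  have h2 : (2 : k) = 0 := by exact_mod_cast CharP.cast_eq_zero k 2
  obtain ⟨E0, n1, n2, n3, n4⟩ := num_twoN m (Fintype.card k) g hm hc hg hg2
  obtain ⟨J, hJ⟩ : ∃ J, J = E0 + 1 := ⟨_, rfl⟩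
  rw [← hJ] at n1 n2 n3 n4
  obtain ⟨q, hq⟩ : ∃ q, q = Fintype.card k := ⟨_, rfl⟩
  have hqe : Even q := by
    rw [hq, hc]
    exact (Nat.even_pow.2 ⟨even_two, by omega⟩)
  obtain ⟨e, ε, hε, hεN⟩ : ∃ (e : Bool) (ε : ℕ), (ε = if e then 1 else 0) ∧ Even (N + 1 + ε) := by
    by_cases h : Even N
    · refine ⟨true, 1, rfl, ?_⟩
      rw [Nat.even_iff] at h ⊢
      omega
    · refine ⟨false, 0, rfl, ?_⟩
      rw [Nat.even_iff] at h ⊢
      omega
  have hε1 : ε ≤ 1 := by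
    rw [hε]
    split_ifs <;> omega
  obtain ⟨Dg, hDg⟩ : ∃ Dg, Dg = J * (2 * 2 ^ m - 2) := ⟨_, rfl⟩
  rw [← hDg] at n1 n3 n4
  obtain ⟨g0, hg0⟩ : ∃ g0, g0 = g - Dg - ε := ⟨_, rfl⟩
  have hg0' : g0 + Dg + ε = g := by omega
  obtain ⟨hK1, hK2, hR, hT⟩ := n4 (4 * J) g0 le_rfl (by omega) (by omega)
  -- the cosets
  obtain ⟨aa, haa⟩ := exists_cosets (k := k) 2 (2 * m - 1) Nat.prime_two (by omega) hc (2 * J) n2
  obtain ⟨a, ha⟩ : ∃ a : Fin (2 * J) → k, a = fun i => aa i.castSucc := ⟨_, rfl⟩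
  have hdis : ∀ i j, i ≠ j → Disjoint (cs 2 (a i)) (cs 2 (a j)) := by
    intro i j hij
    rw [ha]
    exact haa _ _ (fun h => hij (Fin.castSucc_injective _ h))
  obtain ⟨x₀, hx₀⟩ : ∃ x₀, x₀ = aa (Fin.last (2 * J)) := ⟨_, rfl⟩
  have hx₀a : ∀ i, x₀ ∉ cs 2 (a i) := by
    intro i hi
    have h3 := haa i.castSucc (Fin.last (2 * J)) (Fin.castSucc_lt_last i).ne
    rw [← hx₀] at h3
    have h4 : x₀ ∈ cs 2 (aa i.castSucc) := by
      rw [ha] at hi
      exact hi
    exact Finset.disjoint_left.1 h3 h4 (self_mem_cs 2 Nat.prime_two x₀)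
  obtain ⟨w, hw⟩ := exists_tau_neg h2
  obtain ⟨v, -, hv⟩ := exists_patN 2 (2 * m - 1) Nat.prime_two (by omega) hc (2 * J) a hdis tau 0 w
    (tau_zero h2) hw (fun i => if (i : ℕ) < J then 2 else 0) (by
      intro i
      split_ifs <;> norm_num) (by
      intro i
      split_ifs
      · exact ⟨2, by norm_num⟩
      · exact ⟨1, by norm_num⟩)
  obtain ⟨T, hTd⟩ : ∃ T, T = Finset.univ.biUnion fun i => cs 2 (a i) := ⟨_, rfl⟩
  have hTc : T.card = 4 * J := by
    rw [hTd, card_union_cs 2 (2 * m - 1) Nat.prime_two (by omega) hc (2 * J) a hdis]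
    ring
  have hx₀T : x₀ ∈ Tᶜ := by
    rw [Finset.mem_compl, hTd, Finset.mem_biUnion]
    rintro ⟨i, -, hi⟩
    exact hx₀a i hi
  have hTev : Even (Tᶜ).card := by
    rw [Finset.card_compl, hTc, ← hq]
    rw [Nat.even_iff] at hqe ⊢
    omega
  -- the base polynomial
  obtain ⟨f0, hfm, hfd, hf, hb⟩ := base_even h2 T (fun x => v x - if e then (x - x₀)⁻¹ else 0)
    (fun x => if e then (x - x₀)⁻¹ else 0) g0 (by rw [hTc]; exact hK1) (by rw [hTc]; exact hK2)
    ((N : ℝ) - (Fintype.card k + 1) - E0 - 1) (by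
      rw [hTc]
      refine hT _ _ hN ?_
      rw [show (N : ℝ) - (Fintype.card k + 1) - E0 - 1 - ((N : ℝ) - (Fintype.card k + 1)) =
        -((E0 : ℝ) + 1) by ring, abs_neg, abs_of_nonneg (by positivity)])
  rw [hTc] at hb
  have hb2 := abs_le.1 (hb.trans hR)
  obtain ⟨hrem, z, hz⟩ := ftn_sum_rem h2 Tᶜ x₀ hx₀T
    (fun x => f0.eval x + if e then (x - x₀)⁻¹ else 0) e ε hε hTev
  have hrem2 := abs_le.1 hrem
  -- parity
  obtain ⟨b, hab⟩ : ∃ b : ℤ, (N : ℝ) - (Fintype.card k + 1) = 2 * b + ε := by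
    obtain ⟨r, hr⟩ := hεN
    obtain ⟨u, hu⟩ := hqe
    refine ⟨r - 1 - ε - u, ?_⟩
    have h5 : (N : ℝ) + 1 + ε = r + r := by exact_mod_cast hr
    have h6 : (q : ℝ) = u + u := by exact_mod_cast hu
    rw [← hq]
    push_cast
    rw [h6]
    linear_combination h5
  obtain ⟨m', hmz⟩ : ∃ m' : ℕ, (m' : ℤ) = b - z := by
    refine ⟨(b - z).toNat, Int.toNat_of_nonneg ?_⟩
    have h5 : (0 : ℝ) ≤ 2 * ((b : ℝ) - z) := by
      linarith
    have h6 : (0 : ℝ) ≤ ((b - z : ℤ) : ℝ) := by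
      push_cast
      linarith
    exact_mod_cast h6
  have hmz2 : (m' : ℝ) = b - z := by exact_mod_cast hmz
  have hm2 : m' ≤ J := by
    have h5 : (m' : ℝ) ≤ (J : ℝ) := by
      rw [hmz2, hJ]
      push_cast
      linarith
    exact_mod_cast h5
  -- the killed cosets
  obtain ⟨h0, G0, s1, s2, s3, s4, s5, s6⟩ := ftn_start x₀ e ε hε
  obtain ⟨h, G, r1, r2, r3, r4, r5, r6⟩ := exists_rams m hm hc h0 G0 s1 s2 s3 J
    (by rw [s4, ← hDg]; omega) (fun j => a (ftn_idx J m' j))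
    (fun i j hij => hdis _ _ (fun hh => hij (ftn_idx_inj J m' i j hh)))
    (fun i x hx hz => by
      rw [s5] at hz
      exact hx₀a _ (hz.2 ▸ hx))
  rw [s4, ← hDg] at r1
  obtain ⟨C, hC⟩ := even_model2 h2 g0 g (by omega) f0 hfm hfd h G r2 r3 r4 (by rw [r1]; omega)
  refine ⟨C, ?_⟩
  have hsum : ∑ x ∈ Finset.univ.filter (fun x : k => h.eval x ≠ 0),
      tau (f0.eval x + G.eval x / h.eval x) =
      ∑ x, (if e = true ∧ x = x₀ then 0 else tau (f0.eval x + if e then (x - x₀)⁻¹ else 0)) *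
        (∏ i, if x ∈ cs 2 (a i) then (if ∃ j, ftn_idx J m' j = i then (0 : ℝ) else 1) else 1) := by
    rw [Finset.sum_filter]
    refine Finset.sum_congr rfl fun x _ => ?_
    by_cases h3 : h.eval x = 0
    · rw [if_neg (fun hh => hh h3)]
      rcases (r5 x).1 h3 with h4 | ⟨j, hj⟩
      · rw [if_pos ((s5 x).1 h4), zero_mul]
      · rw [Finset.prod_eq_zero (Finset.mem_univ (ftn_idx J m' j)) (by
          rw [if_pos hj, if_pos ⟨j, rfl⟩]), mul_zero]
    · rw [if_pos h3, r6 x h3]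
      have h4 : ¬ (h0.eval x = 0 ∨ ∃ i, x ∈ cs 2 (a (ftn_idx J m' i))) := fun hh => h3 ((r5 x).2 hh)
      push Not at h4
      obtain ⟨h5, h6⟩ := h4
      have h7 : ¬ (e = true ∧ x = x₀) := fun hh => h5 ((s5 x).2 hh)
      rw [s6 x h7, if_neg h7, Finset.prod_eq_one, mul_one]
      intro i _
      by_cases h8 : x ∈ cs 2 (a i)
      · rw [if_pos h8, if_neg]
        rintro ⟨j, hj⟩
        exact h6 j (hj ▸ h8)
      · rw [if_neg h8]
  rw [hsum, flip_sum 2 (2 * J) a hdis, ← hTd, hz] at hC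
  have hlines : ∑ i : Fin (2 * J), (if ∃ j, ftn_idx J m' j = i then (0 : ℝ) else 1) *
      ∑ x ∈ cs 2 (a i), (if e = true ∧ x = x₀ then 0 else
        tau (f0.eval x + if e then (x - x₀)⁻¹ else 0)) = 2 * (m' : ℝ) := by
    rw [← ftn_comb J m' hm2]
    refine Finset.sum_congr rfl fun i _ => ?_
    congr 1
    rw [← hv i]
    refine Finset.sum_congr rfl fun x hx => ?_
    have hne : x ≠ x₀ := by
      rintro rfl
      exact hx₀a i hx
    rw [if_neg (fun hh => hne hh.2), hf x (by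
      rw [hTd, Finset.mem_biUnion]
      exact ⟨i, Finset.mem_univ _, hx⟩), sub_add_cancel]
  rw [hlines] at hC
  have hfin : (C.numPoints : ℝ) = N := by
    rw [hC, hmz2]
    linear_combination -hab
  exact_mod_cast hfin

end Pool.Agent.H45.VN
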