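import Pool.Agent.H45.VN.FinON
import Pool.Agent.H45.VN.FinTN
import Pool.Agent.H45.VS.Main
import Pool.Agent.H45.WB.Fin

/-!
# The theorem for all `q` which are not prime

PROOF. `q = card k = p ^ n`, `n ≥ 2`. If `g ≥ q`: `N ≤ 2 q + 2`, and all these numbers occur: `exact_odd_weil`
(`2 ^ q ≤ q ^ (g - 4)`: the hypothesis gives `g ≥ 10 ^ 5`.. and `q ^ (g - 4) ≥ 2 ^ (2 (g - 4)) ≥ 2 ^ q` when `2 (g - 4) ≥ q`) or
`exact_two`. Let `g < q`; then `10 ^ 15 q ^ 2 ≤ g ^ 3 < q ^ 3`, `q > 10 ^ 15`. If `n = 2 j` is even, `s = p ^ j`, `main` of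
`H45/VS/Main`: `300000 s (Nat.log 2 s + 1) ≤ g`, because `(300000 s (log s + 1)) ^ 3 = 2.7 10 ^ 16 s ^ 3 (..) ^ 3 ≤
10 ^ 15 s ^ 4 (log q + 1) ^ 3 ≤ g ^ 3` (`s ≥ 27`). If `n = 2 m - 1` is odd, `m ≥ 2`: `p = 2`: `final_twoN`; `p` odd:
`final_oddN` if `24 g + 48 ≤ q`, otherwise `exact_odd_weil`: `q ≥ 2 ^ 49`, so `q ^ (g - 4) ≥ 2 ^ (49 (g - 4)) ≥ 2 ^ q` as
`49 (g - 4) ≥ 2 q - 300 ≥ q`; and `N ≤ 2 q + 2` since `|N - (q + 1)| ≤ q / 4`.
-/

namespace Pool.Agent.H45.VN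

open Finset Polynomial Pool.Agent.H35.VQ Pool.Agent.H45.VS

private theorem mn_pow {q e f : ℕ} {c : ℕ} (hq : 2 ^ c ≤ q) (h : e ≤ c * f) : 2 ^ e ≤ q ^ f :=
  calc 2 ^ e ≤ 2 ^ (c * f) := Nat.pow_le_pow_right (by norm_num) h
    _ = (2 ^ c) ^ f := pow_mul _ _ _
    _ ≤ q ^ f := Nat.pow_le_pow_left hq f

private theorem mn_small {q g L : ℕ} (hg : 10 ^ 15 * q ^ 2 * (L + 1) ^ 3 ≤ g ^ 3) (hgq : g < q) :
    10 ^ 15 < q := by
  have h1 : g ^ 3 < q ^ 3 := Nat.pow_lt_pow_left hgq (by norm_num)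
  have h2 : 1 ≤ (L + 1) ^ 3 := Nat.one_le_pow _ _ (Nat.succ_pos L)
  have h3 : 10 ^ 15 * q ^ 2 ≤ 10 ^ 15 * q ^ 2 * (L + 1) ^ 3 := Nat.le_mul_of_pos_right _ h2
  have h4 : q ^ 2 * 10 ^ 15 < q ^ 2 * q := by
    calc q ^ 2 * 10 ^ 15 = 10 ^ 15 * q ^ 2 := mul_comm _ _
      _ ≤ 10 ^ 15 * q ^ 2 * (L + 1) ^ 3 := h3
      _ ≤ g ^ 3 := hg
      _ < q ^ 3 := h1
      _ = q ^ 2 * q := by ring
  exact lt_of_mul_lt_mul_left h4 (Nat.zero_le _)

private theorem mn_g {q g L : ℕ} (hq : 1 ≤ q) (hg : 10 ^ 15 * q ^ 2 * (L + 1) ^ 3 ≤ g ^ 3) : 8 ≤ g := by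
  by_contra hc
  have h1 : g ^ 3 ≤ 8 ^ 3 := Nat.pow_le_pow_left (by omega) 3
  have h2 : 1 ≤ (L + 1) ^ 3 := Nat.one_le_pow _ _ (Nat.succ_pos L)
  have h3 : 1 ≤ q ^ 2 := Nat.one_le_pow _ _ hq
  have h4 : 10 ^ 15 * 1 * 1 ≤ 10 ^ 15 * q ^ 2 * (L + 1) ^ 3 :=
    Nat.mul_le_mul (Nat.mul_le_mul_left _ h3) h2
  have h5 := h4.trans (hg.trans h1)
  norm_num at h5

private theorem mn_sq {s g : ℕ} (hs : 27 ≤ s)
    (hg : 10 ^ 15 * (s ^ 2) ^ 2 * (Nat.log 2 (s ^ 2) + 1) ^ 3 ≤ g ^ 3) :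
    300000 * s * (Nat.log 2 s + 1) ≤ g := by
  have h1 : Nat.log 2 s ≤ Nat.log 2 (s ^ 2) :=
    Nat.log_mono_right (Nat.le_self_pow (by norm_num) s)
  have h2 : (Nat.log 2 s + 1) ^ 3 ≤ (Nat.log 2 (s ^ 2) + 1) ^ 3 :=
    Nat.pow_le_pow_left (by omega) 3
  have h3 : (300000 * s * (Nat.log 2 s + 1)) ^ 3 ≤ g ^ 3 := by
    calc (300000 * s * (Nat.log 2 s + 1)) ^ 3
        = 10 ^ 15 * s ^ 3 * 27 * (Nat.log 2 s + 1) ^ 3 := by ring
      _ ≤ 10 ^ 15 * s ^ 3 * s * (Nat.log 2 (s ^ 2) + 1) ^ 3 :=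
          Nat.mul_le_mul (Nat.mul_le_mul_left _ hs) h2
      _ = 10 ^ 15 * (s ^ 2) ^ 2 * (Nat.log 2 (s ^ 2) + 1) ^ 3 := by ring
      _ ≤ g ^ 3 := hg
  exact le_of_pow_le_pow_left₀ (by norm_num) (Nat.zero_le g) h3

private theorem mn_abs {q N : ℕ} {R : ℝ} (hR : R ≤ q / 4) (h : |(N : ℝ) - (q + 1)| ≤ R) :
    N ≤ 2 * q + 2 := by
  have h2 := (abs_le.1 (h.trans hR)).2
  have hq : (0 : ℝ) ≤ q := Nat.cast_nonneg q
  have h3 : (N : ℝ) ≤ 2 * q + 2 := by linarith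
  exact_mod_cast h3

theorem mainN (k : Type) [Field k] [Finite k] (hnp : ¬ (Nat.card k).Prime) (g : ℕ)
    (hg : 10 ^ 15 * Nat.card k ^ 2 * (Nat.log 2 (Nat.card k) + 1) ^ 3 ≤ g ^ 3) (N : ℕ)
    (hN : 4 * |(N : ℝ) - (Nat.card k + 1)| ≤ √((min g (Nat.card k) : ℕ) * (Nat.card k : ℝ))) :
    ∃ C : Hyp k g, C.numPoints = N := by
  classical
  have := Fintype.ofFinite k
  rw [Nat.card_eq_fintype_card] at hnp hg hN
  obtain ⟨p, hcp⟩ := CharP.exists k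
  obtain ⟨n, hp, hcard⟩ := FiniteField.card k p
  have hn1 : (n : ℕ) ≠ 1 := by
    intro h
    rw [h, pow_one] at hcard
    exact hnp (hcard ▸ hp)
  have hn0 : 0 < (n : ℕ) := n.pos
  have hn2 : 2 ≤ (n : ℕ) := by omega
  have hp2 : 2 ≤ p := hp.two_le
  have hq4 : 2 ^ 2 ≤ Fintype.card k := by
    rw [hcard]
    exact (Nat.pow_le_pow_left hp2 2).trans (Nat.pow_le_pow_right (by omega) hn2)
  have hg8 := mn_g (by omega) hg
  have hsqle : √(((min g (Fintype.card k) : ℕ) : ℝ) * (Fintype.card k : ℝ)) ≤ Fintype.card k := by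
    rw [Real.sqrt_le_left (Nat.cast_nonneg _), sq]
    refine mul_le_mul_of_nonneg_right ?_ (Nat.cast_nonneg _)
    exact_mod_cast min_le_right _ _
  have hN2 : N ≤ 2 * Fintype.card k + 2 := by
    refine mn_abs (R := √(((min g (Fintype.card k) : ℕ) : ℝ) * (Fintype.card k : ℝ)) / 4) ?_ ?_
    · linarith
    · linarith
  by_cases hgq : g < Fintype.card k
  · have hbig := mn_small hg hgq
    have hN3 : |(N : ℝ) - (Fintype.card k + 1)| ≤ √((g : ℝ) * Fintype.card k) / 4 := by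
      rw [min_eq_left hgq.le] at hN
      linarith
    rcases Nat.even_or_odd' (n : ℕ) with ⟨j, hj | hj⟩
    · have hcs : Fintype.card k = (p ^ j) ^ 2 := by
        rw [hcard, hj, mul_comm 2 j, pow_mul]
      have hs27 : 27 ≤ p ^ j := by
        by_contra hc
        have h1 : (p ^ j) ^ 2 ≤ 27 ^ 2 := Nat.pow_le_pow_left (by omega) 2
        rw [← hcs] at h1
        norm_num at h1
        omega
      rw [hcs] at hg
      refine main k (p ^ j) (by rw [Nat.card_eq_fintype_card, hcs]) g (mn_sq hs27 hg) N ?_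
      have hc1 : (Fintype.card k : ℝ) = ((p ^ j : ℕ) : ℝ) ^ 2 := by
        rw [hcs]
        push_cast
        ring
      rw [hc1, hcs] at hN
      exact hN
    · have hm : 2 ≤ j + 1 := by omega
      have hc1 : Fintype.card k = p ^ (2 * (j + 1) - 1) := by
        rw [hcard, hj]
        congr 1
      rcases hp.eq_two_or_odd with h2 | hodd
      · subst h2
        exact final_twoN (j + 1) hm hc1 g hg hgq.le N hN3
      · have hk2 : (2 : k) ≠ 0 := by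
          intro h0
          have h1 : ((2 : ℕ) : k) = 0 := by exact_mod_cast h0
          rw [CharP.cast_eq_zero_iff k p] at h1
          have := Nat.le_of_dvd (by norm_num) h1
          omega
        by_cases h24 : 24 * g + 48 ≤ Fintype.card k
        · exact final_oddN p (j + 1) hp (by omega) hm hc1 g hg h24 N hN3
        · refine Pool.Agent.H45.WB.exact_odd_weil hk2 g ?_ N hN2
          refine mn_pow (c := 49) ?_ ?_
          · have : (2 : ℕ) ^ 49 ≤ 10 ^ 15 := by norm_num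
            omega
          · norm_num at hbig
            omega
  · push Not at hgq
    by_cases h2 : (2 : k) = 0
    · refine exact_two h2 g ?_ N hN2
      refine mn_pow (c := 2) hq4 ?_
      omega
    · refine Pool.Agent.H45.WB.exact_odd_weil h2 g ?_ N hN2
      refine mn_pow (c := 2) hq4 ?_
      omega

end Pool.Agent.H45.VN
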