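import Pool.Agent.H45.VN.FamC
import Pool.Agent.H45.VN.SqD

/-!
# Squarefree polynomials without rational zeros, prescribed on `T`, with approximate twisted sum

PROOF. Read `exists_odd_pre` in `H45/VS/OddPre` first; same set-up: `κ = {x // x ∉ T}`, `q' = card κ`, sample
space `Sp k n`, `n = d - |T|`, signs `e ω = esg T v (fun x a b => tw x * so a b) ω`, weights `‖lin α (e ω)‖ ^ 2`,
`α A = a A.card`, `A0 = ∑ ‖α A‖ ^ 2`.
(1), (2) as there (`∑ a, ∑ b, tw x * so a b = 0`; the sum of the weights is `tot A0`, of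
`(∑ e - t) ^ 2` times the weight at most `R tot A0`).
(3) Let `z ω` be the number of `x : κ` with `(fam T v ω.1).eval x = 0`, and
`b(z) = 1 - z + choose z 2 - choose z 3`; for natural `z`: `b(0) = 1` and `b(z) ≤ 0` for `z ≥ 1` (it is
`- choose (z - 1) 3`). `choose (z ω) i = ∑_{A ⊆ κ, |A| = i} ∏_{y ∈ A} [zero at y]` (the number of `i`-subsets of the
zero set), so by `unbA` and `norm_sum` (`w` = the product of the indicators, `W = tot / q ^ i`, `2 M + 3 ≤ n`)
`∑ ω choose (z ω) i * weight = choose q' i / q ^ i * tot * A0`. With `x = q' / q ∈ [0, 1]`: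
`∑ ω b(z ω) weight ≥ (1 - x + x (x - 1 / q) / 2 - x ^ 3 / 6) tot A0 ≥ (1 / 3 - 1 / 50) tot A0` (`q ≥ 25`;
`1 - x + x ^ 2 / 2 - x ^ 3 / 6 ≥ 1 / 3` on `[0, 1]`).
(4) `∑ ω nsf (d / 2) (fam ..) weight ≤ tot A0 / 4`: `mon A (tw * e') = (∏_{x ∈ A} tw x) mon A e'`, so
`lin α (e ω) = lin α' (esg T v (fun _ => so) ω)` with `α' A = α A ∏_{x ∈ A} tw x`, `‖α' A‖ = ‖α A‖`; `sum_nsf2`.
(5) With `L = 24 (R + 1)`: the weighted sum of `b(z) - nsf - (∑ e - t) ^ 2 / L` is at least
`(1 / 3 - 1 / 50 - 1 / 4 - 1 / 24) tot A0 > 0`, so some `ω` has `b(z) > nsf + (∑ e - t) ^ 2 / L`: then `z = 0`,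
`nsf < 1` (`squarefree_of_nsf2`), `(∑ e - t) ^ 2 < L`, and since there are no zeros outside `T`,
`e ω x = tw x * chi (f x)`; on `T` the values are `v x ≠ 0`.
-/

set_option linter.unusedSectionVars false

namespace Pool.Agent.H45.VN

open Finset Polynomial Pool.Agent.H35.VQ Pool.Agent.H45.VS

variable {k : Type} [Field k] [Fintype k] [DecidableEq k]

private theorem card_out (T : Finset k) :
    Fintype.card {x : k // x ∉ T} = Fintype.card k - T.card := by
  rw [Fintype.card_subtype]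
  have h : (Finset.univ.filter fun x : k => x ∉ T) = Tᶜ := by
    ext x
    simp
  rw [h, Finset.card_compl]

/-- the zeros outside `T` -/
private noncomputable def zs (T : Finset k) (v : k → k) {n : ℕ} (ω : Sp k n) : Finset {x : k // x ∉ T} :=
  Finset.univ.filter fun x => (Pool.Agent.H45.VS.fam T v ω.1).eval (x : k) = 0

private theorem choose_zs (T : Finset k) (v : k → k) {n : ℕ} (ω : Sp k n) (i : ℕ) :
    (((zs T v ω).card.choose i : ℕ) : ℝ) = ∑ A ∈ Finset.powersetCard i (Finset.univ : Finset {x : k // x ∉ T}),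
      ∏ y ∈ A, if (Pool.Agent.H45.VS.fam T v ω.1).eval (y : k) = 0 then (1 : ℝ) else 0 := by
  classical
  have h1 : ∀ A ∈ Finset.powersetCard i (Finset.univ : Finset {x : k // x ∉ T}),
      (∏ y ∈ A, if (Pool.Agent.H45.VS.fam T v ω.1).eval (y : k) = 0 then (1 : ℝ) else 0) =
        if A ⊆ zs T v ω then (1 : ℝ) else 0 := by
    intro A _
    by_cases h : A ⊆ zs T v ω
    · rw [if_pos h]
      refine Finset.prod_eq_one fun y hy => ?_
      have := h hy
      unfold zs at this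
      rw [if_pos (Finset.mem_filter.1 this).2]
    · rw [if_neg h]
      rw [Finset.not_subset] at h
      obtain ⟨y, hy, hn⟩ := h
      refine Finset.prod_eq_zero hy ?_
      rw [if_neg]
      intro h0
      apply hn
      unfold zs
      exact Finset.mem_filter.2 ⟨Finset.mem_univ _, h0⟩
  rw [Finset.sum_congr rfl h1, ← Finset.card_powersetCard i (zs T v ω), Finset.sum_ite, Finset.sum_const_zero,
    add_zero, Finset.sum_const, nsmul_eq_mul, mul_one]
  congr 2
  ext A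
  simp only [Finset.mem_powersetCard, Finset.mem_filter, Finset.subset_univ, true_and]
  tauto

/-- the Bonferroni weight -/
private noncomputable def bf (z : ℕ) : ℝ := 1 - z + (z.choose 2 : ℕ) - (z.choose 3 : ℕ)

private theorem bf_zero : bf 0 = 1 := by simp [bf]

private theorem bf_pos (z : ℕ) (hz : z ≠ 0) : bf z ≤ 0 := by
  obtain ⟨w, rfl⟩ : ∃ w, z = w + 1 := ⟨z - 1, by omega⟩
  unfold bf
  have h2 : (w + 1).choose 2 = w + w.choose 2 := by
    rw [Nat.choose_succ_succ' w 1, Nat.choose_one_right]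
  have h3 : (w + 1).choose 3 = w.choose 2 + w.choose 3 := Nat.choose_succ_succ' w 2
  rw [h2, h3]
  push_cast
  have : (0 : ℝ) ≤ (w.choose 3 : ℕ) := Nat.cast_nonneg _
  linarith

private theorem choose3_le (n : ℕ) : ((n.choose 3 : ℕ) : ℝ) ≤ (n : ℝ) ^ 3 / 6 := by
  have h := Nat.choose_le_pow_div (α := ℝ) 3 n
  have h2 : ((Nat.factorial 3 : ℕ) : ℝ) = 6 := by norm_num [Nat.factorial]
  rw [h2] at h
  exact h

private theorem choose2_eq (n : ℕ) : ((n.choose 2 : ℕ) : ℝ) = (n : ℝ) * (n - 1) / 2 := Nat.cast_choose_two ℝ n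

private theorem num_bound (q' q : ℕ) (hq : 25 ≤ q) (h : q' ≤ q) :
    (1 : ℝ) / 3 - 1 / 50 ≤ 1 - (q' : ℝ) * (1 / q) + (q'.choose 2 : ℕ) * (1 / (q : ℝ)) ^ 2 -
      (q'.choose 3 : ℕ) * (1 / (q : ℝ)) ^ 3 := by
  have hq0 : (0 : ℝ) < q := by
    have : 0 < q := by omega
    exact_mod_cast this
  have hq25 : (25 : ℝ) ≤ q := by exact_mod_cast hq
  set x : ℝ := (q' : ℝ) / q with hx
  have hx0 : 0 ≤ x := by positivity
  have hx1 : x ≤ 1 := (div_le_one hq0).2 (by exact_mod_cast h)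
  have e1 : (q' : ℝ) * (1 / q) = x := by rw [hx]; ring
  have e2 : ((q'.choose 2 : ℕ) : ℝ) * (1 / (q : ℝ)) ^ 2 = x * (x - 1 / q) / 2 := by
    rw [choose2_eq, hx]
    field_simp
  have e3 : ((q'.choose 3 : ℕ) : ℝ) * (1 / (q : ℝ)) ^ 3 ≤ x ^ 3 / 6 := by
    have h3 := mul_le_mul_of_nonneg_right (choose3_le q') (by positivity : (0 : ℝ) ≤ (1 / (q : ℝ)) ^ 3)
    refine h3.trans (le_of_eq ?_)
    rw [hx]
    field_simp
  have e4 : x * (1 / q) ≤ 1 / 25 := by
    have h4 : 1 / (q : ℝ) ≤ 1 / 25 := one_div_le_one_div_of_le (by norm_num) hq25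
    have h5 : (0 : ℝ) ≤ 1 / (q : ℝ) := by positivity
    nlinarith
  rw [e1, e2]
  nlinarith [mul_nonneg hx0 (sub_nonneg.2 hx1), mul_nonneg (mul_nonneg hx0 hx0) (sub_nonneg.2 hx1),
    sq_nonneg (1 - x), mul_nonneg (sub_nonneg.2 hx1) (sq_nonneg (1 - x)), mul_nonneg (sub_nonneg.2 hx1) (sq_nonneg x)]

theorem exists_odd_pre2 (hk : ringChar k ≠ 2) (hq : 25 ≤ Fintype.card k) (T : Finset k) (v : k → k)
    (hv : ∀ x ∈ T, v x ≠ 0) (tw : k → ℝ) (htw : ∀ x, x ∉ T → tw x = 1 ∨ tw x = -1) (d M : ℕ)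
    (hM : 4 * M + 2 * T.card + 4 ≤ d) (t : ℝ) (a : ℕ → ℂ)
    (ha : ∀ n, M < n → a n = 0) (q' : ℕ) (hq' : q' = Fintype.card k - T.card)
    (hpos : 0 < ∑ n ∈ range (q' + 1), (q'.choose n : ℝ) * ‖a n‖ ^ 2) (R : ℝ) (hR : 0 ≤ R)
    (hj : ∑ n ∈ range (q' + 1), (q'.choose n : ℝ) * ‖jop q' t a n‖ ^ 2 ≤
      R * ∑ n ∈ range (q' + 1), (q'.choose n : ℝ) * ‖a n‖ ^ 2) :
    ∃ f : k[X], f.Monic ∧ f.natDegree = d ∧ Squarefree f ∧ (∀ x ∈ T, f.eval x = v x) ∧
      (∀ x, f.eval x ≠ 0) ∧ (∑ x ∈ Tᶜ, tw x * chi (f.eval x) - t) ^ 2 ≤ 24 * (R + 1) := by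
  classical
  have hcard : Fintype.card {x : k // x ∉ T} = q' := by rw [card_out, hq']
  set n := d - T.card with hn
  set q := Fintype.card k with hqdef
  have hq'q : q' ≤ q := by omega
  set α : Finset {x : k // x ∉ T} → ℂ := fun A => a A.card with hα
  have hαM : ∀ A : Finset {x : k // x ∉ T}, M < A.card → α A = 0 := fun A hA => ha _ hA
  set A0 : ℝ := ∑ A : Finset {x : k // x ∉ T}, ‖α A‖ ^ 2 with hA0
  have hA0' : A0 = ∑ n ∈ range (q' + 1), (q'.choose n : ℝ) * ‖a n‖ ^ 2 := by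
    have := sum_card_eq (k := {x : k // x ∉ T}) (fun n => ‖a n‖ ^ 2)
    rw [hcard] at this
    exact this
  have hA0pos : 0 < A0 := hA0' ▸ hpos
  have hTpos : 0 < tot k n := by
    unfold tot
    rw [← hqdef]
    have : 0 < q := by omega
    positivity
  have hc0 : 0 < tot k n * A0 := mul_pos hTpos hA0pos
  set S : k → k → Bool → ℝ := fun x a b => tw x * so a b with hS
  have hso : ∀ (ω : Sp k n) x, esg T v S ω x ^ 2 = 1 := by
    intro ω x
    have h1 : esg T v S ω x = tw x * so ((Pool.Agent.H45.VS.fam T v ω.1).eval (x : k)) (ω.2 x) := rfl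
    rw [h1, mul_pow, so_sq, mul_one]
    rcases htw x x.2 with h | h <;> rw [h] <;> norm_num
  have h0' : ∀ x, x ∉ T → ∑ a : k, ∑ b, S x a b = 0 := by
    intro x _
    have h2 := sum_so (k := k) hk
    simp only [hS, ← Finset.mul_sum]
    rw [h2, mul_zero]
  have h1' : ∀ x, x ∉ T → ∑ b, S x 0 b = 0 := by
    intro x _
    simp only [hS, ← Finset.mul_sum]
    have h2 : ∑ b, so (0 : k) b = 0 := by
      simp only [so, if_true]
      exact sum_sg
    rw [h2, mul_zero]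
  -- (1)
  have h1 : ∑ ω : Sp k n, ‖lin α (esg T v S ω)‖ ^ 2 = tot k n * A0 := by
    have := norm_sum (Ω := Sp k n) (fun ω => esg T v S ω) hso (fun _ => 1)
      (tot k n) n M (by omega)
      (fun D hD => by simpa using unb T v n S h0' D hD) α hαM
    simpa using this
  -- (2)
  have h2 : ∑ ω : Sp k n, (∑ x, esg T v S ω x - t) ^ 2 *
      ‖lin α (esg T v S ω)‖ ^ 2 ≤ tot k n * (R * A0) := by
    have e1 : ∀ ω : Sp k n, (∑ x, esg T v S ω x - t) ^ 2 *
        ‖lin α (esg T v S ω)‖ ^ 2 =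
        ‖lin (fun A => jop q' t a A.card) (esg T v S ω)‖ ^ 2 := by
      intro ω
      rw [← hcard, ← mul_lin_radial a _ (hso ω) t, norm_mul, mul_pow, Complex.norm_real,
        Real.norm_eq_abs, sq_abs]
    rw [Finset.sum_congr rfl fun ω _ => e1 ω]
    have e2 := norm_sum (Ω := Sp k n) (fun ω => esg T v S ω) hso (fun _ => 1)
      (tot k n) n (M + 1) (by omega)
      (fun D hD => by simpa using unb T v n S h0' D hD)
      (fun A => jop q' t a A.card) (fun A hA => by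
        unfold jop
        rw [ha _ (by omega), ha _ (by omega), ha _ (by omega)]
        simp)
    simp only [one_mul] at e2
    rw [e2, sum_card_eq (fun n => ‖jop q' t a n‖ ^ 2), hcard, hA0']
    exact mul_le_mul_of_nonneg_left hj hTpos.le
  -- (3)
  have h3 : ∀ i, i ≤ 3 → ∑ ω : Sp k n, (((zs T v ω).card.choose i : ℕ) : ℝ) * ‖lin α (esg T v S ω)‖ ^ 2 =
      ((q'.choose i : ℕ) : ℝ) * (1 / (q : ℝ)) ^ i * (tot k n * A0) := by
    intro i hi
    have e1 : ∀ ω : Sp k n, (((zs T v ω).card.choose i : ℕ) : ℝ) * ‖lin α (esg T v S ω)‖ ^ 2 =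
        ∑ A ∈ Finset.powersetCard i (Finset.univ : Finset {x : k // x ∉ T}),
          (∏ y ∈ A, if (Pool.Agent.H45.VS.fam T v ω.1).eval (y : k) = 0 then (1 : ℝ) else 0) *
            ‖lin α (esg T v S ω)‖ ^ 2 := by
      intro ω
      rw [choose_zs, Finset.sum_mul]
    rw [Finset.sum_congr rfl fun ω _ => e1 ω, Finset.sum_comm]
    have e2 : ∀ A ∈ Finset.powersetCard i (Finset.univ : Finset {x : k // x ∉ T}),
        ∑ ω : Sp k n, (∏ y ∈ A, if (Pool.Agent.H45.VS.fam T v ω.1).eval (y : k) = 0 then (1 : ℝ) else 0) *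
            ‖lin α (esg T v S ω)‖ ^ 2 = (tot k n * (1 / (q : ℝ)) ^ i) * A0 := by
      intro A hA
      have hAc : A.card = i := (Finset.mem_powersetCard.1 hA).2
      rw [← hAc]
      exact norm_sum (Ω := Sp k n) (fun ω => esg T v S ω) hso
        (fun ω => ∏ y ∈ A, if (Pool.Agent.H45.VS.fam T v ω.1).eval (y : k) = 0 then (1 : ℝ) else 0) _ (2 * M) M
        le_rfl (fun D hD => unbA T v n S h0' h1' A D (by omega)) α hαM
    rw [Finset.sum_congr rfl e2, Finset.sum_const, Finset.card_powersetCard, Finset.card_univ, hcard, nsmul_eq_mul]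
    ring
  have h3' : (1 / 3 - 1 / 50) * (tot k n * A0) ≤
      ∑ ω : Sp k n, bf (zs T v ω).card * ‖lin α (esg T v S ω)‖ ^ 2 := by
    have e1 : ∑ ω : Sp k n, bf (zs T v ω).card * ‖lin α (esg T v S ω)‖ ^ 2 =
        (1 - (q' : ℝ) * (1 / q) + (q'.choose 2 : ℕ) * (1 / (q : ℝ)) ^ 2 -
      (q'.choose 3 : ℕ) * (1 / (q : ℝ)) ^ 3) * (tot k n * A0) := by
      have f0 := h3 0 (by omega)
      have f1 := h3 1 (by omega)
      have f2 := h3 2 (by omega)
      have f3 := h3 3 (by omega)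
      simp only [Nat.choose_zero_right, Nat.choose_one_right, Nat.cast_one, pow_zero, pow_one, one_mul] at f0 f1
      have e2 : ∑ ω : Sp k n, bf (zs T v ω).card * ‖lin α (esg T v S ω)‖ ^ 2 =
          ∑ ω : Sp k n, ‖lin α (esg T v S ω)‖ ^ 2 -
          ∑ ω : Sp k n, ((zs T v ω).card : ℝ) * ‖lin α (esg T v S ω)‖ ^ 2 +
          ∑ ω : Sp k n, (((zs T v ω).card.choose 2 : ℕ) : ℝ) * ‖lin α (esg T v S ω)‖ ^ 2 -
          ∑ ω : Sp k n, (((zs T v ω).card.choose 3 : ℕ) : ℝ) * ‖lin α (esg T v S ω)‖ ^ 2 := by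
        rw [← Finset.sum_sub_distrib, ← Finset.sum_add_distrib, ← Finset.sum_sub_distrib]
        refine Finset.sum_congr rfl fun ω _ => ?_
        unfold bf
        ring
      rw [e2, f0, f1, f2, f3]
      ring
    rw [e1]
    exact mul_le_mul_of_nonneg_right (num_bound q' q hq hq'q) hc0.le
  -- (4)
  have h4 : ∑ ω : Sp k n, nsf (d / 2) (Pool.Agent.H45.VS.fam T v ω.1) * ‖lin α (esg T v S ω)‖ ^ 2 ≤
      tot k n * (A0 / 4) := by
    set α' : Finset {x : k // x ∉ T} → ℂ := fun A => α A * ((∏ x ∈ A, tw x : ℝ) : ℂ) with hα'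
    have e1 : ∀ A, ‖α' A‖ = ‖α A‖ := by
      intro A
      have h5 : |∏ x ∈ A, tw (x : k)| = 1 := by
        rw [Finset.abs_prod]
        refine Finset.prod_eq_one fun x _ => ?_
        rcases htw x x.2 with h | h <;> rw [h] <;> norm_num
      rw [hα']
      beta_reduce
      rw [norm_mul, Complex.norm_real, Real.norm_eq_abs, h5, mul_one]
    have e2 : ∀ ω : Sp k n, lin α (esg T v S ω) = lin α' (esg T v (fun _ => so) ω) := by
      intro ω
      unfold lin
      refine Finset.sum_congr rfl fun A _ => ?_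
      rw [hα']
      beta_reduce
      rw [mul_assoc, ← Complex.ofReal_mul, mon_eq_prod, mon_eq_prod, ← Finset.prod_mul_distrib]
      rfl
    have e3 := sum_nsf2 hk (by omega) T v hv d M hM α' (fun A hA => by
      rw [hα']
      beta_reduce
      rw [hαM A hA, zero_mul])
    simp only [e1] at e3
    refine le_trans (le_of_eq ?_) e3
    refine Finset.sum_congr rfl fun ω _ => ?_
    rw [e2]
  -- (5)
  set L : ℝ := 24 * (R + 1) with hL
  have hL0 : 0 < L := by linarith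
  have h5 : 0 < ∑ ω : Sp k n, (L * (bf (zs T v ω).card - nsf (d / 2) (Pool.Agent.H45.VS.fam T v ω.1)) -
      (∑ x, esg T v S ω x - t) ^ 2) * ‖lin α (esg T v S ω)‖ ^ 2 := by
    have e1 : ∑ ω : Sp k n, (L * (bf (zs T v ω).card - nsf (d / 2) (Pool.Agent.H45.VS.fam T v ω.1)) -
      (∑ x, esg T v S ω x - t) ^ 2) * ‖lin α (esg T v S ω)‖ ^ 2 =
        L * (∑ ω : Sp k n, bf (zs T v ω).card * ‖lin α (esg T v S ω)‖ ^ 2) -
        L * (∑ ω : Sp k n, nsf (d / 2) (Pool.Agent.H45.VS.fam T v ω.1) * ‖lin α (esg T v S ω)‖ ^ 2) -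
        (∑ ω : Sp k n, (∑ x, esg T v S ω x - t) ^ 2 *
          ‖lin α (esg T v S ω)‖ ^ 2) := by
      rw [Finset.mul_sum, Finset.mul_sum, ← Finset.sum_sub_distrib, ← Finset.sum_sub_distrib]
      refine Finset.sum_congr rfl fun ω _ => ?_
      ring
    rw [e1]
    have e2 := mul_le_mul_of_nonneg_left h4 hL0.le
    have e3 := mul_le_mul_of_nonneg_left h3' hL0.le
    have e4 : L * ((1 / 3 - 1 / 50) * (tot k n * A0)) = (24 * (1 / 3 - 1 / 50)) * ((R + 1) * (tot k n * A0)) := by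
      rw [hL]
      ring
    have e5 : L * (tot k n * (A0 / 4)) = 6 * ((R + 1) * (tot k n * A0)) := by
      rw [hL]
      ring
    have e6 : tot k n * (R * A0) = (R + 1) * (tot k n * A0) - tot k n * A0 := by ring
    have e7 : 0 < (R + 1) * (tot k n * A0) := mul_pos (by linarith) hc0
    rw [e4] at e3
    rw [e5] at e2
    rw [e6] at h2
    linarith
  obtain ⟨ω, _, hω⟩ := Finset.exists_lt_of_sum_lt (s := Finset.univ)
    (f := fun _ : Sp k n => (0 : ℝ))
    (g := fun ω => (L * (bf (zs T v ω).card - nsf (d / 2) (Pool.Agent.H45.VS.fam T v ω.1)) -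
      (∑ x, esg T v S ω x - t) ^ 2) * ‖lin α (esg T v S ω)‖ ^ 2) (by simpa using h5)
  have hbr : 0 < L * (bf (zs T v ω).card - nsf (d / 2) (Pool.Agent.H45.VS.fam T v ω.1)) -
      (∑ x, esg T v S ω x - t) ^ 2 := by
    by_contra hc
    push Not at hc
    have : (L * (bf (zs T v ω).card - nsf (d / 2) (Pool.Agent.H45.VS.fam T v ω.1)) -
      (∑ x, esg T v S ω x - t) ^ 2) * ‖lin α (esg T v S ω)‖ ^ 2 ≤ 0 :=
      mul_nonpos_of_nonpos_of_nonneg hc (by positivity)
    linarith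
  have hns0 : 0 ≤ nsf (d / 2) (Pool.Agent.H45.VS.fam T v ω.1) := by
    unfold nsf
    exact Finset.sum_nonneg fun j _ => Finset.sum_nonneg fun p _ => dv_nonneg _ _
  have hz : (zs T v ω).card = 0 := by
    by_contra hz
    have h6 := bf_pos _ hz
    have h7 : L * (bf (zs T v ω).card - nsf (d / 2) (Pool.Agent.H45.VS.fam T v ω.1)) ≤ 0 :=
      mul_nonpos_of_nonneg_of_nonpos hL0.le (by linarith)
    linarith [sq_nonneg (∑ x, esg T v S ω x - t)]
  rw [hz, bf_zero] at hbr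
  have hns : nsf (d / 2) (Pool.Agent.H45.VS.fam T v ω.1) < 1 := by
    by_contra hc
    push Not at hc
    have h7 : L * (1 - nsf (d / 2) (Pool.Agent.H45.VS.fam T v ω.1)) ≤ 0 :=
      mul_nonpos_of_nonneg_of_nonpos hL0.le (by linarith)
    linarith [sq_nonneg (∑ x, esg T v S ω x - t)]
  have hdeg : (Pool.Agent.H45.VS.fam T v ω.1).natDegree = d := by
    rw [Pool.Agent.H45.VS.fam_natDegree]
    omega
  have hnz : ∀ x, x ∉ T → (Pool.Agent.H45.VS.fam T v ω.1).eval x ≠ 0 := by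
    intro x hx h0
    have h8 : zs T v ω = ∅ := Finset.card_eq_zero.1 hz
    have h9 : (⟨x, hx⟩ : {x : k // x ∉ T}) ∈ zs T v ω := by
      unfold zs
      exact Finset.mem_filter.2 ⟨Finset.mem_univ _, h0⟩
    rw [h8] at h9
    simp at h9
  refine ⟨Pool.Agent.H45.VS.fam T v ω.1, Pool.Agent.H45.VS.fam_monic T v ω.1, hdeg,
    squarefree_of_nsf2 d _ (Pool.Agent.H45.VS.fam_monic T v ω.1) hdeg hns,
    fun x hx => fam_eval_mem T v ω.1 x hx, ?_, ?_⟩
  · intro x
    by_cases hx : x ∈ T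
    · rw [fam_eval_mem T v ω.1 x hx]
      exact hv x hx
    · exact hnz x hx
  · have h10 : ∑ x ∈ Tᶜ, tw x * chi ((Pool.Agent.H45.VS.fam T v ω.1).eval x) = ∑ x, esg T v S ω x := by
      rw [Finset.sum_subtype Tᶜ (p := fun x => x ∉ T) (fun x => by simp)]
      refine Finset.sum_congr rfl fun x _ => ?_
      unfold esg
      rw [hS]
      beta_reduce
      unfold so
      rw [if_neg (hnz x x.2)]
    rw [h10]
    have h11 : L * (1 - nsf (d / 2) (Pool.Agent.H45.VS.fam T v ω.1)) ≤ L := by nlinarith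
    linarith

end Pool.Agent.H45.VN
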