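import Pool.Agent.H45.VN.Cnt

/-!
# Killing a coset, characteristic two

PROOF. `p = 2`. Choose `β` with `β ≠ 0`, `β ≠ 1` (`= -1`), `Good 2 m β`, `ap`, `bp` (composed with `X - C a`) coprime
to `f`: excluded are at most `2 + (q / 2 - 1) + 2 natDegree f < q` values. `u = uu k 2`.
`D = (u * ap * bp).comp (X - C a)`, `G = (ap + bp).comp (X - C a)`. Degrees: `2 + 2 (2 ^ m - 2) = 2 * 2 ^ m - 2` and
`≤ 2 ^ m - 2`. `u`, `ap`, `bp` are pairwise coprime and squarefree (`coprime_ua`, `coprime_ub`, `coprime_ab`, factors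
of `sq_uap`, `sq_ubp`), so `D` is squarefree. `ap + bp` is coprime to `ap` and to `bp`, and to `u`: modulo `u`,
`ap ≡ β + 1`, `bp ≡ -1` (`uu ∣ ap - C (β + 1)`, `uu ∣ bp + 1`), sum `β ≠ 0`. `D` is coprime to `f`: `u.comp` is the product
of the two `X - C x`, `x ∈ cs 2 a`, `f.eval x ≠ 0`. Roots of `D` in `k`: `u(x - a) = 0` iff `x ∈ cs 2 a`; for other `x`,
`ap(y) ≠ 0` (`Good`), `bp(y) ≠ 0` (`eval_pow`). There, with `w = y ^ 2 - y`, `z = 1 / (w ap(y))`:
`G / D = 1 / (w bp(y)) + 1 / (w ap(y)) = z ^ (2 ^ (m - 1)) + z` by `eval_pow`, and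
`tau (z ^ (2 ^ i)) = tau z` (`tau (z ^ 2) = tau z`: `tau (z ^ 2 + z) = 1`, see `tau_Fx` in `H45/VS/Sq`), so
`tau (G / D) = tau z ^ 2 = 1` (`tau_add`, `tau_sq`).
-/

namespace Pool.Agent.H45.VN

open Finset Polynomial Pool.Agent.H35.VQ Pool.Agent.H45.VS

variable {k : Type} [Field k] [Fintype k] [DecidableEq k]

omit [Fintype k] [DecidableEq k] in
private theorem ttwo_sep_comp (f : k[X]) (hf : f.Separable) (x₀ : k) :
    (f.comp (X - C x₀)).Separable := by
  have h : IsCoprime ((compRingHom (X - C x₀ : k[X])) f)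
      ((compRingHom (X - C x₀ : k[X])) (derivative f)) :=
    IsCoprime.map hf (compRingHom (X - C x₀ : k[X]))
  have h2 : derivative (f.comp (X - C x₀)) = (derivative f).comp (X - C x₀) := by
    rw [derivative_comp]
    simp
  rw [Separable, h2]
  exact h

omit [Fintype k] [DecidableEq k] in
private theorem ttwo_lin (x : k) (P : k[X]) (h : P.eval x ≠ 0) : IsCoprime (X - C x) P := by
  rw [(irreducible_X_sub_C x).coprime_iff_not_dvd, dvd_iff_isRoot, IsRoot.def]
  exact h

omit [Fintype k] [DecidableEq k] in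
private theorem ttwo_uu (a : k) :
    (uu k 2).comp (X - C a) = (X - C a) * (X - C (a + 1)) := by
  unfold uu
  simp only [sub_comp, pow_comp, X_comp, C_add, C_1]
  ring

private theorem ttwo_tau_sq (h2 : (2 : k) = 0) (z : k) : tau (z ^ 2) = tau z := by
  have h3 : tau (z ^ 2 + z) = 1 := (mem_range_wp h2 _).1 ⟨z, rfl⟩
  rw [tau_add h2] at h3
  have h4 := tau_sq h2 z
  linear_combination tau z * h3 - tau (z ^ 2) * h4

private theorem ttwo_tau_pow (h2 : (2 : k) = 0) (z : k) (i : ℕ) : tau (z ^ 2 ^ i) = tau z := by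
  induction i with
  | zero => simp
  | succ i ih => rw [pow_succ, pow_mul, ttwo_tau_sq h2, ih]

open Classical in
private theorem ttwo_beta (m : ℕ) [CharP k 2] (hm : 2 ≤ m)
    (hc : Fintype.card k = 2 ^ (2 * m - 1)) (f : k[X]) (hf : f ≠ 0)
    (hd : 4 * f.natDegree + 8 ≤ Fintype.card k) (a : k) :
    ∃ β : k, β ≠ 0 ∧ β ≠ -1 ∧ Good 2 m β ∧ IsCoprime ((ap 2 m β).comp (X - C a)) f ∧
      IsCoprime ((bp 2 m β).comp (X - C a)) f := by
  have c1 := card_bad 2 m Nat.prime_two hm hc
  have c2 := card_kill_a 2 m Nat.prime_two hm f hf a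
  have c3 := card_kill_b 2 m Nat.prime_two hm f hf a
  by_contra hcon
  push Not at hcon
  have hsub : (Finset.univ : Finset k) ⊆ (({0, -1} : Finset k) ∪
      (Finset.univ.filter fun β : k => ¬ Good 2 m β)) ∪
      ((Finset.univ.filter fun β : k => ¬ IsCoprime ((ap 2 m β).comp (X - C a)) f) ∪
      (Finset.univ.filter fun β : k => ¬ IsCoprime ((bp 2 m β).comp (X - C a)) f)) := by
    intro β _
    simp only [Finset.mem_union, Finset.mem_filter, Finset.mem_univ, true_and,
      Finset.mem_insert, Finset.mem_singleton]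
    by_contra h
    push Not at h
    obtain ⟨⟨⟨h1, h2⟩, h3⟩, h4, h5⟩ := h
    exact hcon β h1 h2 h3 h4 h5
  have h1 := Finset.card_le_card hsub
  have h2 := Finset.card_union_le (({0, -1} : Finset k) ∪
      (Finset.univ.filter fun β : k => ¬ Good 2 m β))
      ((Finset.univ.filter fun β : k => ¬ IsCoprime ((ap 2 m β).comp (X - C a)) f) ∪
      (Finset.univ.filter fun β : k => ¬ IsCoprime ((bp 2 m β).comp (X - C a)) f))
  have h3 := Finset.card_union_le ({0, -1} : Finset k)
      (Finset.univ.filter fun β : k => ¬ Good 2 m β)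
  have h4 := Finset.card_union_le
      (Finset.univ.filter fun β : k => ¬ IsCoprime ((ap 2 m β).comp (X - C a)) f)
      (Finset.univ.filter fun β : k => ¬ IsCoprime ((bp 2 m β).comp (X - C a)) f)
  have h5 : ({0, -1} : Finset k).card ≤ 2 := Finset.card_le_two
  rw [Finset.card_univ] at h1
  omega

theorem exists_ram (m : ℕ) [CharP k 2] (hm : 2 ≤ m)
    (hc : Fintype.card k = 2 ^ (2 * m - 1)) (f : k[X]) (hf : f ≠ 0)
    (hd : 4 * f.natDegree + 8 ≤ Fintype.card k) (a : k) (hfa : ∀ x ∈ cs 2 a, f.eval x ≠ 0) :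
    ∃ D G : k[X], D.natDegree = 2 * 2 ^ m - 2 ∧ Squarefree D ∧ IsCoprime D G ∧
      G.degree < D.degree ∧ IsCoprime D f ∧ (∀ x, D.eval x = 0 ↔ x ∈ cs 2 a) ∧
      ∀ x, D.eval x ≠ 0 → tau (G.eval x / D.eval x) = 1 := by
  have h2 : (2 : k) = 0 := by exact_mod_cast CharP.cast_eq_zero k 2
  obtain ⟨β, b0, b1, hg, ca, cb⟩ := ttwo_beta m hm hc f hf hd a
  have P2 := Nat.prime_two
  have du : (uu k 2).natDegree = 2 := uu_natDegree 2 P2
  have dA := ap_natDegree 2 m P2 hm β
  have dB := bp_natDegree 2 m P2 hm β b0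
  have hpow : 4 ≤ 2 ^ m := by
    calc 4 = 2 ^ 2 := by norm_num
      _ ≤ 2 ^ m := Nat.pow_le_pow_right (by norm_num) hm
  have hu0 : uu k 2 ≠ 0 := by
    intro h
    rw [h, natDegree_zero] at du
    omega
  have hA0 : ap 2 m β ≠ 0 := by
    intro h
    rw [h, natDegree_zero] at dA
    omega
  have hB0 : bp 2 m β ≠ 0 := by
    intro h
    rw [h, natDegree_zero] at dB
    omega
  have kua := coprime_ua 2 m P2 hm β b1
  have kub := coprime_ub 2 m P2 hm β
  have kab := coprime_ab 2 m P2 hm hc β b1 hg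
  have sA := sq_uap 2 m P2 hm β b1
  have sB : Squarefree (bp 2 m β) := (sq_ubp 2 m P2 hm β).of_mul_right
  have ap0 := fun x hx => ap_prime 2 m P2 hm β x hx
  have bp0 := fun x hx => bp_prime 2 m P2 hm β x hx
  have ep := fun x => eval_pow 2 m P2 hm hc β x
  have hg' : ∀ x : k, x ^ 2 ≠ x → (ap 2 m β).eval x ≠ 0 := hg
  generalize ap 2 m β = A at *
  generalize bp 2 m β = B at *
  have kD : IsCoprime (uu k 2 * A) B := kub.mul_left kab
  have sq : Squarefree (uu k 2 * A * B) := (squarefree_mul_iff).2 ⟨kD.isRelPrime, sA, sB⟩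
  have sep : (uu k 2 * A * B).Separable := PerfectField.separable_iff_squarefree.2 sq
  have degD : ((uu k 2 * A * B).comp (X - C a)).natDegree = 2 * 2 ^ m - 2 := by
    rw [natDegree_comp, natDegree_X_sub_C, mul_one, natDegree_mul (mul_ne_zero hu0 hA0) hB0,
      natDegree_mul hu0 hA0, du, dA, dB]
    omega
  have evD : ∀ x : k, ((uu k 2 * A * B).comp (X - C a)).eval x =
      ((x - a) ^ 2 - (x - a)) * A.eval (x - a) * B.eval (x - a) := by
    intro x
    rw [eval_comp]
    simp only [eval_mul, eval_sub, eval_X, eval_C, uu, Polynomial.eval_pow]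
  have evG : ∀ x : k, ((A + B).comp (X - C a)).eval x = A.eval (x - a) + B.eval (x - a) := by
    intro x
    rw [eval_comp]
    simp only [eval_add, eval_sub, eval_X, eval_C]
  have nz : ∀ y : k, y ^ 2 - y ≠ 0 → A.eval y ≠ 0 ∧ B.eval y ≠ 0 := by
    intro y hy
    have h1 : A.eval y ≠ 0 := hg' y (sub_ne_zero.1 hy)
    refine ⟨h1, fun h => ?_⟩
    have h3 := ep y
    rw [h, mul_zero] at h3
    exact pow_ne_zero _ (mul_ne_zero hy h1) h3.symm
  have kG : IsCoprime (uu k 2 * A * B) (A + B) := by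
    refine ((?_ : IsCoprime (uu k 2) (A + B)).mul_left ?_).mul_left ?_
    · have hu : uu k 2 = (X - C 0) * (X - C 1) := by
        unfold uu
        rw [C_0, C_1]
        ring
      rw [hu]
      refine (ttwo_lin 0 _ ?_).mul_left (ttwo_lin 1 _ ?_)
      · rw [eval_add, ap0 0 (by norm_num), bp0 0 (by norm_num)]
        intro h
        apply b0
        linear_combination h
      · rw [eval_add, ap0 1 (by norm_num), bp0 1 (by norm_num)]
        intro h
        apply b0
        linear_combination h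
    · have h1 := kab.add_mul_left_right 1
      rw [mul_one, add_comm] at h1
      exact h1
    · have h1 := kab.symm.add_mul_left_right 1
      rw [mul_one] at h1
      exact h1
  refine ⟨(uu k 2 * A * B).comp (X - C a), (A + B).comp (X - C a), degD,
    (ttwo_sep_comp _ sep a).squarefree, IsCoprime.map kG (compRingHom (X - C a : k[X])), ?_, ?_,
    ?_, ?_⟩
  · apply degree_lt_degree
    rw [degD, natDegree_comp, natDegree_X_sub_C, mul_one]
    have h1 := natDegree_add_le A B
    rw [dA, dB, max_self] at h1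
    omega
  · rw [mul_comp, mul_comp, ttwo_uu]
    refine (((ttwo_lin a f (hfa a ?_)).mul_left (ttwo_lin (a + 1) f (hfa (a + 1) ?_))).mul_left
      ca).mul_left cb
    · unfold cs
      rw [Finset.mem_filter]
      refine ⟨Finset.mem_univ _, ?_⟩
      simp
    · unfold cs
      rw [Finset.mem_filter]
      refine ⟨Finset.mem_univ _, ?_⟩
      simp
  · intro x
    rw [evD]
    unfold cs
    rw [Finset.mem_filter]
    constructor
    · intro h
      refine ⟨Finset.mem_univ _, ?_⟩
      by_contra hne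
      have h0 : (x - a) ^ 2 - (x - a) ≠ 0 := sub_ne_zero.2 hne
      obtain ⟨h3, h4⟩ := nz _ h0
      exact mul_ne_zero (mul_ne_zero h0 h3) h4 h
    · rintro ⟨_, h⟩
      rw [h, sub_self, zero_mul, zero_mul]
  · intro x hx
    rw [evD] at hx ⊢
    rw [evG]
    obtain ⟨y, hy⟩ : ∃ y : k, y = x - a := ⟨_, rfl⟩
    rw [← hy] at hx ⊢
    have h0 : y ^ 2 - y ≠ 0 := fun h => hx (by rw [h, zero_mul, zero_mul])
    obtain ⟨h3, h4⟩ := nz y h0
    have h5 := ep y
    obtain ⟨z, hz⟩ : ∃ z : k, z = ((y ^ 2 - y) * A.eval y)⁻¹ := ⟨_, rfl⟩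
    have h6 : (A.eval y + B.eval y) / ((y ^ 2 - y) * A.eval y * B.eval y) =
        z ^ 2 ^ (m - 1) + z := by
      rw [hz, inv_pow, ← h5]
      field_simp
    rw [h6, tau_add h2, ttwo_tau_pow h2]
    have := tau_sq h2 z
    nlinarith

/-- several cosets. PROOF: induction on `J`; from `(h, G)` and the pair `(D, G₁)` of `exists_ram` for
`f = h` form `(h * D, G * D + G₁ * h)`: coprime because modulo a prime factor of `h` it is `G * D`, modulo
one of `D` it is `G₁ * h`; the quotient is `G / h + G₁ / D`, and `tau_add`. -/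
theorem exists_rams (m : ℕ) [CharP k 2] (hm : 2 ≤ m)
    (hc : Fintype.card k = 2 ^ (2 * m - 1)) (h0 G0 : k[X]) (hsq : Squarefree h0)
    (hco : IsCoprime h0 G0) (hdeg : G0.degree < h0.degree) (J : ℕ)
    (hd : 4 * (h0.natDegree + J * (2 * 2 ^ m - 2)) + 8 ≤ Fintype.card k) (a : Fin J → k)
    (hdis : ∀ i j, i ≠ j → Disjoint (cs 2 (a i)) (cs 2 (a j)))
    (hroot : ∀ i, ∀ x ∈ cs 2 (a i), h0.eval x ≠ 0) :
    ∃ h G : k[X], h.natDegree = h0.natDegree + J * (2 * 2 ^ m - 2) ∧ Squarefree h ∧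
      IsCoprime h G ∧ G.degree < h.degree ∧
      (∀ x, h.eval x = 0 ↔ (h0.eval x = 0 ∨ ∃ i, x ∈ cs 2 (a i))) ∧
      ∀ x, h.eval x ≠ 0 → ∀ c : k,
        tau (c + G.eval x / h.eval x) = tau (c + G0.eval x / h0.eval x) := by
  have h2 : (2 : k) = 0 := by exact_mod_cast CharP.cast_eq_zero k 2
  induction J with
  | zero =>
    refine ⟨h0, G0, by simp, hsq, hco, hdeg, fun x => ?_, fun x _ c => rfl⟩
    constructor
    · exact fun h => Or.inl h
    · rintro (h | ⟨i, _⟩)
      · exact h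
      · exact i.elim0
  | succ J ih =>
    have hJ : (J + 1) * (2 * 2 ^ m - 2) = J * (2 * 2 ^ m - 2) + (2 * 2 ^ m - 2) := by ring
    rw [hJ] at hd
    obtain ⟨h, G, e1, e2, e3, e4, e5, e6⟩ := ih (by omega) (fun i => a i.castSucc)
      (fun i j hij => hdis _ _ (fun h => hij (Fin.castSucc_injective J h)))
      (fun i x hx => hroot _ x hx)
    have hne : h ≠ 0 := e2.ne_zero
    have hroot2 : ∀ x ∈ cs 2 (a (Fin.last J)), h.eval x ≠ 0 := by
      intro x hx hz
      rcases (e5 x).1 hz with h3 | ⟨i, hi⟩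
      · exact hroot _ x hx h3
      · have hd2 := hdis i.castSucc (Fin.last J) (Fin.castSucc_lt_last i).ne
        exact Finset.disjoint_left.1 hd2 hi hx
    obtain ⟨D, G1, d1, d2, d3, d4, d5, d6, d7⟩ := exists_ram m hm hc h hne (by omega)
      (a (Fin.last J)) hroot2
    have hD : D ≠ 0 := d2.ne_zero
    refine ⟨h * D, G * D + G1 * h, ?_, ?_, ?_, ?_, ?_, ?_⟩
    · rw [natDegree_mul hne hD, e1, d1, hJ]
      omega
    · exact (squarefree_mul_iff).2 ⟨d5.symm.isRelPrime, e2, d2⟩
    · refine IsCoprime.mul_left ?_ ?_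
      · exact (e3.mul_right d5.symm).add_mul_right_right G1
      · have h3 := (d3.mul_right d5).add_mul_right_right G
        rwa [add_comm] at h3
    · rw [degree_mul]
      refine (degree_add_le _ _).trans_lt (max_lt ?_ ?_)
      · rw [degree_mul]
        exact WithBot.add_lt_add_right (degree_ne_bot.2 hD) e4
      · rw [degree_mul, add_comm]
        exact WithBot.add_lt_add_left (degree_ne_bot.2 hne) d4
    · intro x
      rw [eval_mul, mul_eq_zero, e5 x, d6 x]
      constructor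
      · rintro ((h3 | ⟨i, hi⟩) | h3)
        · exact Or.inl h3
        · exact Or.inr ⟨i.castSucc, hi⟩
        · exact Or.inr ⟨Fin.last J, h3⟩
      · rintro (h3 | ⟨i, hi⟩)
        · exact Or.inl (Or.inl h3)
        · rcases Fin.eq_castSucc_or_eq_last i with ⟨i', rfl⟩ | rfl
          · exact Or.inl (Or.inr ⟨i', hi⟩)
          · exact Or.inr hi
    · intro x hx c
      rw [eval_mul] at hx
      have hx1 : h.eval x ≠ 0 := left_ne_zero_of_mul hx
      have hx2 : D.eval x ≠ 0 := right_ne_zero_of_mul hx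
      have h3 : c + (G * D + G1 * h).eval x / (h * D).eval x =
          (c + G.eval x / h.eval x) + G1.eval x / D.eval x := by
        rw [eval_mul, eval_add, eval_mul, eval_mul]
        field_simp
        ring
      rw [h3, tau_add h2, d7 x hx2, mul_one, e6 x hx1 c]

end Pool.Agent.H45.VN
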